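import Pool.Agent.H77.AN.Df

/-!
Row A1 (project MP_e5a1a5_AN, PI helper77), about 110 lines: the permutations `(i, a) ↦ (σ i, a + t i)` of `β × ZMod p`.

`wr_support_card`: the support of `wr σ t` is `{x | σ x.1 ≠ x.1 ∨ t x.1 ≠ 0}` = (disjoint union of the support of `σ` and the fixed points with `t i ≠ 0`) ×ˢ univ, and `card (ZMod p) = p`.
`card_WW`: `W × (β → ZMod p) → WW W`, `(σ, t) ↦ wr σ t` is a bijection (`wr_inj`).
-/

set_option autoImplicit false
open scoped Classical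

namespace Pool.H77.AN

open Equiv

variable {β : Type} [Fintype β] {p : ℕ}

/-- `(i, a) ↦ (σ i, a + t i)` -/
def wr (σ : Perm β) (t : β → ZMod p) : Perm (β × ZMod p) where
  toFun x := (σ x.1, x.2 + t x.1)
  invFun x := (σ.symm x.1, x.2 - t (σ.symm x.1))
  left_inv x := by simp
  right_inv x := by simp

theorem wr_apply (σ : Perm β) (t : β → ZMod p) (x : β × ZMod p) : wr σ t x = (σ x.1, x.2 + t x.1) := rfl

theorem wr_mul (σ τ : Perm β) (s t : β → ZMod p) :
    wr σ s * wr τ t = wr (σ * τ) (fun i => t i + s (τ i)) := by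
  ext x
  · simp [wr_apply]
  · simp [wr_apply, add_assoc]

theorem wr_one : wr (1 : Perm β) (0 : β → ZMod p) = 1 := by
  ext x
  · simp [wr_apply]
  · simp [wr_apply]

theorem wr_inv (σ : Perm β) (t : β → ZMod p) : (wr σ t)⁻¹ = wr σ⁻¹ (fun i => - t (σ⁻¹ i)) := by
  rw [inv_eq_iff_mul_eq_one, wr_mul]
  have h : (fun i => -t (σ⁻¹ i) + t (σ⁻¹ i)) = (0 : β → ZMod p) := by
    funext i
    exact neg_add_cancel _
  rw [h, mul_inv_cancel, wr_one]

theorem wr_inj {σ τ : Perm β} {s t : β → ZMod p} (h : wr σ s = wr τ t) : σ = τ ∧ s = t := by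
  have h1 : ∀ i, wr σ s (i, 0) = wr τ t (i, 0) := fun i => by rw [h]
  simp only [wr_apply, Prod.mk.injEq, zero_add] at h1
  exact ⟨Equiv.ext fun i => (h1 i).1, funext fun i => (h1 i).2⟩

theorem wr_pow (σ : Perm β) (t : β → ZMod p) (m : ℕ) :
    wr σ t ^ m = wr (σ ^ m) (fun i => ∑ j ∈ Finset.range m, t ((σ ^ j) i)) := by
  induction m with
  | zero =>
    rw [pow_zero, pow_zero]
    have h : (fun i => ∑ j ∈ Finset.range 0, t ((σ ^ j) i)) = (0 : β → ZMod p) := by
      funext i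
      simp
    rw [h, wr_one]
  | succ m ih =>
    rw [pow_succ', ih, wr_mul, ← pow_succ']
    congr 1
    funext i
    rw [Finset.sum_range_succ]

theorem wr_support_card [DecidableEq β] [Fact p.Prime] (σ : Perm β) (t : β → ZMod p) :
    (wr σ t).support.card =
      p * (σ.support.card + (Finset.univ.filter fun i => σ i = i ∧ t i ≠ 0).card) := by
  have h1 : (wr σ t).support =
      (σ.support ∪ Finset.univ.filter fun i => σ i = i ∧ t i ≠ 0) ×ˢ (Finset.univ : Finset (ZMod p)) := by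
    ext x
    rw [Perm.mem_support, wr_apply, Finset.mem_product, Finset.mem_union, Perm.mem_support,
      Finset.mem_filter, Ne, Prod.ext_iff]
    simp only [Finset.mem_univ, and_true, true_and, add_eq_left]
    by_cases h : σ x.1 = x.1
    · simp [h]
    · simp [h]
  have h2 : Disjoint σ.support (Finset.univ.filter fun i => σ i = i ∧ t i ≠ 0) := by
    rw [Finset.disjoint_left]
    intro i hi hi'
    exact (Perm.mem_support.1 hi) (Finset.mem_filter.1 hi').2.1
  rw [h1, Finset.card_product, Finset.card_union_of_disjoint h2, Finset.card_univ, ZMod.card,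
    mul_comm]

/-- The wreath product. -/
def WW (p : ℕ) (W : Subgroup (Perm β)) : Subgroup (Perm (β × ZMod p)) where
  carrier := {z | ∃ σ ∈ W, ∃ t : β → ZMod p, z = wr σ t}
  one_mem' := ⟨1, one_mem _, 0, wr_one.symm⟩
  mul_mem' := by
    rintro _ _ ⟨σ, hσ, s, rfl⟩ ⟨τ, hτ, t, rfl⟩
    exact ⟨σ * τ, mul_mem hσ hτ, _, wr_mul σ τ s t⟩
  inv_mem' := by
    rintro _ ⟨σ, hσ, t, rfl⟩
    exact ⟨σ⁻¹, inv_mem hσ, _, wr_inv σ t⟩

theorem mem_WW {W : Subgroup (Perm β)} {z : Perm (β × ZMod p)} :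
    z ∈ WW p W ↔ ∃ σ ∈ W, ∃ t : β → ZMod p, z = wr σ t := Iff.rfl

theorem card_WW [Fact p.Prime] (W : Subgroup (Perm β)) :
    Nat.card (WW p W) = Nat.card W * p ^ Fintype.card β := by
  have e : Nat.card (W × (β → ZMod p)) = Nat.card (WW p W) := by
    refine Nat.card_congr (Equiv.ofBijective
      (fun x => (⟨wr x.1.1 x.2, x.1.1, x.1.2, x.2, rfl⟩ : WW p W)) ⟨?_, ?_⟩)
    · rintro ⟨⟨σ, hσ⟩, s⟩ ⟨⟨τ, hτ⟩, t⟩ h
      obtain ⟨h1, h2⟩ := wr_inj (Subtype.ext_iff.1 h)
      simp only [Prod.mk.injEq, Subtype.mk.injEq]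
      exact ⟨h1, h2⟩
    · rintro ⟨z, σ, hσ, t, rfl⟩
      exact ⟨(⟨σ, hσ⟩, t), rfl⟩
  rw [← e, Nat.card_prod, Nat.card_fun, Nat.card_zmod, Nat.card_eq_fintype_card (α := β)]

end Pool.H77.AN
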