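import Pool.Agent.H77.AN.Df

/-!
Row A2 (project MP_e5a1a5_AN, PI helper77), about 120 lines: the functions `t` with zero sums on the cycles of `σ` and `m` nonzero values at the fixed points of `σ`.

PROOF. `σ.support` has `p * j` elements and `σ ^ p = 1`, so `σ` has `j` cycles, all of length `p` (`Equiv.Perm.cycleType`: every entry divides `p` and is `≥ 2`, so it is `p`; `sum_cycleType = support.card`;
`card_cycleType = #cycleFactorsFinset`; or avoid cycles: the orbits of `⟨σ⟩` on the support all have `p` elements). Choose a point `r c ∈ c.support` for every `c ∈ σ.cycleFactorsFinset`, `R` the set of these: `R.card = j`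
(different cycles are disjoint). Every `i` in the support has some `(σ ^ l) i ∈ R`, `l < p`, and for `r ∈ R` the points `(σ ^ l) r`, `1 ≤ l < p`, are in the support, not in `R` (same cycle, different from `r`).
So `t r = - ∑_{1 ≤ l < p} t ((σ ^ l) r)` and `t` is determined by its restrictions to `support \ R` (`p j - j = (p - 1) j` points: at most `p ^ ((p - 1) j)` functions) and to the fixed points (`card β - p j` points; functions with
exactly `m` nonzero values: `choose (card β - p j) m * (p - 1) ^ m`; count the support set with `Finset.powersetCard` and the values in `{a : ZMod p // a ≠ 0}`). `fix_count` is the last count, separately.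
-/

set_option autoImplicit false
open scoped Classical

namespace Pool.H77.AN

open Equiv

variable {β : Type} [Fintype β] {p : ℕ} [Fact p.Prime]

/-- Functions on `F` (zero outside) with `m` nonzero values. -/
theorem fix_count (F : Finset β) (m : ℕ) :
    {t : β → ZMod p | (∀ i, i ∉ F → t i = 0) ∧ (F.filter fun i => t i ≠ 0).card = m}.ncard ≤
      F.card.choose m * (p - 1) ^ m := by
  have hsub : {t : β → ZMod p | (∀ i, i ∉ F → t i = 0) ∧ (F.filter fun i => t i ≠ 0).card = m} ⊆
      (((Finset.powersetCard m F).biUnion (fun A => Fintype.piFinset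
        (fun i : β => if i ∈ A then (Finset.univ.erase (0 : ZMod p)) else {0})) :
          Finset (β → ZMod p)) : Set (β → ZMod p)) := by
    rintro t ⟨h1, h2⟩
    rw [Finset.mem_coe, Finset.mem_biUnion]
    refine ⟨F.filter fun i => t i ≠ 0,
      Finset.mem_powersetCard.2 ⟨Finset.filter_subset _ _, h2⟩, ?_⟩
    rw [Fintype.mem_piFinset]
    intro i
    by_cases hi : i ∈ F.filter fun i => t i ≠ 0
    · rw [if_pos hi, Finset.mem_erase]
      exact ⟨(Finset.mem_filter.1 hi).2, Finset.mem_univ _⟩
    · rw [if_neg hi, Finset.mem_singleton]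
      by_contra h
      exact hi (Finset.mem_filter.2 ⟨by_contra fun hF => h (h1 i hF), h⟩)
  refine (Set.ncard_le_ncard hsub (Finset.finite_toSet _)).trans ?_
  rw [Set.ncard_coe_finset]
  refine Finset.card_biUnion_le.trans ?_
  have hval : ∀ A ∈ Finset.powersetCard m F, (Fintype.piFinset
        (fun i : β => if i ∈ A then (Finset.univ.erase (0 : ZMod p)) else {0})).card
        = (p - 1) ^ m := by
    intro A hA
    rw [Fintype.card_piFinset]
    have e : ∀ i : β, (if i ∈ A then (Finset.univ.erase (0 : ZMod p)) else {0}).card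
        = if i ∈ A then (p - 1) else 1 := by
      intro i
      by_cases hi : i ∈ A
      · rw [if_pos hi, if_pos hi, Finset.card_erase_of_mem (Finset.mem_univ _), Finset.card_univ,
          ZMod.card]
      · rw [if_neg hi, if_neg hi, Finset.card_singleton]
    rw [Finset.prod_congr rfl (fun i _ => e i), Finset.prod_ite_mem, Finset.univ_inter,
      Finset.prod_const, (Finset.mem_powersetCard.1 hA).2]
  rw [Finset.sum_congr rfl hval, Finset.sum_const, Finset.card_powersetCard, smul_eq_mul]

omit [Fintype β] in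
private theorem a2_pow (σ : Perm β) (hσ : σ ^ p = 1) {r i : β} (h : σ.SameCycle r i) :
    ∃ l, l < p ∧ (σ ^ l) r = i := by
  obtain ⟨z, hz⟩ := h
  have hp : (0 : ℤ) < p := by exact_mod_cast (Fact.out : p.Prime).pos
  have h0 := Int.emod_nonneg z hp.ne'
  have h1 := Int.emod_lt_of_pos z hp
  refine ⟨(z % p).toNat, by omega, ?_⟩
  have h2 : ((z % p).toNat : ℤ) = z % p := Int.toNat_of_nonneg h0
  have h3 : σ ^ (z % (p : ℤ)) = σ ^ z := by
    have e : z = z % (p : ℤ) + (p : ℤ) * (z / (p : ℤ)) := (Int.emod_add_mul_ediv z p).symm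
    conv_rhs => rw [e]
    rw [zpow_add, zpow_mul, zpow_natCast, hσ, one_zpow, mul_one]
  rw [← zpow_natCast, h2, h3, hz]

omit [Fintype β] in
private theorem a2_fix (σ : Perm β) (hσ : σ ^ p = 1) {r : β} {l : ℕ} (h1 : 1 ≤ l) (h2 : l < p)
    (h : (σ ^ l) r = r) : σ r = r := by
  have ha : Function.IsPeriodicPt σ l r := by
    change σ^[l] r = r
    rw [Equiv.Perm.iterate_eq_pow]
    exact h
  have hb : Function.IsPeriodicPt σ p r := by
    change σ^[p] r = r
    rw [Equiv.Perm.iterate_eq_pow, hσ]
    rfl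
  have hc := ha.gcd hb
  have hp : p.Prime := Fact.out
  have hd : l.gcd p = 1 := by
    rw [Nat.gcd_comm]
    exact (Nat.Prime.coprime_iff_not_dvd hp).2 fun hdvd =>
      absurd (Nat.le_of_dvd (by omega) hdvd) (by omega)
  rw [hd] at hc
  exact hc

theorem count_t [DecidableEq β] (σ : Perm β) (hσ : σ ^ p = 1) {j : ℕ} (hj : σ.support.card = p * j) (m : ℕ) :
    {t : β → ZMod p | (∀ i, ∑ l ∈ Finset.range p, t ((σ ^ l) i) = 0) ∧
      (Finset.univ.filter fun i => σ i = i ∧ t i ≠ 0).card = m}.ncard ≤
      p ^ ((p - 1) * j) * (Fintype.card β - p * j).choose m * (p - 1) ^ m := by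
  have hp : p.Prime := Fact.out
  -- representatives
  obtain ⟨o, ho⟩ : ∃ o : β → β, (∀ i, σ.SameCycle (o i) i) ∧
      ∀ i i', σ.SameCycle i i' → o i = o i' := by
    refine ⟨fun i => (Quotient.mk (Equiv.Perm.SameCycle.setoid σ) i).out, ?_, ?_⟩
    · intro i
      exact Quotient.exact (s := Equiv.Perm.SameCycle.setoid σ)
        (Quotient.out_eq (Quotient.mk (Equiv.Perm.SameCycle.setoid σ) i))
    · intro i i' h
      have e : Quotient.mk (Equiv.Perm.SameCycle.setoid σ) i
          = Quotient.mk (Equiv.Perm.SameCycle.setoid σ) i' :=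
        Quotient.sound (s := Equiv.Perm.SameCycle.setoid σ) h
      change (Quotient.mk (Equiv.Perm.SameCycle.setoid σ) i).out
          = (Quotient.mk (Equiv.Perm.SameCycle.setoid σ) i').out
      rw [e]
  obtain ⟨ho1, ho2⟩ := ho
  obtain ⟨R, hR⟩ : ∃ R : Finset β, R = σ.support.filter (fun i => o i = i) := ⟨_, rfl⟩
  have hRs : R ⊆ σ.support := by rw [hR]; exact Finset.filter_subset _ _
  have hcyc : ∀ (i : β) (l : ℕ), σ.SameCycle i ((σ ^ l) i) := fun i l =>
    ⟨l, by rw [zpow_natCast]⟩
  have hsup : ∀ {i i' : β}, σ.SameCycle i i' → (i ∈ σ.support ↔ i' ∈ σ.support) := by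
    intro i i' h
    rw [Equiv.Perm.mem_support, Equiv.Perm.mem_support]
    exact not_congr h.apply_eq_self_iff
  have hor : ∀ i ∈ σ.support, o i ∈ R := by
    intro i hi
    rw [hR, Finset.mem_filter]
    refine ⟨(hsup (ho1 i)).2 hi, ho2 _ _ (ho1 i)⟩
  have hRj : j ≤ R.card := by
    have hsub : σ.support ⊆ (R ×ˢ Finset.range p).image (fun x => (σ ^ x.2) x.1) := by
      intro i hi
      obtain ⟨l, hl, he⟩ := a2_pow σ hσ (ho1 i)
      rw [Finset.mem_image]
      exact ⟨(o i, l), Finset.mem_product.2 ⟨hor i hi, Finset.mem_range.2 hl⟩, he⟩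
    have h1 := (Finset.card_le_card hsub).trans Finset.card_image_le
    rw [Finset.card_product, Finset.card_range, hj, Nat.mul_comm p j] at h1
    exact Nat.le_of_mul_le_mul_right h1 hp.pos
  have hout : ∀ r ∈ R, ∀ l, 1 ≤ l → l < p → (σ ^ l) r ∈ σ.support \ R := by
    intro r hr l h1 h2
    rw [Finset.mem_sdiff]
    refine ⟨(hsup (hcyc r l)).1 (hRs hr), ?_⟩
    intro h3
    have h4 := hr
    rw [hR, Finset.mem_filter] at h3 h4
    have h5 := ho2 _ _ (hcyc r l)
    rw [h3.2, h4.2] at h5
    exact (Equiv.Perm.mem_support.1 h4.1) (a2_fix σ hσ h1 h2 h5.symm)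
  obtain ⟨F, hF⟩ : ∃ F : Finset β, F = σ.supportᶜ := ⟨_, rfl⟩
  have hFc : F.card = Fintype.card β - p * j := by rw [hF, Finset.card_compl, hj]
  have hFm : ∀ i, i ∈ F ↔ σ i = i := by
    intro i
    rw [hF, Finset.mem_compl, Equiv.Perm.mem_support, not_not]
  obtain ⟨T2, hT2⟩ : ∃ T2 : Set (β → ZMod p), T2 = {t : β → ZMod p | (∀ i, i ∉ F → t i = 0) ∧
    (F.filter fun i => t i ≠ 0).card = m} := ⟨_, rfl⟩
  have hT2c := fix_count (p := p) F m
  rw [← hT2] at hT2c
  have key : {t : β → ZMod p | (∀ i, ∑ l ∈ Finset.range p, t ((σ ^ l) i) = 0) ∧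
      (Finset.univ.filter fun i => σ i = i ∧ t i ≠ 0).card = m}.ncard ≤
      ((Set.univ : Set ({x // x ∈ σ.support \ R} → ZMod p)) ×ˢ T2).ncard := by
    apply Set.ncard_le_ncard_of_injOn
      (fun t => ((fun x : {x // x ∈ σ.support \ R} => t x.1), fun i => if i ∈ F then t i else 0))
    · rintro t ⟨ht1, ht2⟩
      refine ⟨Set.mem_univ _, ?_⟩
      rw [hT2]
      refine ⟨fun i hi => if_neg hi, ?_⟩
      rw [← ht2]
      congr 1
      ext i
      simp only [Finset.mem_filter, Finset.mem_univ, true_and]
      constructor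
      · rintro ⟨hi, h⟩
        rw [if_pos hi] at h
        exact ⟨(hFm i).1 hi, h⟩
      · rintro ⟨hi, h⟩
        have hi' := (hFm i).2 hi
        refine ⟨hi', ?_⟩
        rw [if_pos hi']
        exact h
    · rintro t ⟨ht1, ht2⟩ t' ⟨ht1', ht2'⟩ he
      simp only [Prod.mk.injEq] at he
      obtain ⟨he1, he2⟩ := he
      have e1 : ∀ x ∈ σ.support \ R, t x = t' x := fun x hx => congrFun he1 ⟨x, hx⟩
      have e2 : ∀ x ∈ F, t x = t' x := by
        intro x hx
        have h := congrFun he2 x
        simpa only [if_pos hx] using h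
      funext i
      by_cases hi : i ∈ F
      · exact e2 i hi
      by_cases hiR : i ∈ R
      · have s1 := ht1 i
        have s2 := ht1' i
        obtain ⟨q, hq⟩ : ∃ q, p = q + 1 := ⟨p - 1, by have := hp.pos; omega⟩
        have hr : Finset.range p = Finset.range (q + 1) := by rw [← hq]
        rw [hr, Finset.sum_range_succ'] at s1 s2
        have s3 : ∑ l ∈ Finset.range q, t ((σ ^ (l + 1)) i)
            = ∑ l ∈ Finset.range q, t' ((σ ^ (l + 1)) i) := by
          apply Finset.sum_congr rfl
          intro l hl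
          rw [Finset.mem_range] at hl
          exact e1 _ (hout i hiR (l + 1) (by omega) (by omega))
        rw [s3] at s1
        rw [← s2] at s1
        have s4 := add_left_cancel s1
        simpa using s4
      · apply e1
        rw [Finset.mem_sdiff]
        refine ⟨?_, hiR⟩
        rw [hF, Finset.mem_compl, not_not] at hi
        exact hi
  refine key.trans ?_
  rw [Set.ncard_prod, Set.ncard_univ, Nat.card_eq_fintype_card, Fintype.card_fun, ZMod.card,
    Fintype.card_coe]
  have hcard : (σ.support \ R).card ≤ (p - 1) * j := by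
    rw [Finset.card_sdiff_of_subset hRs, hj, Nat.sub_mul, one_mul]
    omega
  rw [Nat.mul_assoc]
  rw [hFc] at hT2c
  exact Nat.mul_le_mul (Nat.pow_le_pow_right hp.pos hcard) hT2c

end Pool.H77.AN
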