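import Pool.Agent.H77.AN.A1
import Pool.Agent.H77.AN.A2

/-!
Row A3 (project MP_e5a1a5_AN, PI helper77), about 100 lines (uses the STATEMENTS of A1, A2): elements of order `p` in the wreath product.

PROOF. Let `z = wr σ t ∈ WW p W`, `z ^ p = 1`, `p * k` moved points. `wr_pow`, `wr_one`, `wr_inj`: `σ ^ p = 1`, `∑ l ∈ range p, t ((σ ^ l) i) = 0`. `dvd_supp`: `p ∣ σ.support.card` (all cycles have length `p`; or
`Equiv.Perm.sum_cycleType` and `Multiset.dvd_sum`, an entry `c ≥ 2` of the cycle type divides the order, hence `p`, so `c = p`), say `σ.support.card = p * j`. `wr_support_card`: `k = p * j + m` with `m` = number of fixed points with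
`t i ≠ 0`. So `j ≤ k / p`, `m = k - p * j`. Hence the set is contained in `⋃ j ≤ k / p, ⋃ σ ∈ {σ ∈ W, σ ^ p = 1, support.card = p * j}, (wr σ) '' {t | ...}` and `count_t` (finite unions: `Finset.set_ncard_biUnion_le`, all sets are finite).
-/

set_option autoImplicit false
open scoped Classical

namespace Pool.H77.AN

open Equiv

theorem dvd_supp {β : Type} [Fintype β] [DecidableEq β] {p : ℕ} (hp : p.Prime) {σ : Perm β} (hσ : σ ^ p = 1) :
    p ∣ σ.support.card := by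
  rw [← Equiv.Perm.sum_cycleType]
  refine Multiset.dvd_sum fun c hc => ?_
  have h1 : c ∣ p := (Equiv.Perm.dvd_of_mem_cycleType hc).trans (orderOf_dvd_of_pow_eq_one hσ)
  have h2 := Equiv.Perm.two_le_of_mem_cycleType hc
  rcases hp.eq_one_or_self_of_dvd c h1 with h | h
  · omega
  · rw [h]

theorem nz_WW {β : Type} [Fintype β] [DecidableEq β] {p : ℕ} [Fact p.Prime] (W : Subgroup (Perm β)) (k : ℕ) :
    nz (WW p W) p k ≤ ∑ j ∈ Finset.range (k / p + 1), nz W p j * p ^ ((p - 1) * j) *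
      (Fintype.card β - p * j).choose (k - p * j) * (p - 1) ^ (k - p * j) := by
  have hp : p.Prime := Fact.out
  obtain ⟨Wj, hWj⟩ : ∃ Wj : ℕ → Finset (Perm β), ∀ j σ, σ ∈ Wj j ↔
      σ ∈ W ∧ σ ^ p = 1 ∧ σ.support.card = p * j :=
    ⟨fun j => Finset.univ.filter fun σ => σ ∈ W ∧ σ ^ p = 1 ∧ σ.support.card = p * j,
      fun j σ => by rw [Finset.mem_filter, and_iff_right (Finset.mem_univ _)]⟩
  have hW : ∀ j, nz W p j = (Wj j).card := by
    intro j
    unfold nz
    rw [← Set.ncard_coe_finset]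
    congr 1
    ext σ
    rw [Finset.mem_coe, hWj]
    rfl
  obtain ⟨T, hT⟩ : ∃ T : ℕ → Perm β → Set (β → ZMod p), ∀ j σ, T j σ =
      {t : β → ZMod p | (∀ i, ∑ l ∈ Finset.range p, t ((σ ^ l) i) = 0) ∧
        (Finset.univ.filter fun i => σ i = i ∧ t i ≠ 0).card = k - p * j} :=
    ⟨_, fun _ _ => rfl⟩
  have hsub : {z : Perm (β × ZMod p) | z ∈ WW p W ∧ z ^ p = 1 ∧ z.support.card = p * k} ⊆
      ⋃ j ∈ Finset.range (k / p + 1), ⋃ σ ∈ Wj j, (wr σ) '' (T j σ) := by
    rintro z ⟨⟨σ, hσ, t, rfl⟩, h1, h2⟩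
    rw [wr_pow, ← wr_one] at h1
    obtain ⟨h3, h4⟩ := wr_inj h1
    obtain ⟨j, hj⟩ := dvd_supp hp h3
    rw [wr_support_card, hj] at h2
    have h5 := Nat.eq_of_mul_eq_mul_left hp.pos h2
    have hjk : j ∈ Finset.range (k / p + 1) := by
      rw [Finset.mem_range, Nat.lt_succ_iff, Nat.le_div_iff_mul_le hp.pos, mul_comm]
      omega
    refine Set.mem_biUnion hjk (Set.mem_biUnion ((hWj j σ).2 ⟨hσ, h3, hj⟩) ⟨t, ?_, rfl⟩)
    rw [hT]
    refine ⟨fun i => congrFun h4 i, ?_⟩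
    omega
  have hbound : ∀ j, ∀ σ ∈ Wj j, ((wr σ) '' (T j σ)).ncard ≤ p ^ ((p - 1) * j) *
      (Fintype.card β - p * j).choose (k - p * j) * (p - 1) ^ (k - p * j) := by
    intro j σ hσ
    obtain ⟨-, h1, h2⟩ := (hWj j σ).1 hσ
    refine (Set.ncard_image_le (Set.toFinite _)).trans ?_
    rw [hT]
    exact count_t σ h1 h2 _
  calc nz (WW p W) p k ≤
        (⋃ j ∈ Finset.range (k / p + 1), ⋃ σ ∈ Wj j, (wr σ) '' (T j σ)).ncard :=
        Set.ncard_le_ncard hsub (Set.toFinite _)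
    _ ≤ ∑ j ∈ Finset.range (k / p + 1), (⋃ σ ∈ Wj j, (wr σ) '' (T j σ)).ncard :=
        Finset.set_ncard_biUnion_le _ _
    _ ≤ ∑ j ∈ Finset.range (k / p + 1), nz W p j * p ^ ((p - 1) * j) *
      (Fintype.card β - p * j).choose (k - p * j) * (p - 1) ^ (k - p * j) := by
        refine Finset.sum_le_sum fun j _ => ?_
        refine (Finset.set_ncard_biUnion_le _ _).trans ?_
        refine (Finset.sum_le_sum fun σ hσ => hbound j σ hσ).trans ?_
        rw [Finset.sum_const, hW, smul_eq_mul]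
        exact le_of_eq (by ring)

end Pool.H77.AN
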