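import Pool.Agent.H77.AN.A3

/-!
Row A4 (project MP_e5a1a5_AN, PI helper77), about 130 lines (uses the STATEMENTS of A1, A3): a Sylow subgroup with known counts.

`nz_map`: for an embedding `f : α → γ` of the moved points: `nz` of the image of `W ≤ Perm α` in `Perm γ` under `z ↦ z` on `α`, identity elsewhere. (a) an equivalence `e : α ≃ γ`, `W.map e.permCongrHom.toMonoidHom`
(`Equiv.Perm.support` of a `permCongr` has the same card: `Equiv.Perm.card_support_permCongr`-like or by hand), (b) `W ≤ Perm α` to `Perm (α ⊕ γ)` by `Equiv.Perm.sumCongrHom α γ` restricted to `(z, 1)`: the support has the same card.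
In both cases the map is injective, so `Nat.card` and `nz` do not change (only `≤` needed for `nz`).
`exists_syl`: strong induction on `n`. `n < p`: `W = ⊥`, `n!` is prime to `p`, `nz ⊥ p k` is `1` for `k = 0` and `0` otherwise (`cnt_lt`). `n ≥ p`: `q = n / p`, `r = n % p`, `W` for `Fin q`, `WW p W` on `Fin q × ZMod p`, then
`(Fin q × ZMod p) ⊕ Fin r ≃ Fin n` (cards: `q * p + r = n`, `Fintype.equivOfCardEq`). Card: `p ^ v_p(q!) * p ^ q`, and `v_p(n!) = q + v_p(q!)` (`padicValNat_mul_div_factorial`, `padicValNat_factorial_mul`, `Nat.factorization_def`;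
or `Nat.Prime.multiplicity_factorial...`). Counts: `nz_WW`, the induction hypothesis and `cnt_rec`.
-/

set_option autoImplicit false
open scoped Classical

namespace Pool.H77.AN

open Equiv

theorem nz_map {α γ : Type} [Fintype α] [DecidableEq α] [Fintype γ] [DecidableEq γ]
    (f : Perm α →* Perm γ) (hf : Function.Injective f)
    (hs : ∀ z : Perm α, (f z).support.card = z.support.card) (W : Subgroup (Perm α)) (p k : ℕ) :
    nz (W.map f) p k ≤ nz W p k := by
  unfold nz
  refine (Set.ncard_le_ncard (t := f '' {z : Perm α | z ∈ W ∧ z ^ p = 1 ∧ z.support.card = p * k})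
    ?_ (Set.toFinite _)).trans (Set.ncard_image_le (Set.toFinite _))
  rintro y ⟨hy, hyp, hyc⟩
  obtain ⟨z, hz, rfl⟩ := Subgroup.mem_map.1 hy
  refine ⟨z, ⟨hz, ?_, ?_⟩, rfl⟩
  · apply hf
    rw [map_pow, hyp, map_one]
  · rw [← hs z, hyc]

theorem nz_bot {α : Type} [Fintype α] [DecidableEq α] {p : ℕ} (hp : 0 < p) (k : ℕ) :
    nz (⊥ : Subgroup (Perm α)) p k ≤ if k = 0 then 1 else 0 := by
  unfold nz
  by_cases hk : k = 0
  · rw [if_pos hk]
    refine (Set.ncard_le_ncard (t := {(1 : Perm α)}) ?_ (Set.toFinite _)).trans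
      (Set.ncard_singleton _).le
    rintro z ⟨hz, -, -⟩
    exact Subgroup.mem_bot.1 hz
  · rw [if_neg hk]
    refine le_of_eq ?_
    rw [Set.ncard_eq_zero (Set.toFinite _), Set.eq_empty_iff_forall_notMem]
    rintro z ⟨hz, -, h⟩
    rw [Subgroup.mem_bot.1 hz, Equiv.Perm.support_one, Finset.card_empty] at h
    have : 0 < p * k := Nat.mul_pos hp (Nat.pos_of_ne_zero hk)
    omega

theorem exists_syl (p : ℕ) [Fact p.Prime] (n : ℕ) : ∃ W : Subgroup (Perm (Fin n)),
    Nat.card W = p ^ (n.factorial).factorization p ∧ ∀ k, nz W p k ≤ cnt p n k := by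
  have hp : p.Prime := Fact.out
  have hp2 : 2 ≤ p := hp.two_le
  induction n using Nat.strong_induction_on with
  | _ n ih =>
    by_cases h : n < p
    · refine ⟨⊥, ?_, fun k => ?_⟩
      · rw [Nat.factorization_factorial_eq_zero_of_lt h, pow_zero]
        exact Subgroup.card_bot
      · rw [cnt_lt h]
        exact nz_bot hp.pos k
    · have hpn : p ≤ n := by omega
      have hq : n / p < n := Nat.div_lt_self (by omega) (by omega)
      obtain ⟨W, hW1, hW2⟩ := ih (n / p) hq
      have hcard : Fintype.card (Fin (n / p) × ZMod p) ≤ Fintype.card (Fin n) := by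
        rw [Fintype.card_prod, ZMod.card, Fintype.card_fin, Fintype.card_fin]
        exact Nat.div_mul_le_self n p
      obtain ⟨ι⟩ := Function.Embedding.nonempty_of_card_le hcard
      obtain ⟨e, -⟩ : ∃ e : (Fin (n / p) × ZMod p) ≃ Subtype (fun x : Fin n => x ∈ Set.range ι),
          True := ⟨Equiv.ofInjective ι ι.injective, trivial⟩
      have hinj := Equiv.Perm.extendDomainHom_injective e
      refine ⟨(WW p W).map (Equiv.Perm.extendDomainHom e), ?_, fun k => ?_⟩
      · rw [Subgroup.card_map_of_injective hinj, card_WW, hW1, Fintype.card_fin, ← pow_add]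
        congr 1
        rw [Nat.factorization_def _ hp, Nat.factorization_def _ hp,
          ← padicValNat_mul_div_factorial n, padicValNat_factorial_mul]
      · refine (nz_map _ hinj (fun z => ?_) (WW p W) p k).trans ?_
        · exact Equiv.Perm.card_support_extend_domain e
        · refine (nz_WW W k).trans ?_
          rw [cnt_rec hp2 hpn, Fintype.card_fin]
          refine Finset.sum_le_sum fun j _ => ?_
          gcongr
          exact hW2 j

end Pool.H77.AN
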