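import Pool.Agent.H77.AN.A4

/-!
Row A5 (project MP_e5a1a5_AN, PI helper77), about 70 lines (uses the STATEMENT of A4): arbitrary `p`-subgroups.

PROOF. First `α = Fin n`: `W` of `exists_syl` is a Sylow subgroup (`Sylow.ofCard`, `Nat.card (Perm (Fin n)) = n!`), `H` is contained in a Sylow subgroup `Q` (`IsPGroup.exists_le_sylow`), `Q = g • W` is a conjugate
(`MulAction.exists_smul_eq`), and conjugation keeps `z ^ p = 1` and `support.card` (`Equiv.Perm.card_support_conj`), so `nz H ≤ nz Q = nz W ≤ cnt`. General `α`: transport along `α ≃ Fin n` (`Equiv.permCongrHom`).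
-/

set_option autoImplicit false

namespace Pool.H77.AN

open Equiv

theorem sc {α β : Type} [Fintype α] [DecidableEq α] [Fintype β] [DecidableEq β] (e : α ≃ β)
    (z : Perm α) : (e.permCongr z).support.card = z.support.card := by
  symm
  refine Finset.card_equiv e fun i => ?_
  rw [Perm.mem_support, Perm.mem_support, Equiv.permCongr_apply, Equiv.symm_apply_apply]
  exact (e.injective.ne_iff).symm

/-- An injective map of permutations keeping the counted elements does not lower the count. -/
theorem nz_le_of {α β : Type} [Fintype α] [DecidableEq α] [Fintype β] [DecidableEq β]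
    (H : Subgroup (Perm α)) (Q : Subgroup (Perm β)) (p k : ℕ) (f : Perm α → Perm β)
    (hf : Function.Injective f) (h1 : ∀ z ∈ H, f z ∈ Q) (h2 : ∀ z, z ^ p = 1 → (f z) ^ p = 1)
    (h3 : ∀ z, (f z).support.card = z.support.card) : nz H p k ≤ nz Q p k := by
  unfold nz
  rw [← Set.ncard_image_of_injective _ hf]
  refine Set.ncard_le_ncard ?_ (Set.toFinite _)
  rintro _ ⟨z, ⟨hz1, hz2, hz3⟩, rfl⟩
  exact ⟨h1 z hz1, h2 z hz2, (h3 z).trans hz3⟩

theorem nz_le_fin {n : ℕ} {p : ℕ} [Fact p.Prime] (H : Subgroup (Perm (Fin n)))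
    (hH : IsPGroup p H) (k : ℕ) : nz H p k ≤ cnt p n k := by
  obtain ⟨W, hW1, hW2⟩ := exists_syl p n
  have hcard : Nat.card W = p ^ (Nat.card (Perm (Fin n))).factorization p := by
    rw [hW1, Nat.card_eq_fintype_card, Fintype.card_perm, Fintype.card_fin]
  let P : Sylow p (Perm (Fin n)) := Sylow.ofCard W hcard
  have hP : (P : Subgroup (Perm (Fin n))) = W := rfl
  obtain ⟨Q, hQ⟩ := hH.exists_le_sylow
  obtain ⟨g, hg⟩ := MulAction.exists_smul_eq (Perm (Fin n)) Q P
  have h0 : nz H p k ≤ nz W p k := by
    refine nz_le_of H W p k (fun z => g * z * g⁻¹) ?_ ?_ ?_ ?_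
    · intro a b hab
      simpa using hab
    · intro z hz
      have h1 : g * z * g⁻¹ ∈ (P : Subgroup (Perm (Fin n))) := by
        rw [← hg, Sylow.coe_subgroup_smul]
        have := Subgroup.smul_mem_pointwise_smul z (MulAut.conj g) (Q : Subgroup (Perm (Fin n))) (hQ hz)
        simpa [MulAut.smul_def, MulAut.conj_apply] using this
      rw [hP] at h1
      exact h1
    · intro z hz
      rw [conj_pow, hz]
      simp
    · intro z
      exact Perm.card_support_conj
  refine h0.trans ?_
  convert hW2 k using 2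

theorem nz_le {α : Type} [Fintype α] [DecidableEq α] {p : ℕ} [Fact p.Prime] (H : Subgroup (Perm α))
    (hH : IsPGroup p H) (k : ℕ) : nz H p k ≤ cnt p (Fintype.card α) k := by
  let e : α ≃ Fin (Fintype.card α) := Fintype.equivFin α
  let H' : Subgroup (Perm (Fin (Fintype.card α))) := H.map e.permCongrHom.toMonoidHom
  have hH' : IsPGroup p H' := hH.map _
  refine le_trans ?_ (nz_le_fin H' hH' k)
  refine nz_le_of H H' p k (fun z => e.permCongrHom z) e.permCongrHom.injective ?_ ?_ ?_
  · intro z hz
    exact Subgroup.mem_map_of_mem _ hz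
  · intro z hz
    rw [← map_pow, hz, map_one]
  · intro z
    exact sc e z

end Pool.H77.AN
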