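import Pool.Agent.H77.AN.Df

/-!
Row B1 (project MP_e5a1a5_AN, PI helper77), about 110 lines: conjugating elements.

PROOF. `z ^ p = 1`, `z.support.card = p * k`: the cycle type of `z` is `Multiset.replicate k p` (every entry is `≥ 2` and divides `p`, so it is `p`; the sum is `p * k`). `Equiv.Perm.nat_card_centralizer` gives
`Nat.card (centralizer {z}) = (n - p k)! * p ^ k * k!` =: c. The set `{x | x * z * x⁻¹ = h}` is empty or a coset `x₀ * centralizer {z}` (`x₀⁻¹ x` commutes with `z`), so it has at most `c` elements.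
`conj_alt`: if some `u` in the centralizer is odd, then `x ↦ x * u` maps the even elements of the coset injectively to the odd ones, so `2 * #even ≤ c = wt` (the last factor of `wt` is at least one). Such `u`: (i) `p = 2` (`z` even gives
`k` even, so `wt` is not 0: `Equiv.Perm.sign_of_cycleType`), (ii) `p` odd, `n - p k ≥ 2`, (iii) `p` odd, `k ≥ 2`: all three from `Equiv.Perm.centralizer_le_alternating_iff` (Mathlib.GroupTheory.SpecificGroups.Alternating.Centralizer):
if all of the centralizer is even then all entries of the cycle type are odd, `n ≤ p k + 1` and every length occurs at most once; (iv) otherwise `k = 1`, `n < p + 2` and `wt` has the factor 2: `2 * #even ≤ 2 c`.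
-/

set_option autoImplicit false

namespace Pool.H77.AN

open Equiv

variable {α : Type} [Fintype α] [DecidableEq α] {p k : ℕ}

private theorem B1_ct (hp : p.Prime) {z : Perm α} (hz : z ^ p = 1) (hk : z.support.card = p * k) :
    z.cycleType = Multiset.replicate k p := by
  have _ : Fact p.Prime := ⟨hp⟩
  have h1 := Perm.cycleType_of_pow_prime_eq_one hz
  have h2 := Perm.sum_cycleType z
  rw [h1, Multiset.sum_replicate, smul_eq_mul, hk, mul_comm] at h2
  have h3 := Nat.eq_of_mul_eq_mul_left hp.pos h2
  rw [h1, h3]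

theorem card_centr (hp : p.Prime) {z : Perm α} (hz : z ^ p = 1) (hk : z.support.card = p * k) :
    Nat.card (Subgroup.centralizer {z}) = (Fintype.card α - p * k).factorial * p ^ k * k.factorial := by
  have h1 : ∏ n ∈ (Multiset.replicate k p).toFinset, ((Multiset.replicate k p).count n).factorial =
      k.factorial := by
    rcases Nat.eq_zero_or_pos k with rfl | hk0
    · simp
    · rw [Multiset.toFinset_replicate, if_neg hk0.ne', Finset.prod_singleton,
        Multiset.count_replicate_self]
  rw [Perm.nat_card_centralizer, B1_ct hp hz hk, h1, Multiset.sum_replicate,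
    Multiset.prod_replicate, smul_eq_mul, mul_comm k p]

theorem conj_count (hp : p.Prime) {z : Perm α} (hz : z ^ p = 1) (hk : z.support.card = p * k) (h : Perm α) :
    {x : Perm α | x * z * x⁻¹ = h}.ncard ≤ (Fintype.card α - p * k).factorial * p ^ k * k.factorial := by
  rw [← card_centr hp hz hk]
  rcases Set.eq_empty_or_nonempty {x : Perm α | x * z * x⁻¹ = h} with h0 | ⟨x₀, hx₀⟩
  · rw [h0, Set.ncard_empty]
    exact Nat.zero_le _
  · have h1 : {x : Perm α | x * z * x⁻¹ = h} ⊆
        (fun u => x₀ * u) '' (Subgroup.centralizer {z} : Set (Perm α)) := by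
      intro x hx
      refine ⟨x₀⁻¹ * x, ?_, by group⟩
      have e1 : x * z * x⁻¹ = h := hx
      have e2 : x₀ * z * x₀⁻¹ = h := hx₀
      rw [SetLike.mem_coe, Subgroup.mem_centralizer_singleton_iff]
      rw [← e2] at e1
      have e3 : x * z = x₀ * z * x₀⁻¹ * x := by
        rw [← e1]
        group
      rw [mul_assoc, e3]
      group
    refine (Set.ncard_le_ncard h1 (Set.toFinite _)).trans ?_
    refine (Set.ncard_image_le (Set.toFinite _)).trans ?_
    exact le_of_eq (Nat.card_coe_set_eq _).symm

theorem odd_centr (hp : p.Prime) (h1 : 1 ≤ k) {z : Perm α} (hz : z ^ p = 1) (hk : z.support.card = p * k)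
    (hn : ¬ (p ≠ 2 ∧ k = 1 ∧ Fintype.card α < p + 2)) : ∃ u : Perm α, u * z = z * u ∧ Perm.sign u = -1 := by
  by_contra hc
  push Not at hc
  have h2 : Subgroup.centralizer {z} ≤ alternatingGroup α := by
    intro u hu
    rw [Subgroup.mem_centralizer_singleton_iff] at hu
    rw [Perm.mem_alternatingGroup]
    exact (Int.units_eq_one_or (Perm.sign u)).resolve_right (hc u hu)
  rw [Perm.centralizer_le_alternating_iff, B1_ct hp hz hk] at h2
  obtain ⟨h3, h4, h5⟩ := h2
  have h6 : Odd p := h3 p (Multiset.mem_replicate.2 ⟨by omega, rfl⟩)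
  have h7 := h5 p
  rw [Multiset.count_replicate_self] at h7
  have hk1 : k = 1 := by omega
  subst hk1
  rw [Multiset.sum_replicate, smul_eq_mul, one_mul] at h4
  refine hn ⟨?_, rfl, by omega⟩
  rintro rfl
  exact absurd h6 (by decide)

theorem conj_alt (hp : p.Prime) (h1 : 1 ≤ k) {z : Perm α} (hz : z ^ p = 1) (hk : z.support.card = p * k)
    (hza : z ∈ alternatingGroup α) (h : Perm α) :
    2 * {x : Perm α | x ∈ alternatingGroup α ∧ x * z * x⁻¹ = h}.ncard ≤ wt p (Fintype.card α) k := by
  have hpk : ¬ (p = 2 ∧ k % 2 = 1) := by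
    rintro ⟨rfl, hk2⟩
    rw [Perm.mem_alternatingGroup, Perm.sign_of_cycleType, B1_ct hp hz hk, Multiset.sum_replicate,
      Multiset.card_replicate, smul_eq_mul, Odd.neg_one_pow] at hza
    · exact absurd hza (by decide)
    · rw [Nat.odd_iff]
      omega
  have hsub : {x : Perm α | x ∈ alternatingGroup α ∧ x * z * x⁻¹ = h} ⊆
      {x : Perm α | x * z * x⁻¹ = h} := fun x hx => hx.2
  have hcount := conj_count hp hz hk h
  unfold wt
  rw [if_neg hpk]
  by_cases hn : p ≠ 2 ∧ k = 1 ∧ Fintype.card α < p + 2
  · rw [if_pos hn, mul_comm]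
    exact Nat.mul_le_mul_right 2 ((Set.ncard_le_ncard hsub (Set.toFinite _)).trans hcount)
  · rw [if_neg hn, mul_one]
    refine le_trans ?_ hcount
    obtain ⟨u, hu, hu1⟩ := odd_centr hp h1 hz hk hn
    have h2 : ((fun x => x * u) '' {x : Perm α | x ∈ alternatingGroup α ∧ x * z * x⁻¹ = h}) ⊆
        {x : Perm α | x * z * x⁻¹ = h} \ {x : Perm α | x ∈ alternatingGroup α ∧ x * z * x⁻¹ = h} := by
      rintro _ ⟨x, ⟨hx1, hx2⟩, rfl⟩
      refine ⟨?_, ?_⟩
      · show x * u * z * (x * u)⁻¹ = h
        rw [mul_assoc x u z, hu, mul_inv_rev, ← hx2]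
        group
      · rintro ⟨hx3, -⟩
        rw [Perm.mem_alternatingGroup] at hx1 hx3
        rw [Perm.sign_mul, hx1, hu1, one_mul] at hx3
        exact absurd hx3 (by decide)
    have h3 := Set.ncard_le_ncard h2 (Set.toFinite _)
    rw [Set.ncard_image_of_injective _ (mul_left_injective u)] at h3
    have h4 := Set.ncard_sdiff_add_ncard_of_subset hsub (Set.toFinite _)
    omega

end Pool.H77.AN
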