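import Pool.Agent.H77.AN.A5
import Pool.Agent.H77.AN.B1

/-!
Row B2 (project MP_e5a1a5_AN, PI helper77), about 130 lines (uses the STATEMENTS of A5, B1): the number of bad elements for one prime.

PROOF. `P := {a ∈ H | a ^ p = 1, a ≠ 1}`. For a bad `x` (some `a ≠ 1` in `H`, `x a x⁻¹ ∈ H`): a power `a'` of `a` has order `p` (`H` is a `p`-group), and the `p - 1` elements `a' ^ i`, `1 ≤ i < p`, are different, in `P`, with
`x (a' ^ i) x⁻¹ ∈ P`. So `(p - 1) * #bad ≤ #{(x, a) | a ∈ P, x a x⁻¹ ∈ P} = ∑ a ∈ P, ∑ h ∈ P, #{x | x a x⁻¹ = h}`. Split `P` by `k = support.card / p` (`dvd_supp`, A3; `1 ≤ k ≤ n / p`); `x a x⁻¹ = h` needs the same `k`. With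
`H' := H.map (alternatingGroup α).subtype` (a `p`-group, so `nz H' p k ≤ cnt p n k`), `2 * #{x ∈ alternatingGroup | x a x⁻¹ = h} ≤ wt p n k` (`conj_alt`): the total is at most `(1/2) ∑ k, cnt ^ 2 * wt`. `sm_eq` for `Sp`.
-/

set_option autoImplicit false
open scoped Classical

namespace Pool.H77.AN

open Equiv

variable {α : Type} [Fintype α] [DecidableEq α] {p : ℕ}

theorem B2_val_card (s : Finset (alternatingGroup α)) (S : Set (Perm α))
    (h : ∀ x ∈ s, (x : Perm α) ∈ S) : s.card ≤ S.ncard := by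
  have h1 : s.card = (s.map ⟨Subtype.val, Subtype.val_injective⟩).card := (Finset.card_map _).symm
  rw [h1, ← Set.ncard_coe_finset]
  apply Set.ncard_le_ncard _ (Set.toFinite S)
  intro y hy
  rw [Finset.mem_coe, Finset.mem_map] at hy
  obtain ⟨x, hx, rfl⟩ := hy
  exact h x hx

theorem B2_PF (hp : p.Prime) (H : Subgroup (alternatingGroup α)) (hH : IsPGroup p H) (k : ℕ)
    (s : Finset (alternatingGroup α)) (hs : ∀ a ∈ s, a ∈ H ∧ a ^ p = 1 ∧
      (a : Perm α).support.card = p * k) : s.card ≤ cnt p (Fintype.card α) k := by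
  have := Fact.mk hp
  refine le_trans ?_ (nz_le (H.map (alternatingGroup α).subtype) (hH.map _) k)
  apply B2_val_card
  intro x hx
  obtain ⟨h1, h2, h3⟩ := hs x hx
  refine ⟨⟨x, h1, rfl⟩, ?_, h3⟩
  have := congrArg Subtype.val h2
  simpa using this

theorem B2_conj (hp : p.Prime) {k : ℕ} (h1 : 1 ≤ k) {a : alternatingGroup α} (ha : a ^ p = 1)
    (hk : (a : Perm α).support.card = p * k) (h : alternatingGroup α)
    (s : Finset (alternatingGroup α)) (hs : ∀ x ∈ s, x * a * x⁻¹ = h) :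
    2 * s.card ≤ wt p (Fintype.card α) k := by
  have h2 : (a : Perm α) ^ p = 1 := by
    have := congrArg Subtype.val ha
    simpa using this
  refine le_trans (Nat.mul_le_mul_left 2 ?_) (conj_alt hp h1 h2 hk a.2 (h : Perm α))
  apply B2_val_card
  intro x hx
  refine ⟨x.2, ?_⟩
  have := congrArg Subtype.val (hs x hx)
  simpa using this

theorem B2_order {G : Type} [Group G] {p : ℕ} (hp : p.Prime) {H : Subgroup G}
    (hH : IsPGroup p H) {a x : G} (ha : a ∈ H) (hx : x * a * x⁻¹ ∈ H) (h1 : a ≠ 1) :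
    ∃ b ∈ H, x * b * x⁻¹ ∈ H ∧ orderOf b = p := by
  have := Fact.mk hp
  obtain ⟨m, hm⟩ := IsPGroup.iff_orderOf.1 hH ⟨a, ha⟩
  have hm' : orderOf a = p ^ m := by
    rw [← hm, ← Subgroup.orderOf_coe]
  have hm0 : m ≠ 0 := by
    rintro rfl
    rw [pow_zero, orderOf_eq_one_iff] at hm'
    exact h1 hm'
  obtain ⟨m', rfl⟩ : ∃ m', m = m' + 1 := ⟨m - 1, by omega⟩
  refine ⟨a ^ p ^ m', pow_mem ha _, ?_, ?_⟩
  · rw [← conj_pow]
    exact pow_mem hx _
  · rw [orderOf_pow_of_dvd (pow_ne_zero _ hp.ne_zero) (by rw [hm']; exact pow_dvd_pow p (by omega)),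
      hm', pow_succ, Nat.mul_div_cancel_left _ (pow_pos hp.pos _)]

theorem B2_many {G : Type} [Group G] {p : ℕ} (hp : p.Prime) {H : Subgroup G}
    (hH : IsPGroup p H) {a x : G} (ha : a ∈ H) (hx : x * a * x⁻¹ ∈ H) (h1 : a ≠ 1) (T : Finset G)
    (hT : ∀ c, c ∈ H → c ^ p = 1 → c ≠ 1 → x * c * x⁻¹ ∈ H → (x * c * x⁻¹) ^ p = 1 →
      x * c * x⁻¹ ≠ 1 → c ∈ T) : p - 1 ≤ T.card := by
  obtain ⟨b, hb, hxb, hob⟩ := B2_order hp hH ha hx h1
  have h2 : (Finset.Ico 1 p).card = p - 1 := Nat.card_Ico 1 p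
  rw [← h2]
  have hbp : b ^ p = 1 := by
    rw [← hob]
    exact pow_orderOf_eq_one b
  have hne : ∀ i, 1 ≤ i → i < p → b ^ i ≠ 1 := by
    intro i hi hip
    exact pow_ne_one_of_lt_orderOf (by omega) (by rw [hob]; exact hip)
  apply Finset.card_le_card_of_injOn (fun i => b ^ i)
  · intro i hi
    rw [Finset.mem_coe, Finset.mem_Ico] at hi
    have e1 : (b ^ i) ^ p = 1 := by
      rw [← pow_mul, mul_comm, pow_mul, hbp, one_pow]
    have e2 : x * b ^ i * x⁻¹ ∈ H := by
      rw [← conj_pow]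
      exact pow_mem hxb _
    have e3 : (x * b ^ i * x⁻¹) ^ p = 1 := by
      rw [conj_pow, e1, mul_one, mul_inv_cancel]
    have e4 : x * b ^ i * x⁻¹ ≠ 1 := by
      intro h3
      apply hne i hi.1 hi.2
      have h4 := congrArg (fun z => x⁻¹ * z * x) h3
      simpa [mul_assoc] using h4
    exact hT _ (pow_mem hb _) e1 (hne i hi.1 hi.2) e2 e3 e4
  · intro i hi j hj hij
    rw [Finset.mem_coe, Finset.mem_Ico] at hi hj
    exact pow_injOn_Iio_orderOf (by rw [Set.mem_Iio, hob]; exact hi.2)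
      (by rw [Set.mem_Iio, hob]; exact hj.2) hij

/-- The elements of order `p` of `H`. -/
noncomputable def B2P (H : Subgroup (alternatingGroup α)) (p : ℕ) :
    Finset (alternatingGroup α) :=
  Finset.univ.filter (fun c : alternatingGroup α => c ∈ H ∧ c ^ p = 1 ∧ c ≠ 1)

theorem mem_B2P {H : Subgroup (alternatingGroup α)} {c : alternatingGroup α} :
    c ∈ B2P H p ↔ c ∈ H ∧ c ^ p = 1 ∧ c ≠ 1 := by
  unfold B2P
  rw [Finset.mem_filter]
  exact ⟨fun h => h.2, fun h => ⟨Finset.mem_univ _, h⟩⟩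

/-- The elements of order `p` of `H` with `p * k` moved points. -/
noncomputable def B2F (H : Subgroup (alternatingGroup α)) (p k : ℕ) :
    Finset (alternatingGroup α) :=
  (B2P H p).filter (fun c : alternatingGroup α => (c : Perm α).support.card = p * k)

theorem mem_B2F {H : Subgroup (alternatingGroup α)} {k : ℕ} {c : alternatingGroup α} :
    c ∈ B2F H p k ↔ c ∈ B2P H p ∧ (c : Perm α).support.card = p * k := by
  unfold B2F
  exact Finset.mem_filter

/-- The `x` which conjugate `a` into `s`. -/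
noncomputable def B2X (s : Finset (alternatingGroup α)) (a : alternatingGroup α) :
    Finset (alternatingGroup α) :=
  Finset.univ.filter (fun x : alternatingGroup α => x * a * x⁻¹ ∈ s)

theorem mem_B2X {s : Finset (alternatingGroup α)} {a x : alternatingGroup α} :
    x ∈ B2X s a ↔ x * a * x⁻¹ ∈ s := by
  unfold B2X
  rw [Finset.mem_filter]
  exact ⟨fun h => h.2, fun h => ⟨Finset.mem_univ _, h⟩⟩

theorem B2_k (hp : p.Prime) {H : Subgroup (alternatingGroup α)} {a : alternatingGroup α}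
    (ha : a ∈ B2P H p) :
    ∃ k, 1 ≤ k ∧ k ≤ Fintype.card α / p ∧ (a : Perm α).support.card = p * k := by
  obtain ⟨h1, h2, h3⟩ := mem_B2P.1 ha
  have h4 : (a : Perm α) ^ p = 1 := by
    have := congrArg Subtype.val h2
    simpa using this
  obtain ⟨k, hk⟩ := dvd_supp hp h4
  refine ⟨k, ?_, ?_, hk⟩
  · rcases Nat.eq_zero_or_pos k with h5 | h5
    · exfalso
      rw [h5, mul_zero, Finset.card_eq_zero, Perm.support_eq_empty_iff] at hk
      exact h3 (Subtype.ext hk)
    · exact h5
  · rw [Nat.le_div_iff_mul_le hp.pos, mul_comm, ← hk]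
    exact Finset.card_le_univ _

theorem B2_fa (hp : p.Prime) {H : Subgroup (alternatingGroup α)} {a : alternatingGroup α}
    (ha : a ∈ B2P H p) {k : ℕ} (h1 : 1 ≤ k) (hka : (a : Perm α).support.card = p * k) :
    2 * (B2X (B2P H p) a).card ≤ (B2F H p k).card * wt p (Fintype.card α) k := by
  classical
  have h2 : B2X (B2P H p) a ⊆ (B2F H p k).biUnion (fun h => B2X {h} a) := by
    intro x hx
    have h3 := mem_B2X.1 hx
    refine Finset.mem_biUnion.2 ⟨x * a * x⁻¹, mem_B2F.2 ⟨h3, ?_⟩,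
      mem_B2X.2 (Finset.mem_singleton_self _)⟩
    rw [← hka]
    exact Perm.card_support_conj
  have h3 := (Finset.card_le_card h2).trans Finset.card_biUnion_le
  calc 2 * (B2X (B2P H p) a).card
      ≤ 2 * ∑ h ∈ B2F H p k, (B2X {h} a).card := Nat.mul_le_mul_left 2 h3
    _ = ∑ h ∈ B2F H p k, 2 * (B2X {h} a).card := Finset.mul_sum _ _ _
    _ ≤ ∑ h ∈ B2F H p k, wt p (Fintype.card α) k := Finset.sum_le_sum fun h _ =>
        B2_conj hp h1 (mem_B2P.1 ha).2.1 hka h _
          (fun x hx => Finset.mem_singleton.1 (mem_B2X.1 hx))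
    _ = (B2F H p k).card * wt p (Fintype.card α) k := by rw [Finset.sum_const, smul_eq_mul]

theorem B2_up (hp : p.Prime) (H : Subgroup (alternatingGroup α)) (hH : IsPGroup p H) :
    2 * ∑ a ∈ B2P H p, (B2X (B2P H p) a).card ≤ Sp p (Fintype.card α) := by
  classical
  have hdiv : ∀ a : alternatingGroup α, ∀ k, (a : Perm α).support.card = p * k →
      (a : Perm α).support.card / p = k := by
    intro a k h
    rw [h, Nat.mul_div_cancel_left _ hp.pos]
  rw [Sp, sm_eq, Finset.mul_sum, ← Finset.sum_fiberwise_of_maps_to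
    (g := fun a : alternatingGroup α => (a : Perm α).support.card / p)
    (t := Finset.range (Fintype.card α / p + 1))]
  · apply Finset.sum_le_sum
    intro k _
    have hsub : (B2P H p).filter (fun a : alternatingGroup α =>
        (a : Perm α).support.card / p = k) ⊆ B2F H p k := by
      intro a ha
      obtain ⟨ha1, ha2⟩ := Finset.mem_filter.1 ha
      obtain ⟨k', hk1, -, hk3⟩ := B2_k hp ha1
      have h5 := hdiv a k' hk3
      refine mem_B2F.2 ⟨ha1, ?_⟩
      rw [hk3]
      congr 1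
      omega
    by_cases hk0 : k = 0
    · rw [if_pos hk0, Nat.le_zero]
      apply Finset.sum_eq_zero
      intro a ha
      exfalso
      obtain ⟨ha1, ha2⟩ := Finset.mem_filter.1 ha
      obtain ⟨k', hk1, -, hk3⟩ := B2_k hp ha1
      have := hdiv a k' hk3
      omega
    · rw [if_neg hk0]
      have hFc : (B2F H p k).card ≤ cnt p (Fintype.card α) k := by
        apply B2_PF hp H hH k
        intro a ha
        obtain ⟨h1, h2⟩ := mem_B2F.1 ha
        obtain ⟨h3, h4, -⟩ := mem_B2P.1 h1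
        exact ⟨h3, h4, h2⟩
      calc ∑ a ∈ (B2P H p).filter (fun a : alternatingGroup α =>
            (a : Perm α).support.card / p = k), 2 * (B2X (B2P H p) a).card
          ≤ ∑ a ∈ (B2P H p).filter (fun a : alternatingGroup α =>
            (a : Perm α).support.card / p = k),
              (B2F H p k).card * wt p (Fintype.card α) k := by
            apply Finset.sum_le_sum
            intro a ha
            obtain ⟨b1, b2⟩ := mem_B2F.1 (hsub ha)
            exact B2_fa hp b1 (by omega) b2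
        _ = ((B2P H p).filter (fun a : alternatingGroup α =>
            (a : Perm α).support.card / p = k)).card *
              ((B2F H p k).card * wt p (Fintype.card α) k) := by
            rw [Finset.sum_const, smul_eq_mul]
        _ ≤ (B2F H p k).card * ((B2F H p k).card * wt p (Fintype.card α) k) :=
            Nat.mul_le_mul_right _ (Finset.card_le_card hsub)
        _ = (B2F H p k).card ^ 2 * wt p (Fintype.card α) k := by ring
        _ ≤ cnt p (Fintype.card α) k ^ 2 * wt p (Fintype.card α) k :=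
            Nat.mul_le_mul_right _ (Nat.pow_le_pow_left hFc 2)
  · intro a ha
    obtain ⟨k, hk1, hk2, hk3⟩ := B2_k hp ha
    rw [hdiv a k hk3, Finset.mem_range]
    omega

theorem B2_low (hp : p.Prime) (H : Subgroup (alternatingGroup α)) (hH : IsPGroup p H)
    (Bad : Finset (alternatingGroup α))
    (hB : ∀ x ∈ Bad, ∃ a ∈ H, x * a * x⁻¹ ∈ H ∧ a ≠ 1) :
    (p - 1) * Bad.card ≤ ∑ a ∈ B2P H p, (B2X (B2P H p) a).card := by
  classical
  have e1 : ∑ a ∈ B2P H p, (B2X (B2P H p) a).card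
      = ∑ x : alternatingGroup α, ((B2P H p).filter (fun a => x * a * x⁻¹ ∈ B2P H p)).card := by
    unfold B2X
    simp_rw [Finset.card_filter]
    exact Finset.sum_comm
  rw [e1]
  calc (p - 1) * Bad.card = ∑ x ∈ Bad, (p - 1) := by
        rw [Finset.sum_const, smul_eq_mul, mul_comm]
    _ ≤ ∑ x ∈ Bad, ((B2P H p).filter (fun a => x * a * x⁻¹ ∈ B2P H p)).card := by
        apply Finset.sum_le_sum
        intro x hx
        obtain ⟨a, ha, hxa, ha1⟩ := hB x hx
        apply B2_many hp hH ha hxa ha1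
        intro c c1 c2 c3 c4 c5 c6
        exact Finset.mem_filter.2 ⟨mem_B2P.2 ⟨c1, c2, c3⟩, mem_B2P.2 ⟨c4, c5, c6⟩⟩
    _ ≤ _ := Finset.sum_le_sum_of_subset (Finset.subset_univ _)

theorem bad_count (hp : p.Prime) (H : Subgroup (alternatingGroup α)) (hH : IsPGroup p H) :
    2 * (p - 1) * {x : alternatingGroup α | ∃ a ∈ H, x * a * x⁻¹ ∈ H ∧ a ≠ 1}.ncard ≤
      Sp p (Fintype.card α) := by
  classical
  have hfin : {x : alternatingGroup α | ∃ a ∈ H, x * a * x⁻¹ ∈ H ∧ a ≠ 1}.Finite :=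
    Set.toFinite _
  rw [Set.ncard_eq_toFinset_card _ hfin]
  have h1 := B2_low hp H hH hfin.toFinset (fun x hx => hfin.mem_toFinset.1 hx)
  have h2 := B2_up hp H hH
  calc 2 * (p - 1) * hfin.toFinset.card = 2 * ((p - 1) * hfin.toFinset.card) := by ring
    _ ≤ 2 * ∑ a ∈ B2P H p, (B2X (B2P H p) a).card := Nat.mul_le_mul_left 2 h1
    _ ≤ _ := h2

end Pool.H77.AN
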