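import Pool.Agent.H77.AN.Df

/-!
Row B3 (project MP_e5a1a5_AN, PI helper77), about 80 lines: the union bound.

PROOF. `Nat.card (alternatingGroup α) = n! / 2` (`two_mul_nat_card_alternatingGroup` or `nat_card_alternatingGroup`, `n ≥ 2`). For the primes `q > n` (and `q ∤ n!`) the Sylow subgroup is trivial: `q ∤ card`, `Sylow` of order `q ^ 0`
(`Sylow.card_eq_multiplicity`, `Nat.factorization_eq_zero_of_not_dvd`, `Nat.Prime.dvd_factorial`). The union of the bad sets of the primes `p ≤ n` has at most `∑ b p < card` elements, so some `x` is outside.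
-/

set_option autoImplicit false
open scoped Classical

namespace Pool.H77.AN

open Equiv

variable {α : Type} [Fintype α] [DecidableEq α]

theorem good_of_bounds (hn : 2 ≤ Fintype.card α) (b : ℕ → ℕ)
    (hb : ∀ p, p.Prime → p ≤ Fintype.card α → ∀ S : Sylow p (alternatingGroup α),
      {x : alternatingGroup α | ∃ a ∈ (S : Subgroup (alternatingGroup α)),
        x * a * x⁻¹ ∈ (S : Subgroup (alternatingGroup α)) ∧ a ≠ 1}.ncard ≤ b p)
    (hs : ∑ p ∈ (Finset.range (Fintype.card α + 1)).filter Nat.Prime, b p <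
      (Fintype.card α).factorial / 2) : Good α := by
  have : Nontrivial α := Fintype.one_lt_card_iff_nontrivial.1 (by omega)
  have hcardA := nat_card_alternatingGroup (α := α)
  rw [Nat.card_eq_fintype_card (α := α)] at hcardA
  intro S
  have key : ∃ bad : ℕ → Set (alternatingGroup α), ∀ (p : ℕ) (h : Nat.Prime p), bad p =
      {x : alternatingGroup α | ∃ a ∈ (S ⟨p, h⟩ : Subgroup (alternatingGroup α)),
        x * a * x⁻¹ ∈ (S ⟨p, h⟩ : Subgroup (alternatingGroup α)) ∧ a ≠ 1} := by
    refine ⟨fun p => if h : p.Prime then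
      {x : alternatingGroup α | ∃ a ∈ (S ⟨p, h⟩ : Subgroup (alternatingGroup α)),
        x * a * x⁻¹ ∈ (S ⟨p, h⟩ : Subgroup (alternatingGroup α)) ∧ a ≠ 1} else ∅, fun p h => ?_⟩
    exact dif_pos h
  obtain ⟨bad, hbd⟩ := key
  have hU : (⋃ p ∈ (Finset.range (Fintype.card α + 1)).filter Nat.Prime, bad p).ncard ≤
      ∑ p ∈ (Finset.range (Fintype.card α + 1)).filter Nat.Prime, b p := by
    refine (Finset.set_ncard_biUnion_le _ _).trans (Finset.sum_le_sum fun p hp => ?_)
    rw [Finset.mem_filter, Finset.mem_range] at hp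
    rw [hbd p hp.2]
    exact hb p hp.2 (by omega) (S ⟨p, hp.2⟩)
  have hne : (⋃ p ∈ (Finset.range (Fintype.card α + 1)).filter Nat.Prime, bad p) ≠ Set.univ := by
    intro h
    rw [h, Set.ncard_univ, hcardA] at hU
    omega
  obtain ⟨x, hx⟩ := (Set.ne_univ_iff_exists_notMem _).1 hne
  refine ⟨x, fun q a ha hxa => ?_⟩
  by_contra ha1
  by_cases hq : (q : ℕ) ≤ Fintype.card α
  · apply hx
    simp only [Set.mem_iUnion]
    refine ⟨q, Finset.mem_filter.2 ⟨Finset.mem_range.2 (by omega), q.2⟩, ?_⟩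
    rw [hbd q q.2]
    exact ⟨a, ha, hxa, ha1⟩
  · have : Fact (q : ℕ).Prime := ⟨q.2⟩
    have hcard : Nat.card (S q) = 1 := by
      rw [Sylow.card_eq_multiplicity, Nat.factorization_eq_zero_of_not_dvd, pow_zero]
      rw [hcardA]
      intro hd
      have h2 : 2 ∣ (Fintype.card α).factorial := Nat.dvd_factorial (by norm_num) hn
      have h3 : (q : ℕ) ∣ (Fintype.card α).factorial := hd.trans (Nat.div_dvd_of_dvd h2)
      rw [q.2.dvd_factorial] at h3
      exact hq h3
    have hbot : ((S q : Sylow (q : ℕ) (alternatingGroup α)) : Subgroup (alternatingGroup α)) = ⊥ :=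
      Subgroup.eq_bot_of_card_eq _ hcard
    rw [hbot] at ha
    exact ha1 (Subgroup.mem_bot.1 ha)

end Pool.H77.AN
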