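import Pool.Agent.H77.AN.Dg
import Pool.Agent.H77.AN.A5
import Pool.Agent.H77.AN.B1

/-!
Row B4 (project MP_e5a1a5_AN, PI helper77), about 130 lines (uses the STATEMENTS of A5, B1): the count and the union bound in the symmetric group.

`bad_countS`: `P := {a ∈ H | a ^ p = 1, a ≠ 1}`. For a bad `x` (some `a ≠ 1` in `H`, `x a x⁻¹ ∈ H`) a power `a'` of `a` has order `p` (`H` is a `p`-group), and the `p - 1` elements `a' ^ i`, `1 ≤ i < p`, are different, in `P`, with
`x (a' ^ i) x⁻¹ ∈ P`. So `(p - 1) * #bad ≤ #{(x, a) | a ∈ P, x a x⁻¹ ∈ P} = ∑ a ∈ P, ∑ h ∈ P, #{x | x a x⁻¹ = h}`. Split `P` by `k = support.card / p` (`dvd_supp`, A3; `1 ≤ k ≤ n / p`); `x a x⁻¹ = h` needs the same `k`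
(`Equiv.Perm.card_support_conj`). `nz_le` and `conj_count`: the total is at most `∑ k, cnt ^ 2 * ((n - p k)! p ^ k k!)` (`SpS_eq`).
`goodS_of_bounds`: for the primes `q > n` (`q ∤ n! = Nat.card (Perm α)`) the Sylow subgroup is trivial (`Sylow.card_eq_multiplicity`, `Nat.Prime.dvd_factorial`); the union of the bad sets of the primes `p ≤ n` has at most `∑ b p < n!` elements.
-/

set_option autoImplicit false
open scoped Classical

namespace Pool.H77.AN

open Equiv

variable {α : Type} [Fintype α] [DecidableEq α] {p : ℕ}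

theorem conj_card_B4 (hp : p.Prime) {k : ℕ} {z : Perm α} (hz : z ^ p = 1) (hk : z.support.card = p * k)
    (h : Perm α) : (Finset.univ.filter fun x : Perm α => x * z * x⁻¹ = h).card ≤
      (Fintype.card α - p * k).factorial * p ^ k * k.factorial := by
  have h1 := conj_count hp hz hk h
  have e : {x : Perm α | x * z * x⁻¹ = h} =
      ((Finset.univ.filter fun x : Perm α => x * z * x⁻¹ = h : Finset (Perm α)) : Set (Perm α)) := by
    ext x
    simp
  rw [e, Set.ncard_coe_finset] at h1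
  exact h1

/-- a bad `x` has `p - 1` elements of order `p` -/
theorem bad_ge_B4 (hp : p.Prime) (H : Subgroup (Perm α)) (hH : IsPGroup p H) {x : Perm α}
    (hx : ∃ a ∈ H, x * a * x⁻¹ ∈ H ∧ a ≠ 1) :
    p - 1 ≤ ((Finset.univ.filter fun a : Perm α => a ∈ H ∧ a ^ p = 1 ∧ a ≠ 1).filter
      fun a => x * a * x⁻¹ ∈ (Finset.univ.filter fun a : Perm α => a ∈ H ∧ a ^ p = 1 ∧ a ≠ 1)).card := by
  obtain ⟨a, ha, hxa, ha1⟩ := hx
  have hpf : Fact p.Prime := ⟨hp⟩
  obtain ⟨m, hm⟩ := (IsPGroup.iff_orderOf.1 hH) ⟨a, ha⟩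
  rw [Subgroup.orderOf_mk] at hm
  have hm0 : m ≠ 0 := by
    rintro rfl
    rw [pow_zero, orderOf_eq_one_iff] at hm
    exact ha1 hm
  obtain ⟨m', rfl⟩ : ∃ m', m = m' + 1 := ⟨m - 1, by omega⟩
  obtain ⟨c, hc⟩ : ∃ c, c = a ^ (p ^ m') := ⟨_, rfl⟩
  have hoc : orderOf c = p := by
    rw [hc]
    have h1 : orderOf (a ^ (p ^ m')) = orderOf a / p ^ m' := by
      apply orderOf_pow_of_dvd
      · exact pow_ne_zero _ hp.ne_zero
      · rw [hm, pow_succ]
        exact Dvd.intro _ rfl
    rw [h1, hm, pow_succ, Nat.mul_div_cancel_left _ (pow_pos hp.pos _)]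
  have hcp : c ^ p = 1 := by
    rw [← hoc]
    exact pow_orderOf_eq_one c
  have hcH : c ∈ H := by
    rw [hc]
    exact H.pow_mem ha _
  have hxc : x * c * x⁻¹ ∈ H := by
    rw [hc, ← conj_pow]
    exact H.pow_mem hxa _
  have hinj : Set.InjOn (fun i : ℕ => c ^ (i + 1)) (Finset.range (p - 1)) := by
    intro i hi j hj hij
    have hi' : i < p - 1 := by simpa using hi
    have hj' : j < p - 1 := by simpa using hj
    have h1 : i + 1 = j + 1 := by
      apply pow_injOn_Iio_orderOf (x := c)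
      · rw [hoc]
        exact Set.mem_Iio.2 (by omega)
      · rw [hoc]
        exact Set.mem_Iio.2 (by omega)
      · exact hij
    omega
  have h1 : (Finset.image (fun i : ℕ => c ^ (i + 1)) (Finset.range (p - 1))).card = p - 1 := by
    rw [Finset.card_image_of_injOn hinj, Finset.card_range]
  rw [← h1]
  apply Finset.card_le_card
  intro y hy
  rw [Finset.mem_image] at hy
  obtain ⟨i, hi, rfl⟩ := hy
  rw [Finset.mem_range] at hi
  have hne : c ^ (i + 1) ≠ 1 := by
    intro h
    have := orderOf_dvd_of_pow_eq_one h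
    rw [hoc] at this
    have := Nat.le_of_dvd (by omega) this
    omega
  have hpo : (c ^ (i + 1)) ^ p = 1 := by
    rw [← pow_mul, mul_comm, pow_mul, hcp, one_pow]
  rw [Finset.mem_filter, Finset.mem_filter, Finset.mem_filter]
  refine ⟨⟨Finset.mem_univ _, H.pow_mem hcH _, hpo, hne⟩, Finset.mem_univ _, ?_, ?_, ?_⟩
  · rw [← conj_pow]
    exact H.pow_mem hxc _
  · rw [conj_pow, hpo]
    simp
  · intro h
    apply hne
    have h2 : c ^ (i + 1) = x⁻¹ * (x * c ^ (i + 1) * x⁻¹) * x := by group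
    rw [h2, h]
    group

theorem bad_countS (hp : p.Prime) (H : Subgroup (Perm α)) (hH : IsPGroup p H) :
    (p - 1) * {x : Perm α | ∃ a ∈ H, x * a * x⁻¹ ∈ H ∧ a ≠ 1}.ncard ≤ SpS p (Fintype.card α) := by
  have hpf : Fact p.Prime := ⟨hp⟩
  obtain ⟨P, hP⟩ : ∃ P : Finset (Perm α), P = Finset.univ.filter fun a : Perm α => a ∈ H ∧ a ^ p = 1 ∧ a ≠ 1 :=
    ⟨_, rfl⟩
  obtain ⟨B, hB⟩ : ∃ B : Finset (Perm α), B = Finset.univ.filter fun x : Perm α =>
      ∃ a ∈ H, x * a * x⁻¹ ∈ H ∧ a ≠ 1 := ⟨_, rfl⟩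
  have eB : {x : Perm α | ∃ a ∈ H, x * a * x⁻¹ ∈ H ∧ a ≠ 1} = (B : Set (Perm α)) := by
    ext x
    rw [hB]
    simp
  rw [eB, Set.ncard_coe_finset]
  have hmP : ∀ a, a ∈ P ↔ a ∈ H ∧ a ^ p = 1 ∧ a ≠ 1 := by
    intro a
    rw [hP, Finset.mem_filter]
    exact ⟨fun h => h.2, fun h => ⟨Finset.mem_univ _, h⟩⟩
  -- claim 1
  have c1 : (p - 1) * B.card ≤ ∑ x : Perm α, (P.filter fun a => x * a * x⁻¹ ∈ P).card := by
    calc (p - 1) * B.card = ∑ _x ∈ B, (p - 1) := by rw [Finset.sum_const, smul_eq_mul, mul_comm]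
      _ ≤ ∑ x ∈ B, (P.filter fun a => x * a * x⁻¹ ∈ P).card := by
          refine Finset.sum_le_sum fun x hx => ?_
          rw [hB, Finset.mem_filter] at hx
          have := bad_ge_B4 hp H hH hx.2
          rw [hP]
          exact this
      _ ≤ ∑ x : Perm α, (P.filter fun a => x * a * x⁻¹ ∈ P).card :=
          Finset.sum_le_sum_of_subset (Finset.subset_univ _)
  -- claim 2
  have c2 : ∑ x : Perm α, (P.filter fun a => x * a * x⁻¹ ∈ P).card =
      ∑ a ∈ P, ∑ h ∈ P, (Finset.univ.filter fun x : Perm α => x * a * x⁻¹ = h).card := by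
    have e1 : ∀ x : Perm α, (P.filter fun a => x * a * x⁻¹ ∈ P).card =
        ∑ a ∈ P, ∑ h ∈ P, if x * a * x⁻¹ = h then 1 else 0 := by
      intro x
      rw [Finset.card_filter]
      refine Finset.sum_congr rfl fun a _ => ?_
      rw [Finset.sum_ite_eq]
    rw [Finset.sum_congr rfl fun x _ => e1 x, Finset.sum_comm]
    refine Finset.sum_congr rfl fun a _ => ?_
    rw [Finset.sum_comm]
    refine Finset.sum_congr rfl fun h _ => ?_
    rw [Finset.card_filter]
  refine (c1.trans (le_of_eq c2)).trans ?_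
  rw [SpS_eq]
  have hk : ∀ a ∈ P, a.support.card = p * (a.support.card / p) ∧
      a.support.card / p ∈ Finset.Icc 1 (Fintype.card α / p) := by
    intro a ha
    rw [hmP] at ha
    have h1 := dvd_supp hp ha.2.1
    have h2 := Nat.mul_div_cancel' h1
    have h3 : a.support.card ≤ Fintype.card α := Finset.card_le_univ _
    have h4 : 0 < a.support.card := by
      rw [Finset.card_pos]
      rw [Finset.nonempty_iff_ne_empty]
      intro h
      exact ha.2.2 (Perm.support_eq_empty_iff.1 h)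
    refine ⟨h2.symm, Finset.mem_Icc.2 ⟨?_, Nat.div_le_div_right h3⟩⟩
    rw [Nat.one_le_iff_ne_zero]
    intro h5
    rw [h5, mul_zero] at h2
    omega
  rw [← Finset.sum_fiberwise_of_maps_to (g := fun a : Perm α => a.support.card / p)
    (t := Finset.Icc 1 (Fintype.card α / p)) (fun a ha => (hk a ha).2)]
  refine Finset.sum_le_sum fun k _ => ?_
  -- the class k
  have hcard : (P.filter fun a => a.support.card / p = k).card ≤ cnt p (Fintype.card α) k := by
    refine le_trans ?_ (nz_le H hH k)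
    unfold nz
    rw [← Set.ncard_coe_finset]
    refine Set.ncard_le_ncard ?_ (Set.toFinite _)
    intro a ha
    rw [Finset.mem_coe, Finset.mem_filter] at ha
    have h1 := (hmP a).1 ha.1
    refine ⟨h1.1, h1.2.1, ?_⟩
    rw [← ha.2]
    exact (hk a ha.1).1
  obtain ⟨c, hc⟩ : ∃ c, c = (Fintype.card α - p * k).factorial * p ^ k * k.factorial := ⟨_, rfl⟩
  rw [← hc]
  have h3 : ∀ a ∈ P.filter (fun a => a.support.card / p = k),
      ∑ h ∈ P, (Finset.univ.filter fun x : Perm α => x * a * x⁻¹ = h).card ≤ cnt p (Fintype.card α) k * c := by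
    intro a ha
    rw [Finset.mem_filter] at ha
    have h4 : ∑ h ∈ P, (Finset.univ.filter fun x : Perm α => x * a * x⁻¹ = h).card =
        ∑ h ∈ P.filter (fun a => a.support.card / p = k),
          (Finset.univ.filter fun x : Perm α => x * a * x⁻¹ = h).card := by
      symm
      apply Finset.sum_filter_of_ne
      intro h hh hne
      obtain ⟨x, hx⟩ := Finset.card_pos.1 (Nat.pos_of_ne_zero hne)
      rw [Finset.mem_filter] at hx
      rw [← hx.2, Perm.card_support_conj]
      exact ha.2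
    rw [h4]
    have h5 : ∑ h ∈ P.filter (fun a => a.support.card / p = k),
        (Finset.univ.filter fun x : Perm α => x * a * x⁻¹ = h).card ≤
        ∑ _h ∈ P.filter (fun a => a.support.card / p = k), c := by
      refine Finset.sum_le_sum fun h _ => ?_
      rw [hc]
      refine conj_card_B4 hp ((hmP a).1 ha.1).2.1 ?_ h
      rw [← ha.2]
      exact (hk a ha.1).1
    rw [Finset.sum_const, smul_eq_mul] at h5
    exact h5.trans (Nat.mul_le_mul_right c hcard)
  refine (Finset.sum_le_sum h3).trans ?_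
  rw [Finset.sum_const, smul_eq_mul, pow_two, mul_assoc]
  exact Nat.mul_le_mul_right _ hcard

theorem goodS_of_bounds (b : ℕ → ℕ)
    (hb : ∀ p, p.Prime → p ≤ Fintype.card α → ∀ S : Sylow p (Perm α),
      {x : Perm α | ∃ a ∈ (S : Subgroup (Perm α)), x * a * x⁻¹ ∈ (S : Subgroup (Perm α)) ∧ a ≠ 1}.ncard ≤ b p)
    (hs : ∑ p ∈ (Finset.range (Fintype.card α + 1)).filter Nat.Prime, b p <
      (Fintype.card α).factorial) : GoodS α := by
  intro S
  by_contra hcon
  push Not at hcon
  obtain ⟨F, hF⟩ : ∃ F : ℕ → Finset (Perm α), F = fun p => Finset.univ.filter fun x : Perm α =>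
      ∃ hp : p.Prime, ∃ a ∈ (S ⟨p, hp⟩ : Subgroup (Perm α)), x * a * x⁻¹ ∈ (S ⟨p, hp⟩ : Subgroup (Perm α)) ∧
        a ≠ 1 := ⟨_, rfl⟩
  have h1 : ∀ p ∈ (Finset.range (Fintype.card α + 1)).filter Nat.Prime, (F p).card ≤ b p := by
    intro p hp
    rw [Finset.mem_filter, Finset.mem_range] at hp
    have h2 := hb p hp.2 (by omega) (S ⟨p, hp.2⟩)
    rw [← Set.ncard_coe_finset]
    refine le_trans ?_ h2
    refine Set.ncard_le_ncard ?_ (Set.toFinite _)
    intro x hx
    rw [hF, Finset.mem_coe, Finset.mem_filter] at hx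
    obtain ⟨_, _, h3⟩ := hx
    exact h3
  have h2 : (Finset.univ : Finset (Perm α)) ⊆
      ((Finset.range (Fintype.card α + 1)).filter Nat.Prime).biUnion F := by
    intro x _
    obtain ⟨q, a, ha, hxa, ha1⟩ := hcon x
    have hq : (q : ℕ).Prime := q.2
    have hqn : (q : ℕ) ≤ Fintype.card α := by
      by_contra hlt
      push Not at hlt
      have hpf : Fact (q : ℕ).Prime := ⟨hq⟩
      have h3 := Sylow.card_eq_multiplicity (S q)
      rw [Nat.card_eq_fintype_card (α := Perm α), Fintype.card_perm,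
        Nat.factorization_eq_zero_of_not_dvd (fun h => by
          have := (Nat.Prime.dvd_factorial hq).1 h
          omega), pow_zero] at h3
      have h4 : (S q : Subgroup (Perm α)) = ⊥ := Subgroup.eq_bot_of_card_eq _ h3
      rw [h4, Subgroup.mem_bot] at ha
      exact ha1 ha
    rw [Finset.mem_biUnion]
    refine ⟨q, Finset.mem_filter.2 ⟨Finset.mem_range.2 (by omega), hq⟩, ?_⟩
    rw [hF, Finset.mem_filter]
    exact ⟨Finset.mem_univ _, hq, a, ha, hxa, ha1⟩
  have h3 := Finset.card_le_card h2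
  rw [Finset.card_univ, Fintype.card_perm] at h3
  have h4 := h3.trans Finset.card_biUnion_le
  have h5 := h4.trans (Finset.sum_le_sum h1)
  omega

end Pool.H77.AN
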