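import Pool.Agent.H77.AN.Dg

/-!
Project MP_e5a1a5_AN: the inequalities for `n ≤ 63` by kernel arithmetic.
-/

set_option autoImplicit false

namespace Pool.H77.AN

/-- `∑ p ∈ [2, n], Sp p n / (2 (p - 1))` -/
def tot (n : ℕ) : ℕ := sm (fun p => if p < 2 then 0 else Sp p n / (2 * (p - 1))) n

/-- `∑ p ∈ [2, n], SpS p n / (p - 1)` -/
def totS (n : ℕ) : ℕ := sm (fun p => if p < 2 then 0 else SpS p n / (p - 1)) n

theorem tot_lt (n : ℕ) (h : n = 7 ∨ 9 ≤ n) (h' : n ≤ 63) : tot n < n.factorial / 2 := by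
  have key : ∀ n ∈ 7 :: (List.range 55).map (· + 9), tot n < n.factorial / 2 := by
    decide +kernel
  refine key n ?_
  rcases h with rfl | h
  · simp
  · refine List.mem_cons_of_mem _ (List.mem_map.2 ⟨n - 9, List.mem_range.2 (by omega), by omega⟩)

theorem totS_lt (n : ℕ) (h : n = 7 ∨ n = 11 ∨ n = 13 ∨ n = 15 ∨ 17 ≤ n) (h' : n ≤ 63) :
    totS n < n.factorial := by
  have key : ∀ n ∈ 7 :: 11 :: 13 :: 15 :: (List.range 47).map (· + 17), totS n < n.factorial := by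
    decide +kernel
  refine key n ?_
  rcases h with rfl | rfl | rfl | rfl | h
  · simp
  · simp
  · simp
  · simp
  · refine List.mem_cons_of_mem _ (List.mem_cons_of_mem _ (List.mem_cons_of_mem _
      (List.mem_cons_of_mem _ (List.mem_map.2 ⟨n - 17, List.mem_range.2 (by omega), by omega⟩))))

theorem sum_lt (n : ℕ) (h : n = 7 ∨ 9 ≤ n) (h' : n ≤ 63) :
    ∑ p ∈ (Finset.range (n + 1)).filter Nat.Prime, Sp p n / (2 * (p - 1)) < n.factorial / 2 := by
  refine lt_of_le_of_lt ?_ (tot_lt n h h')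
  rw [tot, sm_eq, Finset.sum_filter]
  refine Finset.sum_le_sum fun p _ => ?_
  by_cases hp : p.Prime
  · rw [if_pos hp, if_neg (not_lt.2 hp.two_le)]
  · rw [if_neg hp]
    exact Nat.zero_le _

theorem sumS_lt (n : ℕ) (h : n = 7 ∨ n = 11 ∨ n = 13 ∨ n = 15 ∨ 17 ≤ n) (h' : n ≤ 63) :
    ∑ p ∈ (Finset.range (n + 1)).filter Nat.Prime, SpS p n / (p - 1) < n.factorial := by
  refine lt_of_le_of_lt ?_ (totS_lt n h h')
  rw [totS, sm_eq, Finset.sum_filter]
  refine Finset.sum_le_sum fun p _ => ?_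
  by_cases hp : p.Prime
  · rw [if_pos hp, if_neg (not_lt.2 hp.two_le)]
  · rw [if_neg hp]
    exact Nat.zero_le _

end Pool.H77.AN
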