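import Pool.Agent.H77.AN.Df

/-!
Row C2 (project MP_e5a1a5_AN, PI helper77), about 120 lines: the simple upper bound `cnt p n k ≤ choose (n / p) k * s ^ k`.

PROOF (induction on `n`, polynomials over `ℝ`, `A ≤ B` means all coefficients of `A` are `≤` those of `B`; products of polynomials with nonnegative coefficients respect `≤`). `n < p`: `cnt_lt`. `n ≥ p`: `q = n / p`, `q' = q / p`.
`cnt p n k = ∑ j, cnt p q j * p^((p-1)j) * choose (q - p j) (k - p j) * (p-1)^(k - p j)` (`cnt_rec`) is, by `cnt p q j ≤ choose q' j * s^j` (and `cnt p q j = 0` for `q < p j`: `cnt_zero`), at most the coefficient of `X^k` of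
`∑ j ≤ q', choose q' j * (s p^(p-1) X^p)^j * (1 + (p-1) X)^(q - p j) = (1 + (p-1) X)^(q - p q') * ((1 + (p-1) X)^p + s p^(p-1) X^p)^q'`. And `1 + (p-1) X ≤ 1 + s X`, `(1 + (p-1) X)^p + s p^(p-1) X^p ≤ (1 + s X)^p`: the coefficients
of `X^i`, `i < p`, by `p - 1 ≤ s`, that of `X^p` is the hypothesis `h`. So it is `≤` the coefficient of `(1 + s X)^q`.
`sig_two`: `s = 121/50` (1 + 2 * 2.42 ≤ 2.42^2). `sig_three`: `s = 17/5` (8 + 9 * 3.4 ≤ 3.4^3). `sig_five`: `s = 11 p / 10` for `p ≥ 5`: `(p-1)^p ≤ p^p * (2/5)` (`(1 - 1/p)^p ≤ exp(-1) < 2/5`: `Real.one_sub_div_pow_le_exp_neg`, `Real.exp_neg_one_lt_d9`), `2/5 + 11/10 ≤ (11/10)^5 ≤ (11/10)^p`.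
-/

set_option autoImplicit false

namespace Pool.H77.AN

open Polynomial

/-- Coefficientwise inequality of polynomials with nonnegative coefficients. -/
def CL (A B : ℝ[X]) : Prop := ∀ i, 0 ≤ A.coeff i ∧ A.coeff i ≤ B.coeff i

theorem CL.mul {A B C' D : ℝ[X]} (h : CL A B) (g : CL C' D) : CL (A * C') (B * D) := by
  intro i
  rw [coeff_mul, coeff_mul]
  refine ⟨Finset.sum_nonneg fun x _ => mul_nonneg (h _).1 (g _).1, Finset.sum_le_sum fun x _ => ?_⟩
  exact mul_le_mul (h _).2 (g _).2 (g _).1 ((h _).1.trans (h _).2)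

theorem CL.one : CL 1 1 := by
  intro i
  rw [coeff_one]
  split_ifs <;> simp

theorem CL.pow {A B : ℝ[X]} (h : CL A B) (m : ℕ) : CL (A ^ m) (B ^ m) := by
  induction m with
  | zero => simpa using CL.one
  | succ m ih => rw [pow_succ, pow_succ]; exact ih.mul h

theorem co (a : ℝ) (m i : ℕ) : ((1 + C a * X : ℝ[X]) ^ m).coeff i = (m.choose i : ℝ) * a ^ i := by
  have : (1 + C a * X : ℝ[X]) ^ m = ((1 + X) ^ m).comp (C a * X) := by simp
  rw [this, comp_C_mul_X_coeff, coeff_one_add_X_pow]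

theorem cl1 {a s : ℝ} (ha : 0 ≤ a) (h : a ≤ s) : CL (1 + C a * X) (1 + C s * X) := by
  intro i
  have h1 := co a 1 i
  have h2 := co s 1 i
  rw [pow_one] at h1 h2
  rw [h1, h2]
  exact ⟨by positivity, by gcongr⟩

theorem cl2 {p : ℕ} (hp : 2 ≤ p) {s : ℝ} (h1 : (p : ℝ) - 1 ≤ s)
    (h : ((p : ℝ) - 1) ^ p + s * (p : ℝ) ^ (p - 1) ≤ s ^ p) :
    CL ((1 + C ((p : ℝ) - 1) * X) ^ p + C (s * (p : ℝ) ^ (p - 1)) * X ^ p) ((1 + C s * X) ^ p) := by
  have hp1 : (0 : ℝ) ≤ (p : ℝ) - 1 := by
    have : (2 : ℝ) ≤ p := by exact_mod_cast hp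
    linarith
  intro i
  rw [coeff_add, co, co, coeff_C_mul, coeff_X_pow]
  have hs : 0 ≤ s := hp1.trans h1
  by_cases hi : i = p
  · subst hi
    simp only [Nat.choose_self, if_true]
    constructor
    · positivity
    · simpa using h
  · rw [if_neg hi, mul_zero, add_zero]
    exact ⟨by positivity, by gcongr⟩

theorem cnt_le_sig {p : ℕ} (hp : 2 ≤ p) {s : ℝ} (h1 : (p : ℝ) - 1 ≤ s)
    (h : ((p : ℝ) - 1) ^ p + s * (p : ℝ) ^ (p - 1) ≤ s ^ p) (n k : ℕ) :
    (cnt p n k : ℝ) ≤ ((n / p).choose k : ℝ) * s ^ k := by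
  have hp2 : (2 : ℝ) ≤ p := by exact_mod_cast hp
  have hp1 : (0 : ℝ) ≤ (p : ℝ) - 1 := by linarith
  have hs : 0 ≤ s := hp1.trans h1
  induction n using Nat.strong_induction_on generalizing k with
  | _ n ih =>
    by_cases hn : n < p
    · rw [cnt_lt hn]
      by_cases hk : k = 0
      · subst hk; simp
      · rw [if_neg hk]
        push_cast
        positivity
    · have hn' : p ≤ n := not_lt.1 hn
      have hlt : n / p < n := Nat.div_lt_self (by omega) (by omega)
      set q := n / p with hq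
      set q' := q / p with hq'
      have hqq : p * q' ≤ q := Nat.mul_div_le q p
      set a : ℝ := (p : ℝ) - 1 with ha
      set G : ℕ → ℝ := fun j => (q'.choose j : ℝ) * (s * (p : ℝ) ^ (p - 1)) ^ j *
        (X ^ (p * j) * (1 + C a * X : ℝ[X]) ^ (q - p * j)).coeff k with hG
      have hG0 : ∀ j, 0 ≤ G j := by
        intro j
        rw [hG]
        simp only
        rw [coeff_X_pow_mul']
        refine mul_nonneg (by positivity) ?_
        split_ifs
        · rw [co]; positivity
        · exact le_rfl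
      have hGz : ∀ j, q' < j → G j = 0 := by
        intro j hj
        rw [hG]
        simp only
        rw [Nat.choose_eq_zero_of_lt hj]
        simp
      have hf : ∀ j ∈ Finset.range (k / p + 1), ((cnt p q j * p ^ ((p - 1) * j) *
          (q - p * j).choose (k - p * j) * (p - 1) ^ (k - p * j) : ℕ) : ℝ) ≤ G j := by
        intro j hj
        rw [Finset.mem_range] at hj
        have hjk : p * j ≤ k := (Nat.mul_le_mul_left p (by omega)).trans (Nat.mul_div_le k p)
        have e : (X ^ (p * j) * (1 + C a * X : ℝ[X]) ^ (q - p * j)).coeff k =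
            ((q - p * j).choose (k - p * j) : ℝ) * a ^ (k - p * j) := by
          rw [coeff_X_pow_mul', if_pos hjk, co]
        rw [hG]
        simp only
        rw [e]
        have hc := ih q hlt j
        have hpa : (((p - 1 : ℕ) : ℕ) : ℝ) = a := by
          rw [ha, Nat.cast_sub (by omega)]
          simp
        push_cast [hpa]
        have e2 : (q'.choose j : ℝ) * (s * (p : ℝ) ^ (p - 1)) ^ j =
            (q'.choose j : ℝ) * s ^ j * (p : ℝ) ^ ((p - 1) * j) := by
          rw [mul_pow, pow_mul]; ring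
        rw [e2]
        calc _ ≤ ((q'.choose j : ℝ) * s ^ j) * (p : ℝ) ^ ((p - 1) * j) *
              ((q - p * j).choose (k - p * j) : ℝ) * a ^ (k - p * j) := by gcongr
          _ = _ := by ring
      rw [cnt_rec hp hn', Nat.cast_sum]
      have hsum : ∑ j ∈ Finset.range (q' + 1), G j = (((1 + C a * X : ℝ[X]) ^ (q - p * q')) *
          ((1 + C a * X) ^ p + C (s * (p : ℝ) ^ (p - 1)) * X ^ p) ^ q').coeff k := by
        rw [add_comm ((1 + C a * X : ℝ[X]) ^ p), add_pow (C (s * (p : ℝ) ^ (p - 1)) * X ^ p),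
          Finset.mul_sum, finsetSum_coeff]
        refine Finset.sum_congr rfl fun j hj => ?_
        rw [Finset.mem_range] at hj
        have e1 : q - p * j = (q - p * q') + p * (q' - j) := by
          have : p * q' = p * j + p * (q' - j) := by rw [← mul_add]; congr 1; omega
          omega
        have e3 : (1 + C a * X : ℝ[X]) ^ (q - p * q') *
            ((C (s * (p : ℝ) ^ (p - 1)) * X ^ p) ^ j * ((1 + C a * X) ^ p) ^ (q' - j) *
              ((q'.choose j : ℕ) : ℝ[X])) =
            C ((q'.choose j : ℝ) * (s * (p : ℝ) ^ (p - 1)) ^ j) *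
              (X ^ (p * j) * (1 + C a * X : ℝ[X]) ^ (q - p * j)) := by
          have e4 : (C ((q'.choose j : ℝ) * (s * (p : ℝ) ^ (p - 1)) ^ j) : ℝ[X]) =
              ((q'.choose j : ℕ) : ℝ[X]) * (C (s * (p : ℝ) ^ (p - 1))) ^ j := by simp
          rw [e4, e1, pow_add, mul_pow, ← pow_mul, ← pow_mul]
          ring
        rw [e3, coeff_C_mul]
      calc _ ≤ ∑ j ∈ Finset.range (k / p + 1), G j := Finset.sum_le_sum hf
        _ ≤ ∑ j ∈ Finset.range (k / p + 1 + (q' + 1)), G j :=
            Finset.sum_le_sum_of_subset_of_nonneg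
              (Finset.range_mono (Nat.le_add_right (k / p + 1) (q' + 1))) fun j _ _ => hG0 j
        _ = ∑ j ∈ Finset.range (q' + 1), G j := by
            symm
            apply Finset.sum_subset (Finset.range_mono (Nat.le_add_left (q' + 1) (k / p + 1)))
            intro j _ hj
            rw [Finset.mem_range] at hj
            exact hGz j (by omega)
        _ ≤ ((1 + C s * X : ℝ[X]) ^ (q - p * q') * ((1 + C s * X) ^ p) ^ q').coeff k := by
            rw [hsum]
            exact (((cl1 hp1 h1).pow _).mul ((cl2 hp h1 h).pow _) k).2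
        _ = (q.choose k : ℝ) * s ^ k := by
            rw [← pow_mul, ← pow_add, co]
            congr 3
            omega

theorem sig_two (n k : ℕ) : (cnt 2 n k : ℝ) ≤ ((n / 2).choose k : ℝ) * (121 / 50) ^ k := by
  apply cnt_le_sig (p := 2) le_rfl <;> norm_num

theorem sig_three (n k : ℕ) : (cnt 3 n k : ℝ) ≤ ((n / 3).choose k : ℝ) * (17 / 5) ^ k := by
  apply cnt_le_sig (p := 3) (by norm_num) <;> norm_num

theorem sig_five {p : ℕ} (hp : 5 ≤ p) (n k : ℕ) :
    (cnt p n k : ℝ) ≤ ((n / p).choose k : ℝ) * (11 * p / 10) ^ k := by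
  have hp5 : (5 : ℝ) ≤ p := by exact_mod_cast hp
  have hpos : (0 : ℝ) < p := by linarith
  apply cnt_le_sig (p := p) (by omega)
  · linarith
  · have e1 : ((p : ℝ) - 1) ^ p ≤ (p : ℝ) ^ p * (2 / 5) := by
      have h1 : (1 - 1 / (p : ℝ)) ^ p ≤ Real.exp (-1) :=
        Real.one_sub_div_pow_le_exp_neg (n := p) (t := 1) (by linarith)
      have h2 : Real.exp (-1) ≤ 2 / 5 := by
        have := Real.exp_neg_one_lt_d9
        linarith
      have h3 : ((p : ℝ) - 1) = p * (1 - 1 / p) := by field_simp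
      rw [h3, mul_pow]
      gcongr
      exact h1.trans h2
    have e2 : (11 * (p : ℝ) / 10) * (p : ℝ) ^ (p - 1) = (p : ℝ) ^ p * (11 / 10) := by
      obtain ⟨m, rfl⟩ : ∃ m, p = m + 1 := ⟨p - 1, by omega⟩
      rw [Nat.add_sub_cancel, pow_succ]
      ring
    have e3 : (11 * (p : ℝ) / 10) ^ p = (p : ℝ) ^ p * (11 / 10) ^ p := by
      rw [← mul_pow]; ring
    rw [e2, e3]
    have e4 : (11 / 10 : ℝ) ^ 5 ≤ (11 / 10) ^ p := by
      gcongr
      norm_num
    have e5 : (0 : ℝ) < (p : ℝ) ^ p := by positivity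
    nlinarith

end Pool.H77.AN
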