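import Pool.Agent.H77.AN.Dg
import Pool.Agent.H77.AN.C2

/-!
Row C3 (project MP_e5a1a5_AN, PI helper77), about 110 lines (uses the STATEMENT of C2): the refined bound for `p = 2`.

PROOF. `m = n / 2`. `cnt_rec` (p = 2): `cnt 2 n k = ∑ j ≤ k / 2, cnt 2 m j * 2 ^ j * choose (m - 2 j) (k - 2 j)` and `cnt 2 m j ≤ choose (m / 2) j * s ^ j`, `s = 121 / 50` (`sig_two`). For `2 j ≤ k ≤ m`:
`choose (m - 2 j) (k - 2 j) * m.descFactorial (2 j) = choose m k * k.descFactorial (2 j)`, `m.descFactorial (2 j) = ∏ i < j, (m - 2 i) (m - 2 i - 1)`, `choose (m / 2) j * j! = ∏ i < j, (m / 2 - i)` and `2 (m / 2 - i) ≤ m - 2 i`, so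
`choose (m / 2) j * 2 ^ j * choose (m - 2 j) (k - 2 j) ≤ choose m k * k.descFactorial (2 j) / (j! * ∏ i < j, (m - 2 i - 1))`. All factors `m - 2 i - 1` (`i < j`, `2 j ≤ m`) are positive.
`Rr_anti`: every factor `m - 2 i - 1 ≥ m' - 2 i - 1 > 0`.
-/

set_option autoImplicit false

namespace Pool.H77.AN

private theorem C3_pos {k m j : ℕ} (hk : k ≤ m) (hj : j ∈ Finset.range (k / 2 + 1)) {i : ℕ}
    (hi : i ∈ Finset.range j) : (1 : ℝ) ≤ (m : ℝ) - 2 * i - 1 := by
  rw [Finset.mem_range] at hj hi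
  have h1 : 2 * i + 2 ≤ m := by omega
  have h2 : ((2 * i + 2 : ℕ) : ℝ) ≤ (m : ℝ) := by exact_mod_cast h1
  push_cast at h2
  linarith

private theorem C3_prod_pos {k m j : ℕ} (hk : k ≤ m) (hj : j ∈ Finset.range (k / 2 + 1)) :
    (0 : ℝ) < ∏ i ∈ Finset.range j, ((m : ℝ) - 2 * i - 1) :=
  Finset.prod_pos fun i hi => by linarith [C3_pos hk hj hi]

private theorem C3_desc (m : ℕ) : ∀ j : ℕ, 2 * j ≤ m → (m.descFactorial (2 * j) : ℝ) =
    (∏ i ∈ Finset.range j, ((m : ℝ) - 2 * i)) * ∏ i ∈ Finset.range j, ((m : ℝ) - 2 * i - 1) := by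
  intro j
  induction j with
  | zero => intro _; simp
  | succ j ih =>
    intro h
    have h1 := ih (by omega)
    rw [show 2 * (j + 1) = 2 * j + 1 + 1 by ring, Nat.descFactorial_succ, Nat.descFactorial_succ,
      Finset.prod_range_succ, Finset.prod_range_succ]
    push_cast
    rw [Nat.cast_sub (by omega), Nat.cast_sub (by omega), h1]
    push_cast
    ring

private theorem C3_half (m : ℕ) : ∀ j : ℕ, 2 * j ≤ m → ((m / 2).descFactorial j : ℝ) * 2 ^ j ≤
    ∏ i ∈ Finset.range j, ((m : ℝ) - 2 * i) := by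
  intro j
  induction j with
  | zero => intro _; simp
  | succ j ih =>
    intro h
    have h1 := ih (by omega)
    rw [Nat.descFactorial_succ, Finset.prod_range_succ]
    have h2 : ((m / 2 - j : ℕ) : ℝ) * 2 ≤ (m : ℝ) - 2 * j := by
      rw [Nat.cast_sub (by omega)]
      have h3 : ((m / 2 : ℕ) : ℝ) * 2 ≤ (m : ℝ) := by
        exact_mod_cast Nat.div_mul_le_self m 2
      linarith
    have h4 : (0 : ℝ) ≤ ((m / 2 - j : ℕ) : ℝ) * 2 := by positivity
    have h5 : (0 : ℝ) ≤ ((m / 2).descFactorial j : ℝ) * 2 ^ j := by positivity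
    calc (((m / 2 - j) * (m / 2).descFactorial j : ℕ) : ℝ) * 2 ^ (j + 1)
        = (((m / 2).descFactorial j : ℝ) * 2 ^ j) * (((m / 2 - j : ℕ) : ℝ) * 2) := by
          push_cast
          ring
      _ ≤ (∏ i ∈ Finset.range j, ((m : ℝ) - 2 * i)) * ((m : ℝ) - 2 * j) :=
          mul_le_mul h1 h2 h4 (h5.trans h1)

private theorem C3_choose {m k j : ℕ} (hj : 2 * j ≤ k) :
    ((m - 2 * j).choose (k - 2 * j) : ℝ) * (m.descFactorial (2 * j) : ℝ) =
      (m.choose k : ℝ) * (k.descFactorial (2 * j) : ℝ) := by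
  have h := Nat.choose_mul (n := m) hj
  rw [Nat.descFactorial_eq_factorial_mul_choose, Nat.descFactorial_eq_factorial_mul_choose]
  have h2 : (m.choose k : ℝ) * (k.choose (2 * j) : ℝ) =
      (m.choose (2 * j) : ℝ) * ((m - 2 * j).choose (k - 2 * j) : ℝ) := by exact_mod_cast h
  push_cast
  linear_combination -(((2 * j).factorial : ℕ) : ℝ) * h2

private theorem C3_term {m k j : ℕ} (hk : k ≤ m) (hj : j ∈ Finset.range (k / 2 + 1)) :
    ((m / 2).choose j : ℝ) * 2 ^ j * ((m - 2 * j).choose (k - 2 * j) : ℝ) ≤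
      (m.choose k : ℝ) * ((k.descFactorial (2 * j) : ℝ) /
        ((j.factorial : ℝ) * ∏ i ∈ Finset.range j, ((m : ℝ) - 2 * i - 1))) := by
  have hj' : 2 * j ≤ k := by
    rw [Finset.mem_range] at hj
    omega
  have hE := C3_prod_pos hk hj
  have hf : (0 : ℝ) < (j.factorial : ℝ) := by exact_mod_cast j.factorial_pos
  rw [← mul_div_assoc, le_div_iff₀ (mul_pos hf hE), ← C3_choose hj', C3_desc m j (hj'.trans hk)]
  have h1 := C3_half m j (hj'.trans hk)
  rw [Nat.descFactorial_eq_factorial_mul_choose] at h1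
  push_cast at h1
  have h2 : (0 : ℝ) ≤ ((m - 2 * j).choose (k - 2 * j) : ℝ) *
      ∏ i ∈ Finset.range j, ((m : ℝ) - 2 * i - 1) := mul_nonneg (Nat.cast_nonneg _) hE.le
  have h3 := mul_le_mul_of_nonneg_right h1 h2
  calc ((m / 2).choose j : ℝ) * 2 ^ j * ((m - 2 * j).choose (k - 2 * j) : ℝ) *
        ((j.factorial : ℝ) * ∏ i ∈ Finset.range j, ((m : ℝ) - 2 * i - 1))
      = (j.factorial : ℝ) * ((m / 2).choose j : ℝ) * 2 ^ j * (((m - 2 * j).choose (k - 2 * j) : ℝ) *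
        ∏ i ∈ Finset.range j, ((m : ℝ) - 2 * i - 1)) := by ring
    _ ≤ _ := h3
    _ = _ := by ring

theorem cnt_two_le {n k : ℕ} (hk : k ≤ n / 2) :
    (cnt 2 n k : ℝ) ≤ ((n / 2).choose k : ℝ) * Rr k (n / 2) := by
  by_cases hn : n < 2
  · have h0 : n / 2 = 0 := by omega
    have hk0 : k = 0 := by omega
    rw [cnt_lt hn, h0, hk0, Rr]
    simp
  · rw [cnt_rec le_rfl (by omega), Rr, Finset.mul_sum]
    push_cast
    refine Finset.sum_le_sum fun j hj => ?_
    have h1 := sig_two (n / 2) j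
    have h2 := C3_term hk hj
    have h3 : (0 : ℝ) ≤ 2 ^ j * ((n / 2 - 2 * j).choose (k - 2 * j) : ℝ) := by positivity
    have h4 := mul_le_mul_of_nonneg_right h1 h3
    have h5 : (0 : ℝ) ≤ (121 / 50 : ℝ) ^ j := by positivity
    have h6 := mul_le_mul_of_nonneg_left h2 h5
    have h7 : ((2 : ℝ) - 1) ^ (k - 2 * j) = 1 := by norm_num
    calc _ = (cnt 2 (n / 2) j : ℝ) * (2 ^ j * ((n / 2 - 2 * j).choose (k - 2 * j) : ℝ)) := by
          norm_num
          ring
      _ ≤ ((n / 2 / 2).choose j : ℝ) * (121 / 50) ^ j *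
          (2 ^ j * ((n / 2 - 2 * j).choose (k - 2 * j) : ℝ)) := h4
      _ = (121 / 50 : ℝ) ^ j * (((n / 2 / 2).choose j : ℝ) * 2 ^ j *
          ((n / 2 - 2 * j).choose (k - 2 * j) : ℝ)) := by ring
      _ ≤ _ := h6
      _ = _ := by ring

theorem Rr_anti {k m m' : ℕ} (hk : k ≤ m') (h : m' ≤ m) : Rr k m ≤ Rr k m' := by
  rw [Rr, Rr]
  refine Finset.sum_le_sum fun j hj => ?_
  have hf : (0 : ℝ) < (j.factorial : ℝ) := by exact_mod_cast j.factorial_pos
  have h1 := C3_prod_pos hk hj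
  refine div_le_div_of_nonneg_left (by positivity) (mul_pos hf h1)
    (mul_le_mul_of_nonneg_left ?_ hf.le)
  refine Finset.prod_le_prod (fun i hi => by linarith [C3_pos hk hj hi]) fun i _ => ?_
  have h2 : (m' : ℝ) ≤ (m : ℝ) := by exact_mod_cast h
  linarith

theorem Rr_nonneg {k m : ℕ} (hk : k ≤ m) : 0 ≤ Rr k m := by
  rw [Rr]
  refine Finset.sum_nonneg fun j hj => ?_
  have hf : (0 : ℝ) < (j.factorial : ℝ) := by exact_mod_cast j.factorial_pos
  have h1 := C3_prod_pos hk hj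
  exact div_nonneg (by positivity) (mul_pos hf h1).le

end Pool.H77.AN
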