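import Pool.Agent.H77.AN.Dg

/-!
Row C4 (project MP_e5a1a5_AN, PI helper77), about 110 lines: the class sizes for `p = 2`.

PROOF of `class_two` (`m = n / 2`, `k ≤ m`): `n.descFactorial (2 k) = n! / (n - 2 k)! ≥ (2 m).descFactorial (2 k) = ∏ i < k, (2 m - 2 i) (2 m - 2 i - 1)`; `choose m k * k! = ∏ i < k, (m - i)`. So
`choose m k ^ 2 * (n - 2 k)! * 2 ^ k * k! / n! ≤ (2 ^ k / k!) * ∏ i < k, (m - i) ^ 2 / ((2 m - 2 i) (2 m - 2 i - 1)) = (1 / (2 ^ k k!)) * ∏ i < k, (2 (m - i)) / (2 (m - i) - 1)` and `(2 x) / (2 x - 1) = 1 + 1 / (2 x - 1)`. (Induction on `k` is possible.)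
`Pp_anti`: every factor decreases in `m` (`m' - i ≥ 1`). `Pp_le`: `Pp k m ≤ Pp k k = ∏ j ∈ [1, k], 2 j / (2 j - 1) ≤ 2 sqrt k` (induction: `(2 k + 2)^2 k ≤ (2 k + 1)^2 (k + 1)`), and `2 sqrt k ≤ k` for `k ≥ 4`.
-/

set_option autoImplicit false

namespace Pool.H77.AN

theorem class_two {n k : ℕ} (hk : k ≤ n / 2) :
    ((n / 2).choose k : ℝ) ^ 2 * (((n - 2 * k).factorial : ℝ) * 2 ^ k * (k.factorial : ℝ)) ≤
      (n.factorial : ℝ) * (Pp k (n / 2) / (2 ^ k * (k.factorial : ℝ))) := by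
  induction k with
  | zero => simp [Pp]
  | succ k ih =>
    have ih := ih (by omega)
    obtain ⟨m, hm⟩ : ∃ m, m = n / 2 := ⟨_, rfl⟩
    rw [← hm] at ih hk ⊢
    obtain ⟨y, hy⟩ : ∃ y, m = k + 1 + y := ⟨m - (k + 1), by omega⟩
    have hch : (m.choose (k + 1) : ℝ) * ((k : ℝ) + 1) = (m.choose k : ℝ) * ((y : ℝ) + 1) := by
      have h1 := Nat.choose_succ_right_eq m k
      have h2 : m - k = y + 1 := by omega
      rw [h2] at h1
      exact_mod_cast h1
    obtain ⟨w, hw⟩ : ∃ w, n = 2 * (k + 1) + w := ⟨n - 2 * (k + 1), by omega⟩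
    have hwy : 2 * y ≤ w := by omega
    have e1 : n - 2 * (k + 1) = w := by omega
    have e2 : n - 2 * k = w + 2 := by omega
    have hfac : ((w + 2).factorial : ℝ) = ((w : ℝ) + 2) * ((w : ℝ) + 1) * (w.factorial : ℝ) := by
      rw [Nat.factorial_succ, Nat.factorial_succ]
      push_cast
      ring
    rw [e2, hfac] at ih
    rw [e1]
    have hPp : Pp (k + 1) m = Pp k m * (1 + 1 / (2 * ((y : ℝ) + 1) - 1)) := by
      rw [Pp, Pp, Finset.prod_range_succ, hy]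
      push_cast
      congr 4
      ring
    have hk1 : ((k + 1).factorial : ℝ) = ((k : ℝ) + 1) * (k.factorial : ℝ) := by
      rw [Nat.factorial_succ]
      push_cast
      ring
    rw [hPp, hk1]
    have hy0 : (0 : ℝ) ≤ y := Nat.cast_nonneg y
    have hw0 : 2 * (y : ℝ) ≤ w := by exact_mod_cast hwy
    have hk0 : (0 : ℝ) ≤ k := Nat.cast_nonneg k
    have hkf : (0 : ℝ) < k.factorial := by exact_mod_cast k.factorial_pos
    have hwf : (0 : ℝ) < w.factorial := by exact_mod_cast w.factorial_pos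
    obtain ⟨b, hb⟩ : ∃ b : ℝ, b = m.choose (k + 1) := ⟨_, rfl⟩
    obtain ⟨a, ha⟩ : ∃ a : ℝ, a = m.choose k := ⟨_, rfl⟩
    rw [← hb, ← ha] at hch
    rw [← hb]
    rw [← ha] at ih
    have hb2 : b = a * ((y : ℝ) + 1) / ((k : ℝ) + 1) := by
      rw [eq_div_iff (by positivity)]
      exact hch
    obtain ⟨L, hL⟩ : ∃ L : ℝ, L = a ^ 2 * (((w : ℝ) + 2) * ((w : ℝ) + 1) * (w.factorial : ℝ) * 2 ^ k * (k.factorial : ℝ)) :=
      ⟨_, rfl⟩
    obtain ⟨R, hR⟩ : ∃ R : ℝ, R = (n.factorial : ℝ) * (Pp k m / (2 ^ k * (k.factorial : ℝ))) := ⟨_, rfl⟩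
    rw [← hL, ← hR] at ih
    have hL0 : 0 ≤ L := by
      rw [hL]
      positivity
    have e3 : b ^ 2 * ((w.factorial : ℝ) * 2 ^ (k + 1) * (((k : ℝ) + 1) * (k.factorial : ℝ))) =
        L * (2 * ((y : ℝ) + 1) ^ 2 / (((k : ℝ) + 1) * (((w : ℝ) + 2) * ((w : ℝ) + 1)))) := by
      rw [hb2, hL]
      field_simp
      ring
    have e4 : (n.factorial : ℝ) * (Pp k m * (1 + 1 / (2 * ((y : ℝ) + 1) - 1)) / (2 ^ (k + 1) * (((k : ℝ) + 1) * (k.factorial : ℝ)))) =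
        R * (((y : ℝ) + 1) / (((k : ℝ) + 1) * (2 * (y : ℝ) + 1))) := by
      rw [hR]
      have h1 : (2 * ((y : ℝ) + 1) - 1) = 2 * (y : ℝ) + 1 := by ring
      rw [h1]
      field_simp
      ring
    rw [e3, e4]
    have h5 : 2 * ((y : ℝ) + 1) ^ 2 / (((k : ℝ) + 1) * (((w : ℝ) + 2) * ((w : ℝ) + 1))) ≤
        ((y : ℝ) + 1) / (((k : ℝ) + 1) * (2 * (y : ℝ) + 1)) := by
      rw [div_le_div_iff₀ (by positivity) (by positivity)]
      have h6 : 2 * ((y : ℝ) + 1) * (2 * (y : ℝ) + 1) ≤ ((w : ℝ) + 2) * ((w : ℝ) + 1) := by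
        nlinarith
      have h7 : 0 ≤ ((y : ℝ) + 1) * ((k : ℝ) + 1) := by positivity
      nlinarith [mul_le_mul_of_nonneg_left h6 h7]
    exact mul_le_mul ih h5 (by positivity) (hL0.trans ih)

theorem fac_pos {k m i : ℕ} (hk : k ≤ m) (hi : i < k) : (0 : ℝ) < 2 * ((m : ℝ) - i) - 1 := by
  have h1 : (i : ℝ) + 1 ≤ m := by exact_mod_cast (show i + 1 ≤ m by omega)
  linarith

theorem Pp_anti {k m m' : ℕ} (hk : k ≤ m') (h : m' ≤ m) : Pp k m ≤ Pp k m' := by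
  unfold Pp
  refine Finset.prod_le_prod (fun i hi => ?_) fun i hi => ?_
  · have := fac_pos (hk.trans h) (Finset.mem_range.1 hi)
    positivity
  · have h1 := fac_pos hk (Finset.mem_range.1 hi)
    have h2 : (m' : ℝ) ≤ m := by exact_mod_cast h
    have h3 : 1 / (2 * ((m : ℝ) - i) - 1) ≤ 1 / (2 * ((m' : ℝ) - i) - 1) :=
      one_div_le_one_div_of_le h1 (by linarith)
    linarith

theorem Pp_nonneg {k m : ℕ} (hk : k ≤ m) : 0 ≤ Pp k m := by
  unfold Pp
  refine Finset.prod_nonneg fun i hi => ?_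
  have := fac_pos hk (Finset.mem_range.1 hi)
  positivity

theorem Pp_le {k m : ℕ} (h4 : 4 ≤ k) (hk : k ≤ m) : Pp k m ≤ k := by
  refine (Pp_anti le_rfl hk).trans ?_
  clear hk
  induction k, h4 using Nat.le_induction with
  | base =>
    simp only [Pp, Finset.prod_range_succ, Finset.prod_range_zero]
    norm_num
  | succ k h4 ih =>
    have e : Pp (k + 1) (k + 1) = Pp k k * (1 + 1 / (2 * (k : ℝ) + 1)) := by
      rw [Pp, Pp, Finset.prod_range_succ']
      push_cast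
      congr 1
      · refine Finset.prod_congr rfl fun i _ => ?_
        congr 3
        ring
      · congr 2
        ring
    rw [e]
    push_cast
    have hk0 : (0 : ℝ) ≤ k := Nat.cast_nonneg k
    have h1 : (0 : ℝ) ≤ 1 + 1 / (2 * (k : ℝ) + 1) := by positivity
    refine (mul_le_mul_of_nonneg_right ih h1).trans ?_
    have h2 : (k : ℝ) * (1 + 1 / (2 * (k : ℝ) + 1)) = k + k / (2 * (k : ℝ) + 1) := by ring
    rw [h2]
    have h3 : (k : ℝ) / (2 * (k : ℝ) + 1) ≤ 1 := by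
      rw [div_le_one (by positivity)]
      linarith
    linarith

end Pool.H77.AN
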