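import Pool.Agent.H77.AN.Dg

/-!
Row C5 (project MP_e5a1a5_AN, PI helper77), about 60 lines: numerics. The values `T k = Rr k 32 ^ 2 * Pp k 32 / (2 ^ k k!)`, `k = 1, ..., 11`, are about
.5079, .1737, .0478, .0115, .0025, .0005, .0001, .00002, ..., sum < .7443. (`norm_num [Rr, Pp, Finset.sum_range_succ, Finset.prod_range_succ, Nat.descFactorial, Nat.factorial]` for each `k` with a decimal upper bound, then add; or do it in `ℚ`
with a computable copy and `decide +kernel`.)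
-/

set_option autoImplicit false

namespace Pool.H77.AN

/-- A computable copy of `Rr k 32`. -/
def RrQ (k : ℕ) : ℚ := ∑ j ∈ Finset.range (k / 2 + 1),
  (121 / 50 : ℚ) ^ j * (k.descFactorial (2 * j) : ℚ) /
    ((j.factorial : ℚ) * ∏ i ∈ Finset.range j, ((32 : ℚ) - 2 * i - 1))

/-- A computable copy of `Pp k 32`. -/
def PpQ (k : ℕ) : ℚ := ∏ i ∈ Finset.range k, (1 + 1 / (2 * ((32 : ℚ) - i) - 1))

theorem RrQ_cast (k : ℕ) : Rr k 32 = (RrQ k : ℝ) := by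
  unfold Rr RrQ
  push_cast
  rfl

theorem PpQ_cast (k : ℕ) : Pp k 32 = (PpQ k : ℝ) := by
  unfold Pp PpQ
  push_cast
  rfl

theorem T_sumQ : ∑ k ∈ Finset.Icc 1 11, RrQ k ^ 2 * (PpQ k / (2 ^ k * (k.factorial : ℚ))) ≤ 75 / 100 := by
  decide +kernel

theorem T_sum : ∑ k ∈ Finset.Icc 1 11, Rr k 32 ^ 2 * (Pp k 32 / (2 ^ k * (k.factorial : ℝ))) ≤ 75 / 100 := by
  have h : ((∑ k ∈ Finset.Icc 1 11, RrQ k ^ 2 * (PpQ k / (2 ^ k * (k.factorial : ℚ))) : ℚ) : ℝ) ≤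
      ((75 / 100 : ℚ) : ℝ) := Rat.cast_le.2 T_sumQ
  simp only [RrQ_cast, PpQ_cast]
  push_cast at h
  exact h

end Pool.H77.AN
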