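import Pool.Agent.H77.AN.C3
import Pool.Agent.H77.AN.C4
import Pool.Agent.H77.AN.C5

/-!
Row C6 (project MP_e5a1a5_AN, PI helper77), about 90 lines (uses the STATEMENTS of C2 - C5): the estimate for `p = 2`.

PROOF. `SpS_eq`, `m = n / 2 ≥ 32`. For `1 ≤ k ≤ 11`: `cnt ^ 2 * (n - 2 k)! 2 ^ k k! ≤ (choose m k) ^ 2 (...) * Rr k m ^ 2 ≤ n! * Pp k m / (2 ^ k k!) * Rr k m ^ 2 ≤ n! * T k`, `T k` with `m = 32` (`cnt_two_le`, `class_two`, `Rr_anti`, `Pp_anti`): sum `≤ 75/100 n!` (`T_sum`).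
For `k ≥ 12`: `sig_two`, `class_two`, `Pp_le`: `≤ n! * s^(2k) / 2^k * k / k! = n! * c^k / (k-1)!`, `c = s^2 / 2 = 2.9282`, and `∑ k ≥ 12, c ^ k / (k - 1)! ≤ 2/100`: `c ^ 12 / 11! ≤ 1/100` and the ratio of consecutive terms is `c / k ≤ 1/4` (so the sum
is at most `(1/100) / (1 - 1/4)`; prove `c ^ (12 + i) / (11 + i)! ≤ (1/100) (1/4)^i` by induction).
-/

set_option autoImplicit false

namespace Pool.H77.AN

theorem C6_tail (i : ℕ) : (14641 / 5000 : ℝ) ^ (12 + i) / ((11 + i).factorial : ℝ) ≤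
    1 / 100 * (1 / 4) ^ i := by
  induction i with
  | zero =>
    rw [add_zero, add_zero, pow_zero, mul_one]
    have h : ((11).factorial : ℝ) = 39916800 := by norm_num [Nat.factorial]
    rw [h]
    norm_num
  | succ i ih =>
    have h0 : ((11 + (i + 1)).factorial : ℝ) = (12 + i : ℝ) * ((11 + i).factorial : ℝ) := by
      rw [show 11 + (i + 1) = (11 + i) + 1 by ring, Nat.factorial_succ]
      push_cast
      ring
    have hf : (0 : ℝ) < ((11 + i).factorial : ℝ) := by exact_mod_cast Nat.factorial_pos _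
    have hi : (0 : ℝ) ≤ i := Nat.cast_nonneg i
    have e : (14641 / 5000 : ℝ) ^ (12 + (i + 1)) / ((11 + (i + 1)).factorial : ℝ) =
        ((14641 / 5000 : ℝ) ^ (12 + i) / ((11 + i).factorial : ℝ)) * ((14641 / 5000) / (12 + i)) := by
      rw [h0, show 12 + (i + 1) = (12 + i) + 1 by ring, pow_succ]
      field_simp
    rw [e, pow_succ]
    have h1 : (14641 / 5000 : ℝ) / (12 + i) ≤ 1 / 4 := by
      rw [div_le_div_iff₀ (by linarith) (by norm_num)]
      linarith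
    have h2 : (0 : ℝ) ≤ (14641 / 5000 : ℝ) / (12 + i) := by positivity
    calc (14641 / 5000 : ℝ) ^ (12 + i) / ((11 + i).factorial : ℝ) * ((14641 / 5000) / (12 + i))
        ≤ (1 / 100 * (1 / 4) ^ i) * (1 / 4) := mul_le_mul ih h1 h2 (by positivity)
      _ = 1 / 100 * ((1 / 4) ^ i * (1 / 4)) := by ring

theorem C6_geom (N : ℕ) : ∑ i ∈ Finset.range N, (1 / 4 : ℝ) ^ i ≤ 4 / 3 := by
  rw [geom_sum_eq (by norm_num)]
  have h : (0 : ℝ) ≤ (1 / 4) ^ N := by positivity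
  rw [div_le_iff_of_neg (by norm_num)]
  linarith

theorem C6_term {n k : ℕ} {R P : ℝ} (hk : k ≤ n / 2)
    (hc : (cnt 2 n k : ℝ) ≤ ((n / 2).choose k : ℝ) * R) (hP : Pp k (n / 2) ≤ P) :
    (cnt 2 n k : ℝ) ^ 2 * (((n - 2 * k).factorial : ℝ) * 2 ^ k * (k.factorial : ℝ)) ≤
      (n.factorial : ℝ) * (R ^ 2 * (P / (2 ^ k * (k.factorial : ℝ)))) := by
  have hf : (0 : ℝ) < (k.factorial : ℝ) := by exact_mod_cast Nat.factorial_pos _
  have h0 : (0 : ℝ) ≤ (cnt 2 n k : ℝ) := Nat.cast_nonneg _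
  have h1 : (cnt 2 n k : ℝ) ^ 2 ≤ (((n / 2).choose k : ℝ) * R) ^ 2 := pow_le_pow_left₀ h0 hc 2
  have h2 : (0 : ℝ) ≤ ((n - 2 * k).factorial : ℝ) * 2 ^ k * (k.factorial : ℝ) := by positivity
  calc (cnt 2 n k : ℝ) ^ 2 * (((n - 2 * k).factorial : ℝ) * 2 ^ k * (k.factorial : ℝ))
      ≤ (((n / 2).choose k : ℝ) * R) ^ 2 * (((n - 2 * k).factorial : ℝ) * 2 ^ k * (k.factorial : ℝ)) :=
        mul_le_mul_of_nonneg_right h1 h2
    _ = R ^ 2 * (((n / 2).choose k : ℝ) ^ 2 *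
          (((n - 2 * k).factorial : ℝ) * 2 ^ k * (k.factorial : ℝ))) := by ring
    _ ≤ R ^ 2 * ((n.factorial : ℝ) * (Pp k (n / 2) / (2 ^ k * (k.factorial : ℝ)))) :=
        mul_le_mul_of_nonneg_left (class_two hk) (sq_nonneg R)
    _ ≤ R ^ 2 * ((n.factorial : ℝ) * (P / (2 ^ k * (k.factorial : ℝ)))) := by
        refine mul_le_mul_of_nonneg_left (mul_le_mul_of_nonneg_left ?_ (Nat.cast_nonneg _)) (sq_nonneg R)
        exact div_le_div_of_nonneg_right hP (by positivity)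
    _ = (n.factorial : ℝ) * (R ^ 2 * (P / (2 ^ k * (k.factorial : ℝ)))) := by ring

theorem e_two {n : ℕ} (hn : 64 ≤ n) : (SpS 2 n : ℝ) ≤ 78 / 100 * (n.factorial : ℝ) := by
  have hm : 32 ≤ n / 2 := by omega
  have hn0 : (0 : ℝ) < (n.factorial : ℝ) := by exact_mod_cast Nat.factorial_pos _
  rw [SpS_eq]
  push_cast
  have hsp : Finset.Icc 1 (n / 2) = Finset.Icc 1 11 ∪ Finset.Ico 12 (n / 2 + 1) := by
    ext k
    simp only [Finset.mem_Icc, Finset.mem_union, Finset.mem_Ico]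
    omega
  have hdis : Disjoint (Finset.Icc 1 11) (Finset.Ico 12 (n / 2 + 1)) := by
    rw [Finset.disjoint_left]
    intro k h1 h2
    rw [Finset.mem_Icc] at h1
    rw [Finset.mem_Ico] at h2
    omega
  rw [hsp, Finset.sum_union hdis]
  have A : ∑ k ∈ Finset.Icc 1 11, (cnt 2 n k : ℝ) ^ 2 *
      (((n - 2 * k).factorial : ℝ) * 2 ^ k * (k.factorial : ℝ)) ≤ (n.factorial : ℝ) * (75 / 100) := by
    have h1 : ∑ k ∈ Finset.Icc 1 11, (cnt 2 n k : ℝ) ^ 2 *
        (((n - 2 * k).factorial : ℝ) * 2 ^ k * (k.factorial : ℝ)) ≤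
        ∑ k ∈ Finset.Icc 1 11, (n.factorial : ℝ) *
          (Rr k 32 ^ 2 * (Pp k 32 / (2 ^ k * (k.factorial : ℝ)))) := by
      refine Finset.sum_le_sum fun k hk => ?_
      rw [Finset.mem_Icc] at hk
      refine C6_term (by omega) ?_ (Pp_anti (by omega) hm)
      refine (cnt_two_le (by omega)).trans ?_
      exact mul_le_mul_of_nonneg_left (Rr_anti (by omega) hm) (Nat.cast_nonneg _)
    rw [← Finset.mul_sum] at h1
    exact h1.trans (mul_le_mul_of_nonneg_left T_sum hn0.le)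
  have B : ∑ k ∈ Finset.Ico 12 (n / 2 + 1), (cnt 2 n k : ℝ) ^ 2 *
      (((n - 2 * k).factorial : ℝ) * 2 ^ k * (k.factorial : ℝ)) ≤ (n.factorial : ℝ) * (1 / 75) := by
    rw [Finset.sum_Ico_eq_sum_range]
    have h1 : ∀ i ∈ Finset.range (n / 2 + 1 - 12), (cnt 2 n (12 + i) : ℝ) ^ 2 *
        (((n - 2 * (12 + i)).factorial : ℝ) * 2 ^ (12 + i) * ((12 + i).factorial : ℝ)) ≤
        (n.factorial : ℝ) * (1 / 100 * (1 / 4) ^ i) := by
      intro i hi
      rw [Finset.mem_range] at hi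
      have hk : 12 + i ≤ n / 2 := by omega
      refine (C6_term hk (sig_two n (12 + i)) (Pp_le (by omega) hk)).trans ?_
      refine mul_le_mul_of_nonneg_left ?_ hn0.le
      refine le_trans (le_of_eq ?_) (C6_tail i)
      have hf : ((12 + i).factorial : ℝ) = (12 + i : ℝ) * ((11 + i).factorial : ℝ) := by
        rw [show 12 + i = (11 + i) + 1 by ring, Nat.factorial_succ]
        push_cast
        ring
      have hf0 : (0 : ℝ) < ((11 + i).factorial : ℝ) := by exact_mod_cast Nat.factorial_pos _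
      have hi0 : (0 : ℝ) ≤ i := Nat.cast_nonneg i
      have hs : ((121 / 50 : ℝ) ^ (12 + i)) ^ 2 = (14641 / 5000 : ℝ) ^ (12 + i) * 2 ^ (12 + i) := by
        rw [← pow_mul, mul_comm (12 + i) 2, pow_mul, ← mul_pow]
        norm_num
      rw [hs, hf]
      push_cast
      have h12 : (12 + (i : ℝ)) ≠ 0 := by positivity
      field_simp
    refine (Finset.sum_le_sum h1).trans ?_
    rw [← Finset.mul_sum, ← Finset.mul_sum]
    refine mul_le_mul_of_nonneg_left ?_ hn0.le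
    have := C6_geom (n / 2 + 1 - 12)
    linarith
  nlinarith

end Pool.H77.AN
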