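import Pool.Agent.H77.AN.Dg
import Pool.Agent.H77.AN.C2

/-!
Row C7 (project MP_e5a1a5_AN, PI helper77), about 130 lines (uses the STATEMENT of C2): the estimates for odd `p`.

`class_p`: `q = n / p`, `k ≤ q`: `n! / (n - p k)! ≥ (p q).descFactorial (p k) = ∏ i < k, (p (q - i)).descFactorial p ≥ ∏ i < k, (q - i) ^ p * p!` (`p j - i ≥ j (p - i)` for `0 ≤ i < p`, `1 ≤ j`). Induction on `k` is possible.
`term_p`: `cnt ≤ choose q k * s ^ k`, `choose q k * k! = q.descFactorial k =: d`, so `cnt^2 (n - p k)! p^k k! * (k! ((p-1)!)^k d^(p-2)) ≤ s^(2k) * (n - p k)! (p!)^k d^p ≤ s^(2k) n!`.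
`e_three` (`n ≥ 64`, `q ≥ 21`, `s = 17/5`, `c = s^2 / 2 = 5.78`): the terms `t k = c^k / (k! d)` satisfy `t 1 ≤ 7/25`, `t 2 ≤ 1/25`,
`t (k+1) = t k * c / ((k+1) (q-k)) ≤ t k * 7/25`; total `≤ 7/25 + 1/18 ≤ .36`.
-/

set_option autoImplicit false

namespace Pool.H77.AN

theorem c7_desc {p m j : ℕ} (hj : 1 ≤ j) (hm : p * j ≤ m) :
    p.factorial * j ^ p ≤ m.descFactorial p := by
  have h1 : p.factorial * j ^ p = ∏ i ∈ Finset.range p, ((p - i) * j) := by
    rw [Finset.prod_mul_distrib, Finset.prod_const, Finset.card_range,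
      ← Nat.descFactorial_eq_prod_range, Nat.descFactorial_self]
  rw [h1, Nat.descFactorial_eq_prod_range]
  refine Finset.prod_le_prod' fun i hi => ?_
  rw [Finset.mem_range] at hi
  have h2 : i * 1 ≤ i * j := Nat.mul_le_mul_left i hj
  have h3 : (p - i) * j + i * j = p * j := by
    rw [← Nat.add_mul]
    congr 1
    omega
  omega

theorem class_p {p : ℕ} (hp : 1 ≤ p) {n k : ℕ} (hk : k ≤ n / p) :
    (n - p * k).factorial * p.factorial ^ k * (n / p).descFactorial k ^ p ≤ n.factorial := by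
  induction k with
  | zero => simp
  | succ k ih =>
    have h1 : p * (n / p) ≤ n := Nat.mul_div_le n p
    have h2 : p * (n / p - k) ≤ n - p * k := by
      rw [Nat.mul_sub]
      omega
    have h3 : n - p * (k + 1) = n - p * k - p := by
      rw [Nat.mul_add]
      omega
    have h4 : p ≤ n - p * k := by
      refine le_trans ?_ h2
      exact Nat.le_mul_of_pos_right p (by omega)
    have h5 := Nat.factorial_mul_descFactorial h4
    have h6 := c7_desc (p := p) (m := n - p * k) (j := n / p - k) (by omega) h2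
    refine le_trans ?_ (ih (by omega))
    rw [h3, Nat.descFactorial_succ, mul_pow, pow_succ, ← h5]
    calc (n - p * k - p).factorial * (p.factorial ^ k * p.factorial) *
          ((n / p - k) ^ p * (n / p).descFactorial k ^ p) =
        (n - p * k - p).factorial * (p.factorial * (n / p - k) ^ p) * p.factorial ^ k *
          (n / p).descFactorial k ^ p := by ring
      _ ≤ (n - p * k - p).factorial * (n - p * k).descFactorial p * p.factorial ^ k *
          (n / p).descFactorial k ^ p := by gcongr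

theorem term_p {p : ℕ} (hp : 2 ≤ p) {s : ℝ} {n k : ℕ} (hk : k ≤ n / p)
    (h : (cnt p n k : ℝ) ≤ ((n / p).choose k : ℝ) * s ^ k) :
    (cnt p n k : ℝ) ^ 2 * (((n - p * k).factorial : ℝ) * (p : ℝ) ^ k * (k.factorial : ℝ)) ≤
      (n.factorial : ℝ) * ((s ^ 2 / ((p - 1).factorial : ℝ)) ^ k / (k.factorial : ℝ) /
        ((n / p).descFactorial k : ℝ) ^ (p - 2)) := by
  have hd : (0 : ℝ) < ((n / p).descFactorial k : ℝ) := by
    have : (n / p).descFactorial k ≠ 0 := by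
      rw [Ne, Nat.descFactorial_eq_zero_iff_lt]
      omega
    exact_mod_cast Nat.pos_of_ne_zero this
  have hkf : (0 : ℝ) < (k.factorial : ℝ) := by exact_mod_cast Nat.factorial_pos k
  have hpf : (0 : ℝ) < ((p - 1).factorial : ℝ) := by exact_mod_cast Nat.factorial_pos (p - 1)
  have hnf : (0 : ℝ) < ((n - p * k).factorial : ℝ) := by
    exact_mod_cast Nat.factorial_pos (n - p * k)
  have hpp : (0 : ℝ) < (p : ℝ) := by exact_mod_cast (by omega : 0 < p)
  have hch : ((n / p).choose k : ℝ) = ((n / p).descFactorial k : ℝ) / (k.factorial : ℝ) := by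
    rw [eq_div_iff (ne_of_gt hkf), Nat.descFactorial_eq_factorial_mul_choose]
    push_cast
    ring
  have hcl := class_p (p := p) (by omega) hk
  have hcl' : ((n - p * k).factorial : ℝ) * (p.factorial : ℝ) ^ k *
      ((n / p).descFactorial k : ℝ) ^ p ≤ (n.factorial : ℝ) := by exact_mod_cast hcl
  have hpfac : (p.factorial : ℝ) = (p : ℝ) * ((p - 1).factorial : ℝ) := by
    obtain ⟨m, rfl⟩ : ∃ m, p = m + 1 := ⟨p - 1, by omega⟩
    rw [Nat.factorial_succ, Nat.add_sub_cancel]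
    push_cast
    ring
  rw [hpfac] at hcl'
  have hsq : (cnt p n k : ℝ) ^ 2 ≤
      (((n / p).descFactorial k : ℝ) / (k.factorial : ℝ) * s ^ k) ^ 2 := by
    rw [← hch]
    exact pow_le_pow_left₀ (Nat.cast_nonneg _) h 2
  have hdp : ((n / p).descFactorial k : ℝ) ^ p =
      ((n / p).descFactorial k : ℝ) ^ 2 * ((n / p).descFactorial k : ℝ) ^ (p - 2) := by
    rw [← pow_add]
    congr 1
    omega
  rw [hdp] at hcl'
  refine le_trans (mul_le_mul_of_nonneg_right hsq (by positivity)) ?_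
  generalize ((n / p).descFactorial k : ℝ) = d at *
  generalize (k.factorial : ℝ) = f at *
  generalize ((p - 1).factorial : ℝ) = g at *
  generalize ((n - p * k).factorial : ℝ) = a at *
  generalize (n.factorial : ℝ) = N at *
  have e1 : (d / f * s ^ k) ^ 2 * (a * (p : ℝ) ^ k * f) =
      (a * ((p : ℝ) * g) ^ k * (d ^ 2 * d ^ (p - 2))) *
        ((s ^ 2 / g) ^ k / f / d ^ (p - 2)) := by
    rw [mul_pow, mul_pow, div_pow, div_pow, ← pow_mul, ← pow_mul]
    have hg' : g ^ k ≠ 0 := (pow_pos hpf k).ne'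
    have hd' : d ^ (p - 2) ≠ 0 := (pow_pos hd (p - 2)).ne'
    have hf' : f ≠ 0 := ne_of_gt hkf
    rw [mul_comm k 2]
    field_simp
  rw [e1]
  refine mul_le_mul_of_nonneg_right hcl' ?_
  have : 0 ≤ (s ^ 2 / g) ^ k := by positivity
  positivity

/-- The terms of `e_three`. -/
noncomputable def c7_t (q k : ℕ) : ℝ :=
  (289 / 50 : ℝ) ^ k / (k.factorial : ℝ) / (q.descFactorial k : ℝ)

theorem c7_t_nonneg (q k : ℕ) : 0 ≤ c7_t q k := by
  unfold c7_t
  positivity

theorem c7_t_succ (q k : ℕ) :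
    c7_t q (k + 1) = c7_t q k * ((289 / 50) / (((k : ℝ) + 1) * ((q - k : ℕ) : ℝ))) := by
  unfold c7_t
  rw [Nat.factorial_succ, Nat.descFactorial_succ, pow_succ]
  push_cast
  rw [div_div, div_div, div_mul_div_comm]
  congr 1
  ring

theorem c7_t_one {q : ℕ} (hq : 21 ≤ q) : c7_t q 1 ≤ 7 / 25 := by
  unfold c7_t
  have hq' : (21 : ℝ) ≤ (q : ℝ) := by exact_mod_cast hq
  rw [Nat.factorial_one, Nat.descFactorial_one, pow_one, Nat.cast_one, div_one,
    div_le_iff₀ (by linarith)]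
  nlinarith

theorem c7_t_step {q k : ℕ} (hq : 21 ≤ q) (hk : k + 1 ≤ q) :
    c7_t q (k + 1) ≤ c7_t q k * (7 / 25) := by
  rw [c7_t_succ]
  refine mul_le_mul_of_nonneg_left ?_ (c7_t_nonneg q k)
  obtain ⟨m, rfl⟩ : ∃ m, q = k + 1 + m := ⟨q - (k + 1), by omega⟩
  have e : k + 1 + m - k = m + 1 := by omega
  rw [e]
  have h1 : (21 : ℝ) ≤ (k : ℝ) + 1 + m := by exact_mod_cast hq
  have hk0 : (0 : ℝ) ≤ (k : ℝ) := Nat.cast_nonneg k
  have hm0 : (0 : ℝ) ≤ (m : ℝ) := Nat.cast_nonneg m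
  push_cast
  rw [div_le_iff₀ (by positivity)]
  nlinarith [mul_nonneg hk0 hm0]

theorem c7_t_two {q : ℕ} (hq : 21 ≤ q) : c7_t q 2 ≤ 1 / 25 := by
  rw [c7_t_succ]
  have h1 := c7_t_one hq
  have h0 := c7_t_nonneg q 1
  obtain ⟨m, rfl⟩ : ∃ m, q = m + 21 := ⟨q - 21, by omega⟩
  have e : m + 21 - 1 = m + 20 := by omega
  rw [e]
  have hm0 : (0 : ℝ) ≤ (m : ℝ) := Nat.cast_nonneg m
  have h2 : (289 / 50 : ℝ) / (((1 : ℕ) : ℝ) + 1) / ((m + 20 : ℕ) : ℝ) ≤ 289 / 2000 := by
    push_cast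
    rw [div_div, div_le_iff₀ (by positivity)]
    nlinarith
  have h3 : c7_t (m + 21) 1 ≤ 289 / 1050 := by
    unfold c7_t
    rw [Nat.factorial_one, Nat.descFactorial_one, pow_one, Nat.cast_one, div_one,
      div_le_iff₀ (by positivity)]
    push_cast
    nlinarith
  rw [← div_div]
  calc c7_t (m + 21) 1 * ((289 / 50 : ℝ) / (((1 : ℕ) : ℝ) + 1) / ((m + 20 : ℕ) : ℝ)) ≤
      (289 / 1050) * (289 / 2000) := by
        refine mul_le_mul h3 h2 (by positivity) (by norm_num)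
    _ ≤ 1 / 25 := by norm_num

theorem c7_t_le {q : ℕ} (hq : 21 ≤ q) (k : ℕ) (hk : k + 2 ≤ q) :
    c7_t q (k + 2) ≤ 1 / 25 * (7 / 25) ^ k := by
  induction k with
  | zero => simpa using c7_t_two hq
  | succ k ih =>
    have h1 := c7_t_step hq (show (k + 2) + 1 ≤ q by omega)
    have h2 := ih (by omega)
    have e : k + 1 + 2 = k + 2 + 1 := by omega
    rw [e, pow_succ]
    calc c7_t q (k + 2 + 1) ≤ c7_t q (k + 2) * (7 / 25) := h1
      _ ≤ 1 / 25 * (7 / 25) ^ k * (7 / 25) := by gcongr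
      _ = 1 / 25 * ((7 / 25) ^ k * (7 / 25)) := by ring

theorem c7_sum {q : ℕ} (hq : 21 ≤ q) (m : ℕ) (hm : m + 1 ≤ q) :
    ∑ k ∈ Finset.Icc 1 (m + 1), c7_t q k ≤ 7 / 25 + 1 / 18 * (1 - (7 / 25) ^ m) := by
  induction m with
  | zero => simpa using c7_t_one hq
  | succ m ih =>
    rw [Finset.sum_Icc_succ_top (by omega)]
    have h1 := c7_t_le hq m (by omega)
    have h2 := ih (by omega)
    rw [pow_succ]
    have e : m + 1 + 1 = m + 2 := rfl
    rw [e]
    linarith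

theorem e_three {n : ℕ} (hn : 64 ≤ n) : (SpS 3 n : ℝ) ≤ 36 / 100 * (n.factorial : ℝ) := by
  have hq : 21 ≤ n / 3 := by omega
  rw [SpS_eq]
  push_cast
  have hN : (0 : ℝ) ≤ (n.factorial : ℝ) := Nat.cast_nonneg _
  have h1 : ∀ k ∈ Finset.Icc 1 (n / 3), (cnt 3 n k : ℝ) ^ 2 *
      (((n - 3 * k).factorial : ℝ) * (3 : ℝ) ^ k * (k.factorial : ℝ)) ≤
      (n.factorial : ℝ) * c7_t (n / 3) k := by
    intro k hk
    rw [Finset.mem_Icc] at hk
    have h := term_p (p := 3) (by norm_num) hk.2 (sig_three n k)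
    have e : ((17 / 5 : ℝ) ^ 2 / (((3 - 1 : ℕ).factorial : ℕ) : ℝ)) = 289 / 50 := by
      norm_num [Nat.factorial]
    rw [e] at h
    have e2 : ((n / 3).descFactorial k : ℝ) ^ (3 - 2) = ((n / 3).descFactorial k : ℝ) := by
      rw [show 3 - 2 = 1 from rfl, pow_one]
    rw [e2] at h
    unfold c7_t
    exact_mod_cast h
  refine le_trans (Finset.sum_le_sum h1) ?_
  rw [← Finset.mul_sum]
  obtain ⟨m, hm⟩ : ∃ m, n / 3 = m + 1 := ⟨n / 3 - 1, by omega⟩
  have h2 := c7_sum hq m (by omega)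
  rw [← hm] at h2
  have h3 : (0 : ℝ) ≤ (7 / 25) ^ m := by positivity
  have h4 : ∑ k ∈ Finset.Icc 1 (n / 3), c7_t (n / 3) k ≤ 36 / 100 := by linarith
  calc (n.factorial : ℝ) * ∑ k ∈ Finset.Icc 1 (n / 3), c7_t (n / 3) k ≤
      (n.factorial : ℝ) * (36 / 100) := by gcongr
    _ = 36 / 100 * (n.factorial : ℝ) := by ring

end Pool.H77.AN
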