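import Pool.Agent.H77.AN.C7

/-!
Row C8 (project MP_e5a1a5_AN, PI helper77), about 110 lines (uses the STATEMENTS of C2, C7): the estimates for `p ≥ 5`.

PROOF. `s = 11 p / 10` (`sig_five`), `c = s^2 / (p-1)! = 1.21 p^2 / (p-1)!`, `q = n / p ≥ 1`, `d = q.descFactorial k ≥ q` for `1 ≤ k ≤ q` (`≥ q * (q-1).descFactorial (k-1)`, positive). `term_p`: `SpS p n ≤ n! * (1 / q^(p-2)) * ∑ k ≥ 1, c^k / k!`.
`p = 5, 6, 7`: `q ≥ 9`, `c ≤ 1.2605 ≤ 3/2`, `∑ k ≥ 1, c^k / k! ≤ exp (3/2) - 1 ≤ 4` (`exp 1 ≤ 2.7182818286`; or `exp (3/2) ≤ 5`), so `SpS p n / (p - 1) ≤ n! * 4 / 729 / 4 ≤ 2/1000 * n!`.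
`p ≥ 8`: `c ≤ (1/64) (1/5)^(p-8)` (induction: `(p+1)^2 / p^3 ≤ 1/5`), `∑ k ≥ 1, c^k / k! ≤ c / (1 - c) ≤ 2 c` , so `SpS p n / (p - 1) ≤ n! * (1/224) (1/5)^(p-8)`; sum over `p ≥ 8` : `≤ (5/4) / 224 ≤ 6/1000`. Total `≤ 12/1000 ≤ 15/1000`.
-/

set_option autoImplicit false

namespace Pool.H77.AN

private theorem C8_desc {q : ℕ} : ∀ {k : ℕ}, 1 ≤ k → k ≤ q → q ≤ q.descFactorial k := by
  intro k h1
  induction k, h1 using Nat.le_induction with
  | base =>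
    intro _
    simp
  | succ k hk ih =>
    intro h2
    rw [Nat.descFactorial_succ]
    have h3 : 1 ≤ q - k := by omega
    calc q ≤ q.descFactorial k := ih (by omega)
      _ = 1 * q.descFactorial k := (one_mul _).symm
      _ ≤ (q - k) * q.descFactorial k := Nat.mul_le_mul_right _ h3

private theorem C8_exp {c : ℝ} (hc : 0 ≤ c) (q : ℕ) :
    ∑ k ∈ Finset.Icc 1 q, c ^ k / (k.factorial : ℝ) ≤ Real.exp c - 1 := by
  have h1 := Real.sum_le_exp_of_nonneg hc (q + 1)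
  rw [Finset.sum_range_succ'] at h1
  have h2 : ∑ k ∈ Finset.Icc 1 q, c ^ k / (k.factorial : ℝ) =
      ∑ k ∈ Finset.range q, c ^ (k + 1) / ((k + 1).factorial : ℝ) := by
    have h3 : Finset.Icc 1 q = Finset.Ico 1 (q + 1) := by
      ext k
      simp only [Finset.mem_Ico, Finset.mem_Icc]
      omega
    rw [h3, Finset.sum_Ico_eq_sum_range]
    refine Finset.sum_congr rfl fun k _ => ?_
    rw [add_comm 1 k]
  rw [h2]
  simp only [pow_zero, Nat.factorial_zero, Nat.cast_one, div_one] at h1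
  linarith

private theorem C8_S {p : ℕ} (hp : 5 ≤ p) {n : ℕ} (hn : p ≤ n) :
    (SpS p n : ℝ) ≤ (n.factorial : ℝ) *
      ((Real.exp ((11 * p / 10 : ℝ) ^ 2 / ((p - 1).factorial : ℝ)) - 1) /
        ((n / p : ℕ) : ℝ) ^ (p - 2)) := by
  obtain ⟨c, hc⟩ : ∃ c : ℝ, c = (11 * p / 10 : ℝ) ^ 2 / ((p - 1).factorial : ℝ) := ⟨_, rfl⟩
  have hc0 : 0 ≤ c := by rw [hc]; positivity
  obtain ⟨q, hq⟩ : ∃ q, q = n / p := ⟨_, rfl⟩
  have hq1 : 1 ≤ q := by rw [hq]; exact Nat.div_pos hn (by omega)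
  have hq0 : (0 : ℝ) < (q : ℝ) ^ (p - 2) := by
    have : (0 : ℝ) < q := by exact_mod_cast hq1
    positivity
  rw [← hc, ← hq, SpS_eq, ← hq]
  push_cast
  have h1 : ∀ k ∈ Finset.Icc 1 q, (cnt p n k : ℝ) ^ 2 * (((n - p * k).factorial : ℝ) * (p : ℝ) ^ k *
      (k.factorial : ℝ)) ≤ (n.factorial : ℝ) * ((c ^ k / (k.factorial : ℝ)) / (q : ℝ) ^ (p - 2)) := by
    intro k hk
    rw [Finset.mem_Icc] at hk
    refine (term_p (p := p) (by omega) (s := (11 * p / 10 : ℝ)) (n := n) (k := k)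
      (by rw [← hq]; exact hk.2) (sig_five hp n k)).trans ?_
    rw [← hc, ← hq]
    refine mul_le_mul_of_nonneg_left ?_ (Nat.cast_nonneg _)
    refine div_le_div_of_nonneg_left (by positivity) hq0 ?_
    refine pow_le_pow_left₀ (Nat.cast_nonneg _) ?_ _
    exact_mod_cast C8_desc hk.1 hk.2
  refine (Finset.sum_le_sum h1).trans ?_
  rw [← Finset.mul_sum, ← Finset.sum_div]
  refine mul_le_mul_of_nonneg_left ?_ (Nat.cast_nonneg _)
  exact div_le_div_of_nonneg_right (C8_exp hc0 q) hq0.le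

private theorem C8_small {p : ℕ} (hp : 5 ≤ p) (hp7 : p ≤ 7) {n : ℕ} (hn : 64 ≤ n) :
    (SpS p n : ℝ) / ((p : ℝ) - 1) ≤ 1 / 729 * (n.factorial : ℝ) := by
  have h1 := C8_S hp (n := n) (by omega)
  have hc : (11 * p / 10 : ℝ) ^ 2 / ((p - 1).factorial : ℝ) ≤ 3 / 2 := by
    interval_cases p <;> norm_num [Nat.factorial]
  have he : Real.exp ((11 * p / 10 : ℝ) ^ 2 / ((p - 1).factorial : ℝ)) - 1 ≤ 4 := by
    have h2 : Real.exp (3 / 2) ≤ 5 := by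
      have h3 : Real.exp (3 / 2) ^ 2 = Real.exp 1 ^ 3 := by
        rw [← Real.exp_nat_mul, ← Real.exp_nat_mul]
        norm_num
      have h4 : Real.exp 1 ^ 3 ≤ 25 := by
        have h5 : Real.exp 1 ≤ 2.8 := by
          have := Real.exp_one_lt_d9
          linarith
        calc Real.exp 1 ^ 3 ≤ 2.8 ^ 3 := pow_le_pow_left₀ (Real.exp_pos 1).le h5 3
          _ ≤ 25 := by norm_num
      have h6 : 0 < Real.exp (3 / 2) := Real.exp_pos _
      nlinarith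
    have := Real.exp_le_exp.2 hc
    linarith
  have hq : 9 ≤ n / p := by
    rw [Nat.le_div_iff_mul_le (by omega)]
    interval_cases p <;> omega
  have hq2 : (729 : ℝ) ≤ ((n / p : ℕ) : ℝ) ^ (p - 2) := by
    have h2 : (9 : ℝ) ≤ ((n / p : ℕ) : ℝ) := by exact_mod_cast hq
    calc (729 : ℝ) = 9 ^ 3 := by norm_num
      _ ≤ ((n / p : ℕ) : ℝ) ^ 3 := pow_le_pow_left₀ (by norm_num) h2 3
      _ ≤ ((n / p : ℕ) : ℝ) ^ (p - 2) := pow_le_pow_right₀ (by linarith) (by omega)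
  have hn0 : (0 : ℝ) ≤ (n.factorial : ℝ) := Nat.cast_nonneg _
  have h3 : (Real.exp ((11 * p / 10 : ℝ) ^ 2 / ((p - 1).factorial : ℝ)) - 1) /
        ((n / p : ℕ) : ℝ) ^ (p - 2) ≤ 4 / 729 := by
    refine div_le_div₀ (by norm_num) he (by norm_num) hq2
  have h4 : (SpS p n : ℝ) ≤ (n.factorial : ℝ) * (4 / 729) :=
    h1.trans (mul_le_mul_of_nonneg_left h3 hn0)
  have hp5 : (5 : ℝ) ≤ p := by exact_mod_cast hp
  rw [div_le_iff₀ (by linarith)]
  nlinarith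

private theorem C8_c {p : ℕ} (hp : 8 ≤ p) :
    (11 * p / 10 : ℝ) ^ 2 / ((p - 1).factorial : ℝ) ≤ 1 / 64 * (1 / 5) ^ (p - 8) := by
  induction p, hp using Nat.le_induction with
  | base => norm_num [Nat.factorial]
  | succ p hp ih =>
    have hf : ((p + 1 - 1).factorial : ℝ) = (p : ℝ) * ((p - 1).factorial : ℝ) := by
      have h1 : (p + 1 - 1).factorial = p * (p - 1).factorial := by
        rw [Nat.add_sub_cancel, Nat.mul_factorial_pred (by omega)]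
      rw [h1]
      push_cast
      ring
    have h8 : (8 : ℝ) ≤ p := by exact_mod_cast hp
    have hf0 : (0 : ℝ) < ((p - 1).factorial : ℝ) := by exact_mod_cast Nat.factorial_pos _
    have e1 : p + 1 - 8 = (p - 8) + 1 := by omega
    rw [hf, e1, pow_succ]
    have h2 : (11 * ((p + 1 : ℕ) : ℝ) / 10) ^ 2 / ((p : ℝ) * ((p - 1).factorial : ℝ)) ≤
        ((11 * p / 10 : ℝ) ^ 2 / ((p - 1).factorial : ℝ)) * (1 / 5) := by
      rw [div_mul_eq_mul_div, div_le_div_iff₀ (by positivity) hf0]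
      have h3 : (11 * ((p + 1 : ℕ) : ℝ) / 10) ^ 2 ≤ (11 * p / 10 : ℝ) ^ 2 * (1 / 5) * p := by
        push_cast
        nlinarith [mul_nonneg (sub_nonneg.2 h8) (sub_nonneg.2 h8), mul_nonneg (mul_nonneg
          (sub_nonneg.2 h8) (sub_nonneg.2 h8)) (sub_nonneg.2 h8)]
      calc (11 * ((p + 1 : ℕ) : ℝ) / 10) ^ 2 * ((p - 1).factorial : ℝ) ≤
          ((11 * p / 10 : ℝ) ^ 2 * (1 / 5) * p) * ((p - 1).factorial : ℝ) :=
            mul_le_mul_of_nonneg_right h3 hf0.le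
        _ = (11 * p / 10 : ℝ) ^ 2 * (1 / 5) * (p * ((p - 1).factorial : ℝ)) := by ring
    calc _ ≤ ((11 * p / 10 : ℝ) ^ 2 / ((p - 1).factorial : ℝ)) * (1 / 5) := h2
      _ ≤ (1 / 64 * (1 / 5) ^ (p - 8)) * (1 / 5) := mul_le_mul_of_nonneg_right ih (by norm_num)
      _ = 1 / 64 * ((1 / 5) ^ (p - 8) * (1 / 5)) := by ring

private theorem C8_large {p : ℕ} (hp : 8 ≤ p) {n : ℕ} (hn : p ≤ n) :
    (SpS p n : ℝ) / ((p : ℝ) - 1) ≤ (n.factorial : ℝ) * (1 / 224 * (1 / 5) ^ (p - 8)) := by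
  have h1 := C8_S (by omega : 5 ≤ p) hn
  obtain ⟨c, hc⟩ : ∃ c : ℝ, c = (11 * p / 10 : ℝ) ^ 2 / ((p - 1).factorial : ℝ) := ⟨_, rfl⟩
  have hc0 : 0 ≤ c := by rw [hc]; positivity
  have hc1 := C8_c hp
  rw [← hc] at h1 hc1
  have hpow : ((1 : ℝ) / 5) ^ (p - 8) ≤ 1 := pow_le_one₀ (by norm_num) (by norm_num)
  have hc2 : c ≤ 1 := by linarith
  have he : Real.exp c - 1 ≤ 2 * c := by
    have h2 := Real.abs_exp_sub_one_le (x := c) (by rw [abs_of_nonneg hc0]; exact hc2)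
    rw [abs_of_nonneg hc0] at h2
    exact (le_abs_self _).trans h2
  have he0 : 0 ≤ Real.exp c - 1 := by
    have := Real.one_le_exp hc0
    linarith
  have hq1 : (1 : ℝ) ≤ ((n / p : ℕ) : ℝ) ^ (p - 2) := by
    have h2 : 1 ≤ n / p := Nat.div_pos hn (by omega)
    exact one_le_pow₀ (by exact_mod_cast h2)
  have hn0 : (0 : ℝ) ≤ (n.factorial : ℝ) := Nat.cast_nonneg _
  have h3 : (Real.exp c - 1) / ((n / p : ℕ) : ℝ) ^ (p - 2) ≤ 2 * c :=
    (div_le_self he0 hq1).trans he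
  have h4 : (SpS p n : ℝ) ≤ (n.factorial : ℝ) * (2 * c) :=
    h1.trans (mul_le_mul_of_nonneg_left h3 hn0)
  have hp8 : (8 : ℝ) ≤ p := by exact_mod_cast hp
  rw [div_le_iff₀ (by linarith)]
  refine h4.trans ?_
  rw [mul_assoc]
  refine mul_le_mul_of_nonneg_left ?_ hn0
  have h5 : (0 : ℝ) ≤ (1 / 5) ^ (p - 8) := by positivity
  nlinarith [mul_nonneg h5 (sub_nonneg.2 hp8)]

private theorem C8_geom (m : ℕ) : ∑ i ∈ Finset.range m, ((1 : ℝ) / 5) ^ i ≤ 5 / 4 := by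
  have h1 : ∀ m : ℕ, ∑ i ∈ Finset.range m, ((1 : ℝ) / 5) ^ i = 5 / 4 - 5 / 4 * (1 / 5) ^ m := by
    intro m
    induction m with
    | zero => simp
    | succ m ih =>
      rw [Finset.sum_range_succ, ih, pow_succ]
      ring
  rw [h1 m]
  have h2 : (0 : ℝ) ≤ (1 / 5) ^ m := by positivity
  linarith

theorem e_five {n : ℕ} (hn : 64 ≤ n) :
    ∑ p ∈ Finset.Icc 5 n, (SpS p n : ℝ) / ((p : ℝ) - 1) ≤ 15 / 1000 * (n.factorial : ℝ) := by
  have h1 : Finset.Icc 5 n = Finset.Ico 5 8 ∪ Finset.Ico 8 (n + 1) := by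
    ext p
    simp only [Finset.mem_Icc, Finset.mem_union, Finset.mem_Ico]
    omega
  have hn0 : (0 : ℝ) ≤ (n.factorial : ℝ) := Nat.cast_nonneg _
  rw [h1, Finset.sum_union]
  · have h2 : ∑ p ∈ Finset.Ico 5 8, (SpS p n : ℝ) / ((p : ℝ) - 1) ≤
        ∑ p ∈ Finset.Ico 5 8, 1 / 729 * (n.factorial : ℝ) :=
      Finset.sum_le_sum fun p hp => by
        rw [Finset.mem_Ico] at hp
        exact C8_small hp.1 (by omega) hn
    have h3 : ∑ p ∈ Finset.Ico 8 (n + 1), (SpS p n : ℝ) / ((p : ℝ) - 1) ≤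
        ∑ p ∈ Finset.Ico 8 (n + 1), (n.factorial : ℝ) * (1 / 224 * (1 / 5) ^ (p - 8)) :=
      Finset.sum_le_sum fun p hp => by
        rw [Finset.mem_Ico] at hp
        exact C8_large hp.1 (by omega)
    rw [Finset.sum_const, Nat.card_Ico, nsmul_eq_mul] at h2
    have h7 : ∑ p ∈ Finset.Ico 8 (n + 1), ((1 : ℝ) / 5) ^ (p - 8) =
        ∑ i ∈ Finset.range (n + 1 - 8), ((1 : ℝ) / 5) ^ (8 + i - 8) :=
      Finset.sum_Ico_eq_sum_range _ _ _
    rw [← Finset.mul_sum, ← Finset.mul_sum, h7] at h3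
    have h4 : ∑ i ∈ Finset.range (n + 1 - 8), ((1 : ℝ) / 5) ^ (8 + i - 8) ≤ 5 / 4 := by
      have h5 : ∀ i : ℕ, 8 + i - 8 = i := fun i => by omega
      simp only [h5]
      exact C8_geom _
    have h6 : (n.factorial : ℝ) * (1 / 224 * ∑ i ∈ Finset.range (n + 1 - 8),
        ((1 : ℝ) / 5) ^ (8 + i - 8)) ≤ (n.factorial : ℝ) * (1 / 224 * (5 / 4)) :=
      mul_le_mul_of_nonneg_left (mul_le_mul_of_nonneg_left h4 (by norm_num)) hn0
    push_cast at h2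
    linarith
  · rw [Finset.disjoint_left]
    intro p h2 h3
    rw [Finset.mem_Ico] at h2 h3
    omega

end Pool.H77.AN
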