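import Pool.Agent.H77.AN.C6
import Pool.Agent.H77.AN.C8

/-!
Row C9 (project MP_e5a1a5_AN, PI helper77), about 70 lines (uses the STATEMENTS of C6, C7, C8): the sums for `n ≥ 64`.

PROOF. Primes `p ≤ n` are `2, 3` or in `Icc 5 n`; `Sp 2 n ≤ SpS 2 n`, `Sp 3 n ≤ SpS 3 n` (`Sp_le'`), `Sp p n ≤ 2 SpS p n` (`Sp_le`). So `∑ Sp p n / (2 (p - 1)) ≤ n! (.39 + .09 + .015) = .495 n! < n! / 2` and
`∑ SpS p n / (p - 1) ≤ n! (.78 + .18 + .015) < n!` (`Nat.cast_div_le : ((a / b : ℕ) : ℝ) ≤ a / b`; `2 ∣ n!`; `e_two`, `e_three`, `e_five`).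
-/

set_option autoImplicit false

namespace Pool.H77.AN

private theorem C9_primes (F : ℕ → ℕ) (n : ℕ) :
    ∑ p ∈ (Finset.range (n + 1)).filter Nat.Prime, F p ≤ F 2 + F 3 + ∑ p ∈ Finset.Icc 5 n, F p := by
  have h1 : (Finset.range (n + 1)).filter Nat.Prime ⊆ ({2, 3} : Finset ℕ) ∪ Finset.Icc 5 n := by
    intro p hp
    rw [Finset.mem_filter, Finset.mem_range] at hp
    rw [Finset.mem_union, Finset.mem_insert, Finset.mem_singleton, Finset.mem_Icc]
    have h2 := hp.2.two_le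
    by_cases h4 : p = 4
    · subst h4
      exact absurd hp.2 (by norm_num)
    · omega
  have h5 : Disjoint ({2, 3} : Finset ℕ) (Finset.Icc 5 n) := by
    rw [Finset.disjoint_left]
    intro p h2 h3
    rw [Finset.mem_insert, Finset.mem_singleton] at h2
    rw [Finset.mem_Icc] at h3
    omega
  refine (Finset.sum_le_sum_of_subset h1).trans ?_
  rw [Finset.sum_union h5, Finset.sum_pair (by norm_num)]

private theorem C9_cast {p : ℕ} (hp : 1 ≤ p) : ((p - 1 : ℕ) : ℝ) = (p : ℝ) - 1 := by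
  rw [Nat.cast_sub hp, Nat.cast_one]

theorem good_sum {n : ℕ} (hn : 64 ≤ n) :
    ∑ p ∈ (Finset.range (n + 1)).filter Nat.Prime, Sp p n / (2 * (p - 1)) < n.factorial / 2 := by
  have hf : (0 : ℝ) < (n.factorial : ℝ) := by exact_mod_cast Nat.factorial_pos n
  have h2 := e_two hn
  have h3 := e_three hn
  have h5 := e_five hn
  refine lt_of_le_of_lt (C9_primes (fun p => Sp p n / (2 * (p - 1))) n) ?_
  have hd : 2 ∣ n.factorial := Nat.dvd_factorial (by norm_num) (by omega)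
  have hc : ((n.factorial / 2 : ℕ) : ℝ) = (n.factorial : ℝ) / 2 := by
    rw [Nat.cast_div hd (by norm_num)]
    norm_num
  have a2 : ((Sp 2 n / (2 * (2 - 1)) : ℕ) : ℝ) ≤ 39 / 100 * (n.factorial : ℝ) := by
    refine Nat.cast_div_le.trans ?_
    have h : (Sp 2 n : ℝ) ≤ (SpS 2 n : ℝ) := by exact_mod_cast Sp_le' (Or.inl rfl)
    norm_num
    linarith
  have a3 : ((Sp 3 n / (2 * (3 - 1)) : ℕ) : ℝ) ≤ 9 / 100 * (n.factorial : ℝ) := by
    refine Nat.cast_div_le.trans ?_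
    have h : (Sp 3 n : ℝ) ≤ (SpS 3 n : ℝ) := by exact_mod_cast Sp_le' (Or.inr (by omega))
    norm_num
    linarith
  have a5 : ∑ p ∈ Finset.Icc 5 n, ((Sp p n / (2 * (p - 1)) : ℕ) : ℝ) ≤
      15 / 1000 * (n.factorial : ℝ) := by
    refine (Finset.sum_le_sum fun p hp => ?_).trans h5
    rw [Finset.mem_Icc] at hp
    have hp5 : (5 : ℝ) ≤ p := by exact_mod_cast hp.1
    have h : (Sp p n : ℝ) ≤ 2 * (SpS p n : ℝ) := by exact_mod_cast Sp_le p n
    refine Nat.cast_div_le.trans ?_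
    rw [Nat.cast_mul, C9_cast (by omega), Nat.cast_ofNat, div_le_div_iff₀ (by linarith) (by linarith)]
    nlinarith
  have key : ((Sp 2 n / (2 * (2 - 1)) + Sp 3 n / (2 * (3 - 1)) +
      ∑ p ∈ Finset.Icc 5 n, Sp p n / (2 * (p - 1)) : ℕ) : ℝ) < ((n.factorial / 2 : ℕ) : ℝ) := by
    rw [hc, Nat.cast_add, Nat.cast_add, Nat.cast_sum]
    linarith
  exact_mod_cast key

theorem goodS_sum {n : ℕ} (hn : 64 ≤ n) :
    ∑ p ∈ (Finset.range (n + 1)).filter Nat.Prime, SpS p n / (p - 1) < n.factorial := by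
  have hf : (0 : ℝ) < (n.factorial : ℝ) := by exact_mod_cast Nat.factorial_pos n
  have h2 := e_two hn
  have h3 := e_three hn
  have h5 := e_five hn
  refine lt_of_le_of_lt (C9_primes (fun p => SpS p n / (p - 1)) n) ?_
  have a2 : ((SpS 2 n / (2 - 1) : ℕ) : ℝ) ≤ 78 / 100 * (n.factorial : ℝ) := by
    refine Nat.cast_div_le.trans ?_
    norm_num
    linarith
  have a3 : ((SpS 3 n / (3 - 1) : ℕ) : ℝ) ≤ 18 / 100 * (n.factorial : ℝ) := by
    refine Nat.cast_div_le.trans ?_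
    norm_num
    linarith
  have a5 : ∑ p ∈ Finset.Icc 5 n, ((SpS p n / (p - 1) : ℕ) : ℝ) ≤
      15 / 1000 * (n.factorial : ℝ) := by
    refine (Finset.sum_le_sum fun p hp => ?_).trans h5
    rw [Finset.mem_Icc] at hp
    refine Nat.cast_div_le.trans ?_
    rw [C9_cast (by omega)]
  have key : ((SpS 2 n / (2 - 1) + SpS 3 n / (3 - 1) +
      ∑ p ∈ Finset.Icc 5 n, SpS p n / (p - 1) : ℕ) : ℝ) < ((n.factorial : ℕ) : ℝ) := by
    rw [Nat.cast_add, Nat.cast_add, Nat.cast_sum]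
    linarith
  exact_mod_cast key

end Pool.H77.AN
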