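import Pool.Agent.H77.AN.B2
import Pool.Agent.H77.AN.B3

/-!
Row D5 (project MP_e5a1a5_AN, PI helper77), about 110 lines (uses the STATEMENTS of B2, B3): the degrees 5 and 6.

PROOF of `bad5`: `bad_count`: `8 * #bad ≤ Sp 5 n = 160` (kernel), so `#bad ≤ 20`. `Nat.card S = 5` (`60 = 5 * 12`, `360 = 5 * 72`; `Sylow.card_eq_multiplicity`), so a nontrivial `a ∈ S` generates `S` and the bad set is the normalizer of `S`:
`N = S.normalizer`, `Nat.card N ≤ 20`. The number `m` of Sylow 5-subgroups is the index of `N` (`Sylow.card_eq_index_normalizer`), `m ≡ 1 mod 5` (`card_sylow_modEq_one`), `m * Nat.card N = 60` or `360`, `5 ∣ Nat.card N`. `n = 5`: `m ∣ 12`, `m ≥ 3`: `m = 6`,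
`Nat.card N = 10`. `n = 6`: `m ∣ 72`, `m ≥ 18`, `m ≡ 1 mod 5`: `m = 36`, `Nat.card N = 10`.
`good5`, `good6`: `good_of_bounds` with `b p = if p = 5 then 10 else Sp p n / (2 * (p - 1))` (`bad_count`, `Nat.le_div_iff_mul_le`); sums `36 + 6 + 10 = 52 < 60`, `200 + 144 + 10 = 354 < 360` (primes `≤ 6` are `2, 3, 5`; `decide +kernel` for `Sp`).
-/

set_option autoImplicit false
open scoped Classical

namespace Pool.H77.AN

open Equiv

variable {α : Type} [Fintype α] [DecidableEq α]

theorem D5_card (h : Fintype.card α = 5 ∨ Fintype.card α = 6) :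
    Nat.card (alternatingGroup α) = 60 ∨ Nat.card (alternatingGroup α) = 360 := by
  have : Nontrivial α := Fintype.one_lt_card_iff_nontrivial.1 (by omega)
  have hc := nat_card_alternatingGroup (α := α)
  rw [Nat.card_eq_fintype_card (α := α)] at hc
  rcases h with h | h
  · left
    rw [hc, h]
    rfl
  · right
    rw [hc, h]
    rfl

theorem D5_S (h : Fintype.card α = 5 ∨ Fintype.card α = 6) [Fact (Nat.Prime 5)]
    (S : Sylow 5 (alternatingGroup α)) : Nat.card S = 5 := by
  have e : (Nat.card (alternatingGroup α)).factorization 5 = 1 := by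
    rcases D5_card h with h | h
    · rw [h, show 60 = 5 * 12 by norm_num, Nat.factorization_mul (by norm_num) (by norm_num),
        Finsupp.add_apply, Nat.Prime.factorization_self (by norm_num),
        Nat.factorization_eq_zero_of_not_dvd (by norm_num)]
    · rw [h, show 360 = 5 * 72 by norm_num, Nat.factorization_mul (by norm_num) (by norm_num),
        Finsupp.add_apply, Nat.Prime.factorization_self (by norm_num),
        Nat.factorization_eq_zero_of_not_dvd (by norm_num)]
  rw [Sylow.card_eq_multiplicity, e, pow_one]

theorem D5_Sp : Sp 5 5 = 160 ∧ Sp 5 6 = 160 := by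
  decide +kernel

theorem bad5 (h : Fintype.card α = 5 ∨ Fintype.card α = 6) (S : Sylow 5 (alternatingGroup α)) :
    {x : alternatingGroup α | ∃ a ∈ (S : Subgroup (alternatingGroup α)),
      x * a * x⁻¹ ∈ (S : Subgroup (alternatingGroup α)) ∧ a ≠ 1}.ncard ≤ 10 := by
  haveI : Fact (Nat.Prime 5) := ⟨by norm_num⟩
  have hS := D5_S h S
  have gen : ∀ b ∈ (S : Subgroup (alternatingGroup α)), b ≠ 1 →
      ∀ n ∈ (S : Subgroup (alternatingGroup α)), ∃ k : ℤ, b ^ k = n := by
    intro b hb hb1 n hn
    have h1 : (⟨n, hn⟩ : (S : Subgroup (alternatingGroup α))) ∈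
        Subgroup.zpowers (⟨b, hb⟩ : (S : Subgroup (alternatingGroup α))) := by
      apply mem_zpowers_of_prime_card (p := 5) hS
      intro h2
      exact hb1 (congrArg Subtype.val h2)
    obtain ⟨k, hk⟩ := Subgroup.mem_zpowers_iff.1 h1
    refine ⟨k, ?_⟩
    have := congrArg Subtype.val hk
    simpa using this
  have hBN : {x : alternatingGroup α | ∃ a ∈ (S : Subgroup (alternatingGroup α)),
      x * a * x⁻¹ ∈ (S : Subgroup (alternatingGroup α)) ∧ a ≠ 1} =
      ((Subgroup.normalizer (S : Set (alternatingGroup α)) : Subgroup (alternatingGroup α)) :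
        Set (alternatingGroup α)) := by
    ext x
    constructor
    · rintro ⟨a, ha, hxa, ha1⟩
      have hxa1 : x * a * x⁻¹ ≠ 1 := by
        intro h3
        apply ha1
        have h4 := congrArg (fun z => x⁻¹ * z * x) h3
        simpa [mul_assoc] using h4
      have h5 : ∀ n, n ∈ (S : Subgroup (alternatingGroup α)) ↔
          x * n * x⁻¹ ∈ (S : Subgroup (alternatingGroup α)) := by
        intro n
        constructor
        · intro hn
          obtain ⟨k, rfl⟩ := gen a ha ha1 n hn
          rw [← conj_zpow]
          exact zpow_mem hxa k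
        · intro hn
          obtain ⟨k, hk⟩ := gen _ hxa hxa1 _ hn
          rw [conj_zpow] at hk
          have h6 := congrArg (fun z => x⁻¹ * z * x) hk
          have h7 : a ^ k = n := by simpa [mul_assoc] using h6
          rw [← h7]
          exact zpow_mem ha k
      exact h5
    · intro hx
      have h5 : ∀ n, n ∈ (S : Subgroup (alternatingGroup α)) ↔
          x * n * x⁻¹ ∈ (S : Subgroup (alternatingGroup α)) := hx
      have h6 : ∃ a ∈ (S : Subgroup (alternatingGroup α)), a ≠ 1 := by
        by_contra hcon
        push Not at hcon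
        have h7 : (S : Subgroup (alternatingGroup α)) = ⊥ := by
          rw [Subgroup.eq_bot_iff_forall]
          exact hcon
        have h8 : Nat.card (S : Subgroup (alternatingGroup α)) = 1 := by
          rw [h7]
          exact Subgroup.card_bot
        have h9 : Nat.card (S : Subgroup (alternatingGroup α)) = 5 := hS
        omega
      obtain ⟨a, ha, ha1⟩ := h6
      exact ⟨a, ha, (h5 a).1 ha, ha1⟩
  have hcount := bad_count (p := 5) (by norm_num) (S : Subgroup (alternatingGroup α)) S.isPGroup'
  have h20 : {x : alternatingGroup α | ∃ a ∈ (S : Subgroup (alternatingGroup α)),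
      x * a * x⁻¹ ∈ (S : Subgroup (alternatingGroup α)) ∧ a ≠ 1}.ncard ≤ 20 := by
    rcases h with h | h
    · rw [h, D5_Sp.1] at hcount
      omega
    · rw [h, D5_Sp.2] at hcount
      omega
  rw [hBN] at h20 ⊢
  have hcard : ((Subgroup.normalizer (S : Set (alternatingGroup α)) :
      Subgroup (alternatingGroup α)) : Set (alternatingGroup α)).ncard =
      Nat.card (Subgroup.normalizer (S : Set (alternatingGroup α))) := by
    rw [← Nat.card_coe_set_eq]
    rfl
  rw [hcard] at h20 ⊢
  have hm := card_sylow_modEq_one 5 (alternatingGroup α)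
  rw [Sylow.card_eq_index_normalizer S] at hm
  have hmul := Subgroup.index_mul_card (Subgroup.normalizer (S : Set (alternatingGroup α)))
  have hle : (S : Subgroup (alternatingGroup α)) ≤
      Subgroup.normalizer (S : Set (alternatingGroup α)) := Subgroup.le_normalizer
  have h5d : 5 ∣ Nat.card (Subgroup.normalizer (S : Set (alternatingGroup α))) := by
    have h9 : Nat.card (S : Subgroup (alternatingGroup α)) = 5 := hS
    have h10 := Subgroup.card_dvd_of_le hle
    rwa [h9] at h10
  generalize Nat.card (Subgroup.normalizer (S : Set (alternatingGroup α))) = c at *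
  generalize (Subgroup.normalizer (S : Set (alternatingGroup α))).index = m at *
  obtain ⟨e, rfl⟩ := h5d
  have he : e ≤ 4 := by omega
  have hm' : m % 5 = 1 := hm
  rcases D5_card h with h60 | h60
  · rw [h60] at hmul
    interval_cases e <;> omega
  · rw [h60] at hmul
    interval_cases e <;> omega

theorem good5 (h : Fintype.card α = 5) : Good α := by
  apply good_of_bounds (by omega) (fun p => if p = 5 then 10 else Sp p 5 / (2 * (p - 1)))
  · intro p hp _ S
    by_cases h5 : p = 5
    · subst h5
      rw [if_pos rfl]
      exact bad5 (Or.inl h) S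
    · rw [if_neg h5, Nat.le_div_iff_mul_le (by have := hp.two_le; omega), mul_comm]
      haveI : Fact p.Prime := ⟨hp⟩
      have := bad_count hp (S : Subgroup (alternatingGroup α)) S.isPGroup'
      rw [h] at this
      exact this
  · rw [h]
    decide +kernel

theorem good6 (h : Fintype.card α = 6) : Good α := by
  apply good_of_bounds (by omega) (fun p => if p = 5 then 10 else Sp p 6 / (2 * (p - 1)))
  · intro p hp _ S
    by_cases h5 : p = 5
    · subst h5
      rw [if_pos rfl]
      exact bad5 (Or.inr h) S
    · rw [if_neg h5, Nat.le_div_iff_mul_le (by have := hp.two_le; omega), mul_comm]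
      haveI : Fact p.Prime := ⟨hp⟩
      have := bad_count hp (S : Subgroup (alternatingGroup α)) S.isPGroup'
      rw [h] at this
      exact this
  · rw [h]
    decide +kernel

end Pool.H77.AN
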