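import Pool.Agent.H77.AN.A1
import Pool.Agent.H77.AN.A5

/-!
Row D8 (project MP_e5a1a5_AN, PI helper77), about 150 lines (uses the STATEMENTS of A1): degree 8, the prime 2.

Number `((a, b), c)` by `4 a + 2 b + c`. `W8` preserves the pairs `{0,1},{2,3},{4,5},{6,7}` (`z x` has first coordinate depending on `x.1` only) and the two quadruples (`x.1.1`). `key8`: with `x = (0 2 1)(3 7 6)` (i.e. `0 → 2 → 1 → 0`,
`3 → 7 → 6 → 3`, even), `x z x⁻¹ ∈ W8` means that `z` preserves the pairs `{1,2},{0,6},{4,5},{3,7}` and the quadruples `{0,1,2,6}`, `{3,4,5,7}` too. So `z` preserves the only common pair `{4,5}`, the quadruple `{4,5,6,7}`, hence `{6,7}`, and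
`{3,4,5,7}`, hence `{3,7}`, so it fixes `7, 6, 3`, then `0` (pair `{0,6}`), `1, 2`; so `z = 1` or `z = (4 5)`, which is odd. (Or: finite check over `σ` (24) and `t` (16) by `decide +kernel`, with the conclusion `z = 1 ∨ z = swap 4 5`.)
`bad2`: `S` Sylow in the alternating group of `α`, card 8: `Nat.card S = 64` (`20160 = 64 * 315`). The image of `S` in `Perm α` lies in a Sylow subgroup, which is conjugate to the image of `W8` (card `128 = 2^7`, `card_WW`, `8! = 2^7 * 315`) under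
`α ≃ (Fin 2 × ZMod 2) × ZMod 2`; so there is `x₀` even with `S ∩ S^{x₀} = 1` in the sense of `key8` (conjugation keeps the sign). The map `S × S → {good x}`, `(s, s') ↦ s x₀ s'` is injective (`s x₀ s' = r x₀ r'` gives `x₀ (s' r'⁻¹) x₀⁻¹ = s⁻¹ r ∈ S`), and
`s x₀ s'` is good (not bad). So at least `64^2 = 4096` elements are good, `#bad ≤ 20160 - 4096 = 16064`.
-/

set_option autoImplicit false

namespace Pool.H77.AN

open Equiv

private def x8 : Perm ((Fin 2 × ZMod 2) × ZMod 2) :=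
  swap ((0, 0), 0) ((0, 0), 1) * swap ((0, 0), 0) ((0, 1), 0) *
    (swap ((0, 1), 1) ((1, 1), 0) * swap ((0, 1), 1) ((1, 1), 1))

private theorem x8_sign : Perm.sign x8 = 1 := by
  unfold x8
  rw [Perm.sign_mul, Perm.sign_mul, Perm.sign_mul, Perm.sign_swap (by decide), Perm.sign_swap (by decide),
    Perm.sign_swap (by decide), Perm.sign_swap (by decide)]
  norm_num

private def y8 (τ : Perm (Fin 2)) (s : Fin 2 → ZMod 2) (t : Fin 2 × ZMod 2 → ZMod 2)
    (y : (Fin 2 × ZMod 2) × ZMod 2) : (Fin 2 × ZMod 2) × ZMod 2 :=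
  x8 (wr (wr τ s) t (x8.symm y))

private def b8 (τ : Perm (Fin 2)) (s : Fin 2 → ZMod 2) (t : Fin 2 × ZMod 2 → ZMod 2) : Bool :=
  (decide (∀ (a : Fin 2) (b c : ZMod 2), (y8 τ s t ((a, b), c)).1 = (y8 τ s t ((a, b), 0)).1)) &&
    (decide (∀ (a : Fin 2) (b c : ZMod 2), (y8 τ s t ((a, b), c)).1.1 = (y8 τ s t ((a, 0), 0)).1.1))

private def c8 (τ : Perm (Fin 2)) (s : Fin 2 → ZMod 2) (t : Fin 2 × ZMod 2 → ZMod 2) : Bool :=
  (decide (∀ y, wr (wr τ s) t y = y)) || (decide (∀ y, wr (wr τ s) t y = swap ((1, 0), 0) ((1, 0), 1) y))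

private theorem x8_check : ∀ (τ : Perm (Fin 2)) (s : Fin 2 → ZMod 2) (t : Fin 2 × ZMod 2 → ZMod 2),
    (!(b8 τ s t) || c8 τ s t) = true := by
  decide +kernel

private theorem x8_c (τ : Perm (Fin 2)) (s : Fin 2 → ZMod 2) (t : Fin 2 × ZMod 2 → ZMod 2)
    (h1 : ∀ (a : Fin 2) (b c : ZMod 2), (y8 τ s t ((a, b), c)).1 = (y8 τ s t ((a, b), 0)).1)
    (h2 : ∀ (a : Fin 2) (b c : ZMod 2), (y8 τ s t ((a, b), c)).1.1 = (y8 τ s t ((a, 0), 0)).1.1) :
    wr (wr τ s) t = 1 ∨ wr (wr τ s) t = swap ((1, 0), 0) ((1, 0), 1) := by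
  have h := x8_check τ s t
  have hb : b8 τ s t = true := by
    unfold b8
    rw [Bool.and_eq_true, decide_eq_true_eq, decide_eq_true_eq]
    exact ⟨h1, h2⟩
  rw [hb, Bool.not_true, Bool.false_or] at h
  unfold c8 at h
  rw [Bool.or_eq_true, decide_eq_true_eq, decide_eq_true_eq] at h
  exact h.imp Equiv.ext Equiv.ext

private theorem x8_odd (z : Perm ((Fin 2 × ZMod 2) × ZMod 2)) (h : z = 1 ∨ z = swap ((1, 0), 0) ((1, 0), 1))
    (hz : Perm.sign z = 1) : z = 1 := by
  rcases h with h | h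
  · exact h
  · rw [h, Perm.sign_swap (by decide)] at hz
    exact absurd hz (by decide)

end Pool.H77.AN

open scoped Classical

namespace Pool.H77.AN

open Equiv

/-- A Sylow 2-subgroup of the symmetric group of degree 8. -/
def W8 : Subgroup (Perm ((Fin 2 × ZMod 2) × ZMod 2)) := WW 2 (WW 2 (⊤ : Subgroup (Perm (Fin 2))))

theorem key8 : ∃ x : Perm ((Fin 2 × ZMod 2) × ZMod 2), Perm.sign x = 1 ∧
    ∀ z ∈ W8, Perm.sign z = 1 → x * z * x⁻¹ ∈ W8 → z = 1 := by
  refine ⟨x8, x8_sign, ?_⟩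
  rintro z ⟨σ, ⟨τ, -, s, rfl⟩, t, rfl⟩ hz ⟨σ', ⟨τ', -, s', rfl⟩, t', h⟩
  have h1 : ∀ y, y8 τ s t y = wr (wr τ' s') t' y := fun y => by
    rw [← h]
    rfl
  exact x8_odd _ (x8_c τ s t (fun a b c => by rw [h1, h1]; rfl) (fun a b c => by rw [h1, h1]; rfl)) hz

theorem bad2 {α : Type} [Fintype α] [DecidableEq α] (h : Fintype.card α = 8)
    (S : Sylow 2 (alternatingGroup α)) :
    {x : alternatingGroup α | ∃ a ∈ (S : Subgroup (alternatingGroup α)),
      x * a * x⁻¹ ∈ (S : Subgroup (alternatingGroup α)) ∧ a ≠ 1}.ncard ≤ 16064 := by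
  have hcA : Nat.card (alternatingGroup α) = 20160 := by
    have _ : Nontrivial α := Fintype.one_lt_card_iff_nontrivial.1 (by rw [h]; norm_num)
    have h1 := two_mul_nat_card_alternatingGroup (α := α)
    rw [Nat.card_eq_fintype_card (α := Perm α), Fintype.card_perm, h] at h1
    have h2 : Nat.factorial 8 = 40320 := by decide
    omega
  have hcS : Nat.card S = 64 := by
    rw [S.card_eq_multiplicity, hcA, show (20160 : ℕ) = 2 ^ 6 * 315 by norm_num,
      Nat.factorization_mul (by norm_num) (by norm_num), Nat.Prime.factorization_pow Nat.prime_two]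
    rw [Finsupp.add_apply, Finsupp.single_eq_same,
      Nat.factorization_eq_zero_of_not_dvd (by norm_num : ¬ 2 ∣ 315)]
    norm_num
  -- the Sylow subgroup of the symmetric group
  have hX : Fintype.card ((Fin 2 × ZMod 2) × ZMod 2) = 8 := by
    simp [ZMod.card]
  have e : ((Fin 2 × ZMod 2) × ZMod 2) ≃ α := Fintype.equivOfCardEq (hX.trans h.symm)
  have hc8 : Nat.card W8 = 2 ^ (Nat.card (Perm ((Fin 2 × ZMod 2) × ZMod 2))).factorization 2 := by
    have _ : Fact (Nat.Prime 2) := ⟨Nat.prime_two⟩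
    unfold W8
    rw [card_WW, card_WW, Nat.card_eq_fintype_card (α := Perm ((Fin 2 × ZMod 2) × ZMod 2)), Fintype.card_perm, hX]
    have h2 : Nat.factorial 8 = 2 ^ 7 * 315 := by decide
    rw [h2, Nat.factorization_mul (by norm_num) (by norm_num), Nat.Prime.factorization_pow Nat.prime_two,
      Finsupp.add_apply, Finsupp.single_eq_same,
      Nat.factorization_eq_zero_of_not_dvd (by norm_num : ¬ 2 ∣ 315), Subgroup.card_top,
      Nat.card_eq_fintype_card, Fintype.card_perm, Fintype.card_prod, ZMod.card, Fintype.card_fin]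
    decide
  have _ : Fact (Nat.Prime 2) := ⟨Nat.prime_two⟩
  let P8 : Sylow 2 (Perm ((Fin 2 × ZMod 2) × ZMod 2)) := Sylow.ofCard W8 hc8
  have hP8 : (P8 : Subgroup (Perm ((Fin 2 × ZMod 2) × ZMod 2))) = W8 := rfl
  obtain ⟨ψ, hψ⟩ : ∃ ψ : Perm α ≃* Perm ((Fin 2 × ZMod 2) × ZMod 2), ∀ z, Perm.sign (ψ z) = Perm.sign z :=
    ⟨e.symm.permCongrHom, fun z => Perm.sign_permCongr e.symm z⟩
  have hS' : IsPGroup 2 ((S : Subgroup (alternatingGroup α)).map
      (ψ.toMonoidHom.comp (alternatingGroup α).subtype)) := S.isPGroup'.map _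
  obtain ⟨Q, hQ⟩ := hS'.exists_le_sylow
  obtain ⟨g, hg⟩ := MulAction.exists_smul_eq (Perm ((Fin 2 × ZMod 2) × ZMod 2)) Q P8
  have hφ : ∀ a : alternatingGroup α, a ∈ (S : Subgroup (alternatingGroup α)) →
      g * ψ (a : Perm α) * g⁻¹ ∈ W8 := by
    intro a ha
    have h1 : g * ψ (a : Perm α) * g⁻¹ ∈ (P8 : Subgroup (Perm ((Fin 2 × ZMod 2) × ZMod 2))) := by
      rw [← hg, Sylow.coe_subgroup_smul]
      have h2 := Subgroup.smul_mem_pointwise_smul (ψ (a : Perm α)) (MulAut.conj g)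
        (Q : Subgroup (Perm ((Fin 2 × ZMod 2) × ZMod 2))) (hQ (Subgroup.mem_map_of_mem _ ha))
      simpa [MulAut.smul_def, MulAut.conj_apply] using h2
    rw [hP8] at h1
    exact h1
  obtain ⟨x, hx1, hx2⟩ := key8
  obtain ⟨y, hy⟩ : ∃ y : Perm α, ψ y = g⁻¹ * x * g := ψ.surjective _
  have hys : Perm.sign y = 1 := by
    rw [← hψ, hy, Perm.sign_mul, Perm.sign_mul, hx1, mul_one, Perm.sign_inv]
    exact Int.units_mul_self _
  obtain ⟨x₀, hx₀y⟩ : ∃ x₀ : alternatingGroup α, (x₀ : Perm α) = y := ⟨⟨y, Perm.mem_alternatingGroup.2 hys⟩, rfl⟩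
  have hx₀ : ∀ z ∈ (S : Subgroup (alternatingGroup α)),
      x₀ * z * x₀⁻¹ ∈ (S : Subgroup (alternatingGroup α)) → z = 1 := by
    intro z hz hz2
    have h1 := hφ _ hz
    have h2 := hφ _ hz2
    have h3 : g * ψ ((x₀ * z * x₀⁻¹ : alternatingGroup α) : Perm α) * g⁻¹ =
        x * (g * ψ (z : Perm α) * g⁻¹) * x⁻¹ := by
      rw [Subgroup.coe_mul, Subgroup.coe_mul, Subgroup.coe_inv, map_mul, map_mul, map_inv, hx₀y, hy]
      group
    rw [h3] at h2
    have h4 : Perm.sign (g * ψ (z : Perm α) * g⁻¹) = 1 := by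
      rw [Perm.sign_mul, Perm.sign_mul, Perm.sign_inv, mul_right_comm, Int.units_mul_self, one_mul, hψ]
      exact Perm.mem_alternatingGroup.1 z.2
    have h5 := hx2 _ h1 h4 h2
    have h6 : ψ (z : Perm α) = 1 := by
      have h7 : g * ψ (z : Perm α) * g⁻¹ = g * 1 * g⁻¹ := by
        rw [h5]
        group
      exact mul_left_cancel (mul_right_cancel h7)
    exact Subtype.ext ((map_eq_one_iff ψ ψ.injective).1 h6)
  -- the good elements
  let f : S × S → alternatingGroup α := fun q => (q.1 : alternatingGroup α) * x₀ * (q.2 : alternatingGroup α)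
  have hf : Function.Injective f := by
    rintro ⟨s, s'⟩ ⟨r, r'⟩ hsr
    have h1 : (s : alternatingGroup α) * x₀ * s' = r * x₀ * r' := hsr
    have h2 : x₀ * ((s' : alternatingGroup α) * (r' : alternatingGroup α)⁻¹) * x₀⁻¹ =
        (s : alternatingGroup α)⁻¹ * r := by
      have h3 : (s : alternatingGroup α) * x₀ * s' * (r' : alternatingGroup α)⁻¹ * x₀⁻¹ = r := by
        rw [h1]
        group
      rw [← h3]
      group
    have h3 : (s' : alternatingGroup α) * (r' : alternatingGroup α)⁻¹ = 1 := by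
      refine hx₀ _ (mul_mem s'.2 (inv_mem r'.2)) ?_
      rw [h2]
      exact mul_mem (inv_mem s.2) r.2
    have h4 : (s' : alternatingGroup α) = r' := mul_inv_eq_one.1 h3
    rw [h4] at h1
    have h5 : (s : alternatingGroup α) = r := mul_right_cancel (mul_right_cancel h1)
    exact Prod.ext (Subtype.ext h5) (Subtype.ext h4)
  have hd : Disjoint {x : alternatingGroup α | ∃ a ∈ (S : Subgroup (alternatingGroup α)),
      x * a * x⁻¹ ∈ (S : Subgroup (alternatingGroup α)) ∧ a ≠ 1} (f '' Set.univ) := by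
    rw [Set.disjoint_left]
    rintro _ ⟨a, ha, hxa, ha1⟩ ⟨⟨s, s'⟩, -, rfl⟩
    apply ha1
    have h1 : x₀ * ((s' : alternatingGroup α) * a * (s' : alternatingGroup α)⁻¹) * x₀⁻¹ ∈
        (S : Subgroup (alternatingGroup α)) := by
      have h2 := mul_mem (mul_mem (inv_mem s.2) hxa) s.2
      have h3 : (s : alternatingGroup α)⁻¹ * (f (s, s') * a * (f (s, s'))⁻¹) * s =
          x₀ * ((s' : alternatingGroup α) * a * (s' : alternatingGroup α)⁻¹) * x₀⁻¹ := by
        show (s : alternatingGroup α)⁻¹ * ((s : alternatingGroup α) * x₀ * s' * a *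
          ((s : alternatingGroup α) * x₀ * s')⁻¹) * s = _
        group
      rw [← h3]
      exact h2
    have h2 := hx₀ _ (mul_mem (mul_mem s'.2 ha) (inv_mem s'.2)) h1
    have h3 : (s' : alternatingGroup α) * a * (s' : alternatingGroup α)⁻¹ =
        s' * 1 * (s' : alternatingGroup α)⁻¹ := by
      rw [h2]
      group
    exact mul_left_cancel (mul_right_cancel h3)
  have hG : (f '' Set.univ).ncard = 4096 := by
    rw [Set.ncard_image_of_injective _ hf, Set.ncard_univ, Nat.card_prod, hcS]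
  have hU := Set.ncard_union_eq hd (Set.toFinite _) (Set.toFinite _)
  have hle := Set.ncard_le_ncard (Set.subset_univ ({x : alternatingGroup α |
    ∃ a ∈ (S : Subgroup (alternatingGroup α)), x * a * x⁻¹ ∈ (S : Subgroup (alternatingGroup α)) ∧ a ≠ 1} ∪
      f '' Set.univ)) (Set.toFinite _)
  rw [hU, hG, Set.ncard_univ, hcA] at hle
  omega

end Pool.H77.AN
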