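import Mathlib

/-!
Project MP_e5a1a5_AN (helper77): simultaneous trivial Sylow intersections in alternating groups. Definitions.
`cnt p n k` : the number of `z` with `z ^ p = 1` moving `p * k` points in a Sylow `p`-subgroup of the symmetric group of degree `n`.
-/

set_option autoImplicit false

namespace Pool.H77.AN

open Equiv

/-- `f 0 + ... + f m` -/
def sm (f : ℕ → ℕ) : ℕ → ℕ
  | 0 => f 0
  | m + 1 => sm f m + f (m + 1)

theorem sm_eq (f : ℕ → ℕ) (m : ℕ) : sm f m = ∑ i ∈ Finset.range (m + 1), f i := by
  induction m with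
  | zero => simp [sm]
  | succ m ih => rw [Finset.sum_range_succ, ← ih, sm]

/-- The recursion with fuel. -/
def cntF (p : ℕ) : ℕ → ℕ → ℕ → ℕ
  | 0, _, k => if k = 0 then 1 else 0
  | f + 1, n, k => if n < p then (if k = 0 then 1 else 0) else
      sm (fun j => cntF p f (n / p) j * p ^ ((p - 1) * j) * (n / p - p * j).choose (k - p * j) *
        (p - 1) ^ (k - p * j)) (k / p)

/-- The number of elements `z`, `z ^ p = 1`, with `p * k` moved points in a Sylow `p`-subgroup of the symmetric group
of degree `n`. -/
def cnt (p n k : ℕ) : ℕ := cntF p n n k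

theorem cntF_lt {p n : ℕ} (h : n < p) (f k : ℕ) : cntF p f n k = if k = 0 then 1 else 0 := by
  cases f with
  | zero => rfl
  | succ f => rw [cntF, if_pos h]

theorem cntF_fuel {p : ℕ} (hp : 2 ≤ p) : ∀ (n f g k : ℕ), n ≤ f → n ≤ g →
    cntF p f n k = cntF p g n k := by
  intro n
  induction n using Nat.strong_induction_on with
  | _ n ih =>
    intro f g k hf hg
    by_cases h : n < p
    · rw [cntF_lt h, cntF_lt h]
    · obtain ⟨f', rfl⟩ : ∃ f', f = f' + 1 := ⟨f - 1, by omega⟩
      obtain ⟨g', rfl⟩ : ∃ g', g = g' + 1 := ⟨g - 1, by omega⟩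
      have hlt : n / p < n := Nat.div_lt_self (by omega) (by omega)
      rw [cntF, cntF, if_neg h, if_neg h]
      congr 1
      funext j
      rw [ih (n / p) hlt f' g' j (by omega) (by omega)]

theorem cnt_lt {p n : ℕ} (h : n < p) (k : ℕ) : cnt p n k = if k = 0 then 1 else 0 := cntF_lt h n k

/-- The recursion. -/
theorem cnt_rec {p n : ℕ} (hp : 2 ≤ p) (h : p ≤ n) (k : ℕ) : cnt p n k =
    ∑ j ∈ Finset.range (k / p + 1), cnt p (n / p) j * p ^ ((p - 1) * j) *
      (n / p - p * j).choose (k - p * j) * (p - 1) ^ (k - p * j) := by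
  obtain ⟨n', rfl⟩ : ∃ n', n = n' + 1 := ⟨n - 1, by omega⟩
  have hlt : (n' + 1) / p < n' + 1 := Nat.div_lt_self (by omega) (by omega)
  rw [cnt, cntF, if_neg (by omega), sm_eq]
  refine Finset.sum_congr rfl fun j _ => ?_
  rw [cnt, cntF_fuel hp ((n' + 1) / p) n' ((n' + 1) / p) j (by omega) le_rfl]

theorem cnt_zero {p : ℕ} (hp : 2 ≤ p) : ∀ (n k : ℕ), n < p * k → cnt p n k = 0 := by
  intro n
  induction n using Nat.strong_induction_on with
  | _ n ih =>
    intro k hk
    have hk0 : k ≠ 0 := by
      rintro rfl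
      omega
    by_cases h : n < p
    · rw [cnt_lt h, if_neg hk0]
    · have hlt : n / p < n := Nat.div_lt_self (by omega) (by omega)
      rw [cnt_rec hp (by omega)]
      refine Finset.sum_eq_zero fun j hj => ?_
      have hj1 : j ≤ k / p := by
        rw [Finset.mem_range] at hj
        omega
      have hj2 : p * j ≤ k := (Nat.mul_le_mul_left p hj1).trans (Nat.mul_div_le k p)
      have hq : n / p < k := (Nat.div_lt_iff_lt_mul (by omega)).2 (by rwa [mul_comm])
      by_cases h2 : n / p < p * j
      · rw [ih _ hlt j h2, zero_mul, zero_mul, zero_mul]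
      · rw [Nat.choose_eq_zero_of_lt (by omega), mul_zero, zero_mul]

/-- The number of elements `z` of `H` with `z ^ p = 1` and `p * k` moved points. -/
noncomputable def nz {α : Type} [Fintype α] [DecidableEq α] (H : Subgroup (Perm α)) (p k : ℕ) : ℕ :=
  {z : Perm α | z ∈ H ∧ z ^ p = 1 ∧ z.support.card = p * k}.ncard

/-- The weight of the class of the elements of order `p` with `p * k` moved points: `0` if they are odd permutations
(`p = 2`, `k` odd), twice the usual one if the class splits (`p` odd, `k = 1`, at most one fixed point). -/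
def wt (p n k : ℕ) : ℕ :=
  if p = 2 ∧ k % 2 = 1 then 0 else
    (n - p * k).factorial * p ^ k * k.factorial * (if p ≠ 2 ∧ k = 1 ∧ n < p + 2 then 2 else 1)

/-- The total weight, `k = 1, ..., n / p` (the summand `k = 0` is dropped). -/
def Sp (p n : ℕ) : ℕ := sm (fun k => if k = 0 then 0 else cnt p n k ^ 2 * wt p n k) (n / p)

/-- `n` is good: for all Sylow subgroups of the alternating group, one element for each prime, one `x` makes all the
intersections with the conjugates trivial. -/
def Good (α : Type) [Fintype α] [DecidableEq α] : Prop :=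
  ∀ S : ∀ q : Nat.Primes, Sylow (q : ℕ) (alternatingGroup α), ∃ x : alternatingGroup α,
    ∀ q, ∀ a ∈ (S q : Subgroup (alternatingGroup α)), x * a * x⁻¹ ∈
      (S q : Subgroup (alternatingGroup α)) → a = 1

end Pool.H77.AN
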