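import Pool.Agent.H77.AN.Df

/-!
Project MP_e5a1a5_AN (helper77): definitions for the symmetric groups and for the estimates.
-/

set_option autoImplicit false

namespace Pool.H77.AN

open Equiv

/-- The total weight for the symmetric group. -/
def SpS (p n : ℕ) : ℕ :=
  sm (fun k => if k = 0 then 0 else cnt p n k ^ 2 * ((n - p * k).factorial * p ^ k * k.factorial)) (n / p)

/-- All Sylow intersections can be made trivial simultaneously in the symmetric group. -/
def GoodS (α : Type) [Fintype α] [DecidableEq α] : Prop :=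
  ∀ S : ∀ q : Nat.Primes, Sylow (q : ℕ) (Perm α), ∃ x : Perm α,
    ∀ q, ∀ a ∈ (S q : Subgroup (Perm α)), x * a * x⁻¹ ∈ (S q : Subgroup (Perm α)) → a = 1

/-- The ratio `cnt 2 n k / choose m k`, `m = n / 2`. -/
noncomputable def Rr (k m : ℕ) : ℝ := ∑ j ∈ Finset.range (k / 2 + 1),
  (121 / 50 : ℝ) ^ j * (k.descFactorial (2 * j) : ℝ) /
    ((j.factorial : ℝ) * ∏ i ∈ Finset.range j, ((m : ℝ) - 2 * i - 1))

noncomputable def Pp (k m : ℕ) : ℝ := ∏ i ∈ Finset.range k, (1 + 1 / (2 * ((m : ℝ) - i) - 1))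

theorem SpS_eq (p n : ℕ) : SpS p n = ∑ k ∈ Finset.Icc 1 (n / p),
    cnt p n k ^ 2 * ((n - p * k).factorial * p ^ k * k.factorial) := by
  rw [SpS, sm_eq, Finset.sum_range_succ', if_pos rfl, add_zero, Finset.range_eq_Ico,
    Finset.sum_Ico_add' (fun k => if k = 0 then 0 else
      cnt p n k ^ 2 * ((n - p * k).factorial * p ^ k * k.factorial)) 0 (n / p) 1]
  refine Finset.sum_congr ?_ fun k hk => ?_
  · ext k
    simp only [Finset.mem_Ico, Finset.mem_Icc]
    omega
  · rw [Finset.mem_Icc] at hk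
    rw [if_neg (by omega)]

theorem Sp_le (p n : ℕ) : Sp p n ≤ 2 * SpS p n := by
  rw [Sp, SpS, sm_eq, sm_eq, Finset.mul_sum]
  refine Finset.sum_le_sum fun k _ => ?_
  by_cases hk : k = 0
  · rw [if_pos hk, if_pos hk, mul_zero]
  · rw [if_neg hk, if_neg hk, wt]
    split_ifs
    · rw [mul_zero]
      exact Nat.zero_le _
    · exact le_of_eq (by ring)
    · rw [mul_one]
      exact Nat.le_mul_of_pos_left _ (by norm_num)

theorem Sp_le' {p n : ℕ} (h : p = 2 ∨ p + 2 ≤ n) : Sp p n ≤ SpS p n := by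
  rw [Sp, SpS, sm_eq, sm_eq]
  refine Finset.sum_le_sum fun k _ => ?_
  by_cases hk : k = 0
  · rw [if_pos hk, if_pos hk]
  · rw [if_neg hk, if_neg hk, wt]
    split_ifs with h1 h2
    · rw [mul_zero]
      exact Nat.zero_le _
    · exact absurd h2 (by omega)
    · rw [mul_one]

end Pool.H77.AN
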