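import Pool.Agent.H45.SY.GR3
import Pool.Agent.H77.AN.Dg

/-!
Row E1 (project MP_e5a1a5_AN, PI helper77), about 120 lines: the property `Str` (Pool/Agent/H45/SY/GR3.lean).

`str_good`, `str_goodS`: `itr (S q) x = ⊥` (`Pool.H45.SY.mem_itr`), which is normal. `str_equiv`: transport the Sylow subgroups by `e.symm` (`Sylow.comap..`/`Sylow.mapSurjective`; `Sylow` subgroups of `L` are `(S q).map`), normality is kept.
`str_pi`: `S q ≤ Subgroup.pi Set.univ (fun i => (S q).map (Pi.evalMonoidHom K i))`, which is a `q`-group (finite product of `q`-groups), so equality (`Sylow.is_maximal'`); the components are Sylow subgroups of `K i` (`Sylow.mapSurjective`), `z i` from `h i`,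
`z = (z i)`: `itr (pi) z` is the `pi` of the `itr (component i) (z i)`, a product of normal subgroups.
-/

set_option autoImplicit false

namespace Pool.H77.AN

open Equiv Pool.H45.SY

universe u v

private theorem normal_of_triv {G : Type u} [Group G] (H : Subgroup G) (x : G)
    (h : ∀ a ∈ H, x * a * x⁻¹ ∈ H → a = 1) : (itr H x).Normal := by
  have e : itr H x = ⊥ := by
    rw [Subgroup.eq_bot_iff_forall]
    intro a ha
    rw [mem_itr] at ha
    exact h a ha.1 ha.2
  rw [e]
  infer_instance

theorem str_good {α : Type} [Fintype α] [DecidableEq α] (h : Good α) : Str (alternatingGroup α) := by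
  intro S
  obtain ⟨x, hx⟩ := h S
  exact ⟨x, fun q => normal_of_triv _ x (hx q)⟩

theorem str_goodS {α : Type} [Fintype α] [DecidableEq α] (h : GoodS α) : Str (Perm α) := by
  intro S
  obtain ⟨x, hx⟩ := h S
  exact ⟨x, fun q => normal_of_triv _ x (hx q)⟩

theorem str_equiv {K : Type u} {L : Type v} [Group K] [Group L] [Finite K] (e : K ≃* L) (h : Str K) : Str L := by
  intro S
  have hfin : Finite L := Finite.of_equiv K e.toEquiv
  have hs : Function.Surjective (e.symm : L →* K) := e.symm.surjective
  obtain ⟨z, hz⟩ := h (fun q => have := Fact.mk q.2; (S q).mapSurjective hs)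
  refine ⟨e z, fun q => ?_⟩
  have := Fact.mk q.2
  have hmem : ∀ a : L, a ∈ itr (S q : Subgroup L) (e z) ↔
      e.symm a ∈ itr ((S q).mapSurjective hs : Subgroup K) z := by
    have h1 : ∀ b : K, b ∈ ((S q).mapSurjective hs : Subgroup K) ↔ e b ∈ (S q : Subgroup L) := by
      intro b
      rw [Sylow.coe_mapSurjective, Subgroup.mem_map]
      constructor
      · rintro ⟨c, hc, hcb⟩
        have h2 : e.symm c = b := hcb
        rw [← h2, e.apply_symm_apply]
        exact hc
      · intro hb
        exact ⟨e b, hb, e.symm_apply_apply b⟩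
    intro a
    rw [mem_itr, mem_itr, h1, h1, e.apply_symm_apply, map_mul, map_mul, map_inv, e.apply_symm_apply]
  refine ⟨fun n hn g => ?_⟩
  rw [hmem] at hn ⊢
  rw [map_mul, map_mul, map_inv]
  exact (hz q).conj_mem _ hn _

theorem str_pi {κ : Type} [Finite κ] {K : κ → Type} [∀ k, Group (K k)] [∀ k, Finite (K k)]
    (h : ∀ k, Str (K k)) : Str (∀ k, K k) := by
  intro S
  have hs : ∀ k, Function.Surjective (Pi.evalMonoidHom K k) := fun k => Function.surjective_eval k
  choose z hz using fun k => h k (fun q => have := Fact.mk q.2; (S q).mapSurjective (hs k))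
  refine ⟨z, fun q => ?_⟩
  have := Fact.mk q.2
  have hcomp : ∀ a : (∀ k, K k), a ∈ (S q : Subgroup (∀ k, K k)) ↔
      ∀ k, a k ∈ ((S q).mapSurjective (hs k) : Subgroup (K k)) := by
    have hle : (S q : Subgroup (∀ k, K k)) ≤
        Subgroup.pi Set.univ (fun k => ((S q).mapSurjective (hs k) : Subgroup (K k))) := by
      intro a ha k _
      show a k ∈ ((S q).mapSurjective (hs k) : Subgroup (K k))
      rw [Sylow.coe_mapSurjective]
      exact ⟨a, ha, rfl⟩
    have hp : IsPGroup (q : ℕ)
        (Subgroup.pi Set.univ (fun k => ((S q).mapSurjective (hs k) : Subgroup (K k)))) := by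
      rintro ⟨a, ha⟩
      have h1 : ∀ k, ∃ n : ℕ, a k ^ ((q : ℕ) ^ n) = 1 := by
        intro k
        obtain ⟨n, hn⟩ := ((S q).mapSurjective (hs k)).isPGroup' ⟨a k, ha k (Set.mem_univ k)⟩
        exact ⟨n, congrArg Subtype.val hn⟩
      choose n hn using h1
      obtain ⟨N, hN⟩ : ∃ N : ℕ, ∀ k, n k ≤ N := by
        obtain ⟨_⟩ := nonempty_fintype κ
        exact ⟨Finset.univ.sup n, fun k => Finset.le_sup (Finset.mem_univ k)⟩
      refine ⟨N, Subtype.ext (funext fun k => ?_)⟩
      show a k ^ ((q : ℕ) ^ N) = 1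
      obtain ⟨c, hc⟩ := pow_dvd_pow (q : ℕ) (hN k)
      rw [hc, pow_mul, hn, one_pow]
    have he := (S q).is_maximal' hp hle
    intro a
    constructor
    · intro ha k
      exact hle ha k (Set.mem_univ k)
    · intro ha
      rw [← he]
      exact fun k _ => ha k
  have hmem : ∀ a : (∀ k, K k), a ∈ itr (S q : Subgroup (∀ k, K k)) z ↔
      ∀ k, a k ∈ itr ((S q).mapSurjective (hs k) : Subgroup (K k)) (z k) := by
    intro a
    rw [mem_itr, hcomp, hcomp, ← forall_and]
    exact forall_congr' fun k => (mem_itr _ _ _).symm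
  refine ⟨fun n hn g => ?_⟩
  rw [hmem] at hn ⊢
  intro k
  exact (hz k q).conj_mem _ (hn k) (g k)

end Pool.H77.AN
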