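import Pool.Agent.H77.AN.B2
import Pool.Agent.H77.AN.B3
import Pool.Agent.H77.AN.B4
import Pool.Agent.H77.AN.C1
import Pool.Agent.H77.AN.C9
import Pool.Agent.H77.AN.D5
import Pool.Agent.H77.AN.D8
import Pool.Agent.H77.AN.E1

/-!
Project MP_e5a1a5_AN (helper77): all alternating groups of degree at least five, almost all symmetric groups.
-/

set_option autoImplicit false
open scoped Classical

namespace Pool.H77.AN

open Equiv Pool.H45.SY

variable {α : Type} [Fintype α] [DecidableEq α]

theorem bad_le {p : ℕ} (hp : p.Prime) (S : Sylow p (alternatingGroup α)) :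
    {x : alternatingGroup α | ∃ a ∈ (S : Subgroup (alternatingGroup α)),
      x * a * x⁻¹ ∈ (S : Subgroup (alternatingGroup α)) ∧ a ≠ 1}.ncard ≤
      Sp p (Fintype.card α) / (2 * (p - 1)) := by
  have h2 := hp.two_le
  rw [Nat.le_div_iff_mul_le (by omega), mul_comm]
  exact bad_count hp (S : Subgroup (alternatingGroup α)) S.isPGroup'

theorem badS_le {p : ℕ} (hp : p.Prime) (S : Sylow p (Perm α)) :
    {x : Perm α | ∃ a ∈ (S : Subgroup (Perm α)),
      x * a * x⁻¹ ∈ (S : Subgroup (Perm α)) ∧ a ≠ 1}.ncard ≤ SpS p (Fintype.card α) / (p - 1) := by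
  have h2 := hp.two_le
  rw [Nat.le_div_iff_mul_le (by omega), mul_comm]
  exact bad_countS hp (S : Subgroup (Perm α)) S.isPGroup'

theorem good8 (h : Fintype.card α = 8) : Good α := by
  refine good_of_bounds (by omega) (fun p => if p = 2 then 16064 else Sp p 8 / (2 * (p - 1)))
    (fun p hp _ S => ?_) ?_
  · by_cases h2 : p = 2
    · subst h2
      rw [if_pos rfl]
      exact bad2 h S
    · rw [if_neg h2, ← h]
      exact bad_le hp S
  · rw [h]
    have e : (Finset.range (8 + 1)).filter Nat.Prime = {2, 3, 5, 7} := by decide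
    rw [e]
    decide +kernel

/-- **All alternating groups of degree at least five.** -/
theorem good_all (h5 : 5 ≤ Fintype.card α) : Good α := by
  by_cases a5 : Fintype.card α = 5
  · exact good5 a5
  by_cases a6 : Fintype.card α = 6
  · exact good6 a6
  by_cases a8 : Fintype.card α = 8
  · exact good8 a8
  refine good_of_bounds (by omega) (fun p => Sp p (Fintype.card α) / (2 * (p - 1)))
    (fun p hp _ S => bad_le hp S) ?_
  by_cases h63 : Fintype.card α ≤ 63
  · exact sum_lt _ (by omega) h63
  · exact good_sum (by omega)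

theorem goodS_all (h : Fintype.card α = 7 ∨ Fintype.card α = 11 ∨ Fintype.card α = 13 ∨
    Fintype.card α = 15 ∨ 17 ≤ Fintype.card α) : GoodS α := by
  refine goodS_of_bounds (fun p => SpS p (Fintype.card α) / (p - 1))
    (fun p hp _ S => badS_le hp S) ?_
  by_cases h63 : Fintype.card α ≤ 63
  · exact sumS_lt _ h h63
  · exact goodS_sum (by omega)

end Pool.H77.AN
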